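import Mathlib

set_option autoImplicit false
open Filter Topology Dynamics Set Function

namespace Pool.Agent.Lib.MP_1073f4_an.OneDim

/-- `f` has completely positive entropy: every non-trivial factor has positive topological
entropy. -/
def IsCPE {X : Type} [TopologicalSpace X] (f : X → X) : Prop :=
  ∀ (Y : Type) [MetricSpace Y] [CompactSpace Y] [Nontrivial Y] (g : Y → Y) (π : X → Y),
    Continuous g → Continuous π → Function.Surjective π → π ∘ f = g ∘ π →
      0 < coverEntropy g Set.univ

section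
variable {X : Type}

/-- The `u`-orbits of `x` and `y` are `ε`-close up to time `n`. -/
def Near (f : X → X) (u : X → ℝ) (n : ℕ) (ε : ℝ) (x y : X) : Prop :=
  ∀ i < n, |u (f^[i] x) - u (f^[i] y)| < ε

/-- `F` is `(n, ε)`-spanning for the observable `u`. -/
def Spans (f : X → X) (u : X → ℝ) (n : ℕ) (ε : ℝ) (F : Finset X) : Prop :=
  ∀ x, ∃ y ∈ F, Near f u n ε x y

/-- The factor generated by the observable `u` has zero entropy. -/
def ZE (f : X → X) (u : X → ℝ) : Prop :=
  ∀ ε > 0, ∀ δ > 0, ∀ᶠ n : ℕ in atTop,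
    ∃ F : Finset X, (F.card : ℝ) ≤ Real.exp (δ * n) ∧ Spans f u n ε F

theorem log_card_le {c : ℕ} {t : ℝ} (h : (c : ℝ) ≤ Real.exp t) :
    ENNReal.log (c : ENNReal) ≤ (t : EReal) := by
  have h1 : (c : ENNReal) ≤ ENNReal.ofReal (Real.exp t) := by
    rw [← ENNReal.ofReal_natCast]
    exact ENNReal.ofReal_le_ofReal h
  refine (ENNReal.log_monotone h1).trans ?_
  rw [ENNReal.log_ofReal_of_pos (Real.exp_pos t), Real.log_exp]

theorem card_le_of_log {c : ℕ} {t : ℝ} (h : (c : ENNReal) ≤ EReal.exp (t : EReal)) :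
    (c : ℝ) ≤ Real.exp t := by
  rw [EReal.exp_coe] at h
  rw [← ENNReal.ofReal_natCast] at h
  exact (ENNReal.ofReal_le_ofReal_iff (Real.exp_pos t).le).1 h

/-- A zero-entropy factor gives a zero-entropy observable. -/
theorem ze_of_factor {Y : Type} [MetricSpace Y] {f : X → X}
    {g : Y → Y} {π : X → Y} (hsurj : Function.Surjective π) (hfac : π ∘ f = g ∘ π)
    (h0 : coverEntropy g Set.univ ≤ 0) (y₀ : Y) : ZE f (fun x => dist (π x) y₀) := by
  classical
  intro ε hε δ hδ
  have hU : {p : Y × Y | dist p.1 p.2 < ε} ∈ uniformity Y := Metric.dist_mem_uniformity hε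
  have h1 : coverEntropyEntourage g univ {p : Y × Y | dist p.1 p.2 < ε} < (δ : EReal) :=
    ((coverEntropyEntourage_le_coverEntropy g univ hU).trans h0).trans_lt
      (by exact_mod_cast hδ)
  have h2 := ExpGrowth.eventually_le_exp h1
  have hit : ∀ (i : ℕ) (x : X), π (f^[i] x) = g^[i] (π x) := by
    intro i
    have : Function.Semiconj π f g := fun x => congrFun hfac x
    exact fun x => (this.iterate_right i) x
  filter_upwards [h2] with n hn
  have hfin : coverMincard g univ {p : Y × Y | dist p.1 p.2 < ε} n ≠ ⊤ := by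
    intro htop
    rw [htop] at hn
    have : ((δ : EReal) * (n : EReal)) = ((δ * n : ℝ) : EReal) := by push_cast; rfl
    rw [this, EReal.exp_coe] at hn
    exact absurd hn (by simp)
  obtain ⟨s, hs, hcard⟩ := (coverMincard_finite_iff g univ _ n).1 (lt_top_iff_ne_top.2 hfin)
  have hc : (s.card : ℝ) ≤ Real.exp (δ * n) := by
    apply card_le_of_log
    have : ((δ : EReal) * (n : EReal)) = ((δ * n : ℝ) : EReal) := by push_cast; rfl
    rw [← this]
    rw [← hcard] at hn
    exact_mod_cast hn
  refine ⟨s.image (Function.surjInv hsurj), ?_, ?_⟩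
  · exact (by exact_mod_cast Finset.card_image_le : ((s.image _).card : ℝ) ≤ s.card).trans hc
  · intro x
    obtain ⟨y, hy, hxy⟩ := hs (mem_univ (π x))
    refine ⟨Function.surjInv hsurj y, Finset.mem_image_of_mem _ hy, ?_⟩
    intro i hi
    have h3 := mem_dynEntourage.1 hxy i hi
    simp only [mem_ofPred_eq] at h3
    show |dist (π (f^[i] x)) y₀ - dist (π (f^[i] (Function.surjInv hsurj y))) y₀| < ε
    rw [hit, hit, Function.surjInv_eq hsurj]
    exact (abs_dist_sub_le _ _ _).trans_lt h3

end

section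
variable {X : Type} [TopologicalSpace X] [CompactSpace X]

/-- The shift on sequences. -/
def shiftMap (z : ℕ → ℝ) : ℕ → ℝ := fun j => z (j + 1)

/-- The coding map of the observable `u`. -/
def code (f : X → X) (u : X → ℝ) (x : X) : ℕ → ℝ := fun j => u (f^[j] x)

omit [TopologicalSpace X] [CompactSpace X] in
theorem semiconj_code (f : X → X) (u : X → ℝ) : Function.Semiconj (code f u) f shiftMap := by
  intro x
  funext j
  simp [code, shiftMap, Function.iterate_succ_apply]

omit [TopologicalSpace X] [CompactSpace X] in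
theorem entropy_le_of_ze {f : X → X} {u : X → ℝ} (h : ZE f u) :
    coverEntropy shiftMap (range (code f u)) ≤ 0 := by
  rw [← image_univ, coverEntropy_image_of_comap _ (semiconj_code f u)]
  let _ : UniformSpace X := UniformSpace.comap (code f u) inferInstance
  refine iSup₂_le fun U hU => ?_
  rw [uniformity_comap, mem_comap] at hU
  obtain ⟨V, hV, hVU⟩ := hU
  rw [Pi.uniformity] at hV
  obtain ⟨J, ε, hε, hJ⟩ : ∃ (J : ℕ) (ε : ℝ), 0 < ε ∧
      {p : (ℕ → ℝ) × (ℕ → ℝ) | ∀ j < J, |p.1 j - p.2 j| < ε} ⊆ V := by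
    rw [mem_iInf] at hV
    obtain ⟨I, hI, W, hW, rfl⟩ := hV
    have := hI.fintype
    have h1 : ∀ i : I, ∃ ε > 0, {p : (ℕ → ℝ) × (ℕ → ℝ) | |p.1 i - p.2 i| < ε} ⊆ W i := by
      intro i
      have h2 := hW i
      rw [mem_comap] at h2
      obtain ⟨A, hA, hAW⟩ := h2
      obtain ⟨ε, hε, hεA⟩ := Metric.mem_uniformity_dist.1 hA
      refine ⟨ε, hε, fun p hp => hAW ?_⟩
      exact hεA (by simpa [Real.dist_eq] using hp)
    choose e he hew using h1
    obtain ⟨ε, hε0, hεle⟩ : ∃ ε > 0, ∀ i : I, ε ≤ e i := by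
      by_cases hne : Nonempty I
      · obtain ⟨i0, hi0⟩ := Finite.exists_min e
        exact ⟨e i0, he i0, hi0⟩
      · exact ⟨1, one_pos, fun i => (hne ⟨i⟩).elim⟩
    refine ⟨hI.toFinset.sup id + 1, ε, hε0, fun p hp => ?_⟩
    rw [mem_iInter]
    intro i
    apply hew i
    refine lt_of_lt_of_le (hp i ?_) (hεle i)
    have : (i : ℕ) ≤ hI.toFinset.sup id := Finset.le_sup (f := id) (by simp)
    omega
  set W : SetRel X X := {p : X × X | ∀ j < J, |code f u p.1 j - code f u p.2 j| < ε / 2} with hW
  have hWs : W.IsSymm := ⟨fun x y hxy j hj => by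
    have := hxy j hj
    rw [abs_sub_comm] at this
    exact this⟩
  have hWU : (SetRel.comp W W) ⊆ U := by
    refine Subset.trans ?_ hVU
    rintro ⟨x, z⟩ ⟨y, hxy, hyz⟩
    apply hJ
    intro j hj
    have h1 := hxy j hj
    have h2 := hyz j hj
    simp only at h1 h2 ⊢
    calc |code f u x j - code f u z j|
        = |(code f u x j - code f u y j) + (code f u y j - code f u z j)| := by ring_nf
      _ ≤ |code f u x j - code f u y j| + |code f u y j - code f u z j| := abs_add_le _ _
      _ < ε := by linarith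
  refine (coverEntropyEntourage_antitone f univ hWU).trans ?_
  -- bound
  have key : ∀ δ : ℝ, 0 < δ → coverEntropyEntourage f univ (SetRel.comp W W) ≤
      ((2 * δ : ℝ) : EReal) := by
    intro δ hδ
    have h1 := h (ε / 2) (by positivity) δ hδ
    obtain ⟨N, hN⟩ := eventually_atTop.1 h1
    obtain ⟨M, hM1, hM2⟩ : ∃ M : ℕ, N ≤ M ∧ J + 1 ≤ M := ⟨max N (J + 1), by omega, by omega⟩
    obtain ⟨F, hF1, hF2⟩ := hN (M + J) (by omega)
    have hcov : IsDynCoverOf f univ W M (F : Set X) := by
      intro x _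
      obtain ⟨y, hy, hxy⟩ := hF2 x
      refine ⟨y, hy, ?_⟩
      refine mem_dynEntourage.2 fun k hk => ?_
      intro j hj
      have := hxy (k + j) (by omega)
      simp only [code]
      rw [← Function.iterate_add_apply, ← Function.iterate_add_apply, add_comm j k]
      exact this
    refine (hcov.coverEntropyEntourage_le_log_card_div (mapsTo_univ f univ) (by omega)).trans ?_
    have h2 := log_card_le hF1
    rw [EReal.div_le_iff_le_mul (by norm_cast; omega) (by exact EReal.natCast_ne_top _)]
    refine h2.trans ?_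
    have h3 : ((M : EReal)) * ((2 * δ : ℝ) : EReal) = ((M * (2 * δ) : ℝ) : EReal) := by
      push_cast; rfl
    rw [h3, EReal.coe_le_coe_iff]
    push_cast
    have h4 : (J : ℝ) + 1 ≤ M := by exact_mod_cast hM2
    nlinarith
  refine le_of_forall_gt_imp_ge_of_dense ?_
  intro a ha
  induction a using EReal.rec with
  | bot => exact absurd ha (by simp)
  | top => exact le_top
  | coe a =>
    have ha' : (0 : ℝ) < a := by exact_mod_cast ha
    have := key (a / 2) (by positivity)
    rwa [mul_div_cancel₀ a (two_ne_zero)] at this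

theorem not_cpe_of_ze {f : X → X} {u : X → ℝ} (hf : Continuous f) (hu : Continuous u)
    (hne : ∃ x y, u x ≠ u y) (h : ZE f u) : ¬ IsCPE f := by
  intro hcpe
  have hcode : Continuous (code f u) := continuous_pi fun j => hu.comp (hf.iterate j)
  let _ : MetricSpace (ℕ → ℝ) := PiCountable.metricSpace
  have hmaps : MapsTo shiftMap (range (code f u)) (range (code f u)) := by
    rintro _ ⟨x, rfl⟩
    exact ⟨f x, semiconj_code f u x⟩
  have : CompactSpace (range (code f u)) := isCompact_iff_compactSpace.1 (isCompact_range hcode)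
  obtain ⟨x, y, hxy⟩ := hne
  have : Nontrivial (range (code f u)) :=
    ⟨⟨⟨code f u x, x, rfl⟩, ⟨code f u y, y, rfl⟩, fun heq => hxy (by
      have := congrFun (congrArg Subtype.val heq) 0
      simpa [code] using this)⟩⟩
  have hshift : Continuous shiftMap := continuous_pi fun j => continuous_apply (j + 1)
  have := hcpe (range (code f u)) (hmaps.restrict shiftMap _ _)
    (fun x => ⟨code f u x, x, rfl⟩) (hshift.restrict hmaps) (hcode.subtype_mk _)
    (by rintro ⟨_, x, rfl⟩; exact ⟨x, rfl⟩)
    (by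
      funext x
      apply Subtype.ext
      exact semiconj_code f u x)
  rw [coverEntropy_restrict hmaps] at this
  exact absurd (entropy_le_of_ze h) (not_le.2 this)

/-- Characterisation of completely positive entropy by observables. -/
theorem isCPE_iff {f : X → X} (hf : Continuous f) :
    IsCPE f ↔ ∀ u : X → ℝ, Continuous u → (∃ x y, u x ≠ u y) → ¬ ZE f u := by
  constructor
  · intro h u hu hne hze
    exact not_cpe_of_ze hf hu hne hze h
  · intro h Y _ _ _ g π hg hπ hsurj hfac
    by_contra hcon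
    obtain ⟨y₀, y₁, hy⟩ := exists_pair_ne Y
    refine h (fun x => dist (π x) y₀) (hπ.dist continuous_const) ?_
      (ze_of_factor hsurj hfac (not_lt.1 hcon) y₀)
    obtain ⟨x₀, rfl⟩ := hsurj y₀
    obtain ⟨x₁, rfl⟩ := hsurj y₁
    exact ⟨x₁, x₀, by simpa using hy.symm⟩

end

end Pool.Agent.Lib.MP_1073f4_an.OneDim
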