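import Mathlib
import Pool.Agent.Lib.MP_1073f4_an.OneDim.Ent

set_option autoImplicit false
open Filter Topology Dynamics Set Function

namespace Pool.Agent.Lib.MP_1073f4_an.OneDim

section
variable {X : Type}

/-- Equicontinuous observables have zero entropy. -/
theorem ze_of_equi {f : X → X} {u : X → ℝ}
    (h : ∀ ε > 0, ∃ F : Finset X, ∀ x, ∃ y ∈ F, ∀ i : ℕ, |u (f^[i] x) - u (f^[i] y)| < ε) :
    ZE f u := by
  intro ε hε δ hδ
  obtain ⟨F, hF⟩ := h ε hε
  have h1 : Tendsto (fun n : ℕ => Real.exp (δ * n)) atTop atTop :=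
    Real.tendsto_exp_atTop.comp (tendsto_natCast_atTop_atTop.const_mul_atTop hδ)
  filter_upwards [h1.eventually_ge_atTop (F.card : ℝ)] with n hn
  refine ⟨F, hn, fun x => ?_⟩
  obtain ⟨y, hy, hxy⟩ := hF x
  exact ⟨y, hy, fun i _ => hxy i⟩

/-- Independence at positive density gives positive entropy. -/
theorem not_ze_of_indep {f : X → X} {u : X → ℝ} {N : ℕ} (hN : 0 < N) {ε : ℝ} (hε : 0 < ε)
    (S : Bool → Set X) (hsep : ∀ x ∈ S true, ∀ y ∈ S false, ε ≤ |u x - u y|)
    (hind : ∀ (m : ℕ) (w : ℕ → Bool), ∃ x, ∀ j < m, f^[N * j] x ∈ S (w j)) :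
    ¬ ZE f u := by
  classical
  intro h
  have hδ : 0 < Real.log 2 / (2 * N) := by
    have := Real.log_pos one_lt_two
    positivity
  obtain ⟨n₀, hn₀⟩ := eventually_atTop.1 (h (ε / 2) (by positivity) _ hδ)
  set m := n₀ + 1 with hm
  obtain ⟨F, hF1, hF2⟩ := hn₀ (N * m) (by nlinarith)
  -- injection from words into F
  have hw : ∀ w : Fin m → Bool, ∃ x, ∀ j : Fin m, f^[N * j] x ∈ S (w j) := by
    intro w
    obtain ⟨x, hx⟩ := hind m (fun j => if hj : j < m then w ⟨j, hj⟩ else true)
    refine ⟨x, fun j => ?_⟩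
    have := hx j j.2
    simpa using this
  choose x hx using hw
  have hy : ∀ w : Fin m → Bool, ∃ y : F, Near f u (N * m) (ε / 2) (x w) y := by
    intro w
    obtain ⟨y, hy, hxy⟩ := hF2 (x w)
    exact ⟨⟨y, hy⟩, hxy⟩
  choose y hy using hy
  have hinj : Function.Injective y := by
    intro w w' hww
    funext j
    by_contra hne
    have hj : N * (j : ℕ) < N * m := Nat.mul_lt_mul_of_pos_left j.2 hN
    have h1 := hy w (N * j) hj
    have h2 := hy w' (N * j) hj
    rw [← hww] at h2
    have h3 : |u (f^[N * j] (x w)) - u (f^[N * j] (x w'))| < ε := by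
      calc |u (f^[N * j] (x w)) - u (f^[N * j] (x w'))|
          = |(u (f^[N * j] (x w)) - u (f^[N * j] (y w))) -
              (u (f^[N * j] (x w')) - u (f^[N * j] (y w)))| := by ring_nf
        _ ≤ |u (f^[N * j] (x w)) - u (f^[N * j] (y w))| +
              |u (f^[N * j] (x w')) - u (f^[N * j] (y w))| := abs_sub _ _
        _ < ε := by linarith
    have h4 := hx w j
    have h5 := hx w' j
    rcases hb : w j with _ | _ <;> rcases hb' : w' j with _ | _
    · exact hne (hb.trans hb'.symm)
    · rw [hb] at h4; rw [hb'] at h5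
      have := hsep _ h5 _ h4
      rw [abs_sub_comm] at this
      linarith
    · rw [hb] at h4; rw [hb'] at h5
      have := hsep _ h4 _ h5
      linarith
    · exact hne (hb.trans hb'.symm)
  have hcard := Fintype.card_le_of_injective y hinj
  simp only [Fintype.card_fun, Fintype.card_bool, Fintype.card_fin, Fintype.card_coe] at hcard
  have h6 : (2 : ℝ) ^ m ≤ Real.exp (Real.log 2 / (2 * N) * ((N * m : ℕ) : ℝ)) := by
    refine le_trans ?_ hF1
    exact_mod_cast hcard
  have h7 : Real.log 2 / (2 * N) * ((N * m : ℕ) : ℝ) = Real.log 2 * (m / 2) := by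
    have : (N : ℝ) ≠ 0 := by positivity
    push_cast
    field_simp
  rw [h7, Real.exp_mul, Real.exp_log two_pos, ← Real.rpow_natCast,
    Real.rpow_le_rpow_left_iff one_lt_two] at h6
  have : (0 : ℝ) < m := by rw [hm]; positivity
  linarith

/-- A horseshoe gives positive entropy. -/
theorem not_ze_of_horseshoe {f : X → X} {u : X → ℝ} {N : ℕ} (hN : 0 < N) {ε : ℝ} (hε : 0 < ε)
    {U V : Set X} (hU : U.Nonempty) (hsep : ∀ x ∈ U, ∀ y ∈ V, ε ≤ |u x - u y|)
    (h11 : U ⊆ f^[N] '' U) (h12 : V ⊆ f^[N] '' U) (h21 : U ⊆ f^[N] '' V) (h22 : V ⊆ f^[N] '' V) :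
    ¬ ZE f u := by
  have hV : V.Nonempty := by
    obtain ⟨x, hx⟩ := hU
    obtain ⟨y, hy, -⟩ := h21 hx
    exact ⟨y, hy⟩
  refine not_ze_of_indep hN hε (fun b => if b then U else V) (by simpa using hsep) ?_
  have key : ∀ (m : ℕ) (w : ℕ → Bool), ∃ x ∈ (if w 0 then U else V),
      ∀ j ≤ m, f^[N * j] x ∈ (if w j then U else V) := by
    intro m
    induction m with
    | zero =>
      intro w
      rcases hb : w 0 with _ | _
      · obtain ⟨x, hx⟩ := hV
        refine ⟨x, by simpa [hb] using hx, fun j hj => ?_⟩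
        obtain rfl : j = 0 := by omega
        simpa [hb] using hx
      · obtain ⟨x, hx⟩ := hU
        refine ⟨x, by simpa [hb] using hx, fun j hj => ?_⟩
        obtain rfl : j = 0 := by omega
        simpa [hb] using hx
    | succ m ih =>
      intro w
      obtain ⟨y, hy, hyj⟩ := ih (fun j => w (j + 1))
      have h1 : ∃ x ∈ (if w 0 then U else V), f^[N] x = y := by
        rcases hb : w 0 with _ | _ <;> rcases hb' : w 1 with _ | _ <;>
          simp only [zero_add, hb', if_true, if_false, Bool.false_eq_true] at hy ⊢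
        · exact h22 hy
        · exact h21 hy
        · exact h12 hy
        · exact h11 hy
      obtain ⟨x, hx, rfl⟩ := h1
      refine ⟨x, hx, fun j hj => ?_⟩
      rcases j with _ | j
      · simpa using hx
      · have := hyj j (by omega)
        rw [← Function.iterate_add_apply] at this
        rw [show N * (j + 1) = N * j + N by ring]
        exact this
  intro m w
  obtain ⟨x, -, hx⟩ := key m w
  exact ⟨x, fun j hj => hx j hj.le⟩

theorem linear_le_exp {δ : ℝ} (hδ : 0 < δ) (K : ℝ) :
    ∀ᶠ n : ℕ in atTop, K * n + 1 ≤ Real.exp (δ * n) := by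
  have h1 : Tendsto (fun x : ℝ => Real.exp x / x ^ 1) atTop atTop := Real.tendsto_exp_div_pow_atTop 1
  have h2 : Tendsto (fun n : ℕ => δ * (n : ℝ)) atTop atTop :=
    tendsto_natCast_atTop_atTop.const_mul_atTop hδ
  have h3 := (h1.comp h2).eventually_ge_atTop ((|K| + 1) / δ)
  filter_upwards [h3, eventually_ge_atTop 1] with n hn hn1
  have hn1' : (1 : ℝ) ≤ n := by exact_mod_cast hn1
  simp only [comp_apply, pow_one] at hn
  have hpos : 0 < δ * n := by positivity
  rw [le_div_iff₀ hpos] at hn
  have h4 : (|K| + 1) / δ * (δ * n) = (|K| + 1) * n := by field_simp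
  rw [h4] at hn
  have := le_abs_self K
  nlinarith

/-- An observable supported on a wandering set has zero entropy. -/
theorem ze_of_wandering {f : X → X} {u : X → ℝ} {O : Set X}
    (hO : ∀ x ∈ O, ∀ n, 0 < n → f^[n] x ∉ O) (hu0 : ∀ x, x ∉ O → u x = 0)
    (hu1 : ∀ x, 0 ≤ u x) (hu2 : ∀ x, u x ≤ 1) : ZE f u := by
  classical
  intro ε hε δ hδ
  obtain ⟨K, hK⟩ := exists_nat_gt (1 / ε)
  filter_upwards [linear_le_exp hδ (K + 1)] with n hn
  -- classes
  let P : Option (Fin n × Fin (K + 1)) → X → Prop := fun c x =>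
    match c with
    | none => ∀ i < n, f^[i] x ∉ O
    | some (i, k) => f^[i] x ∈ O ∧ ⌊u (f^[i] x) * K⌋₊ = k
  have hcl : ∀ x, ∃ c, P c x := by
    intro x
    by_cases h : ∀ i < n, f^[i] x ∉ O
    · exact ⟨none, h⟩
    · push Not at h
      obtain ⟨i, hi, hx⟩ := h
      refine ⟨some (⟨i, hi⟩, ⟨⌊u (f^[i] x) * K⌋₊, ?_⟩), hx, rfl⟩
      have h1 : u (f^[i] x) * K ≤ K := by
        have := hu2 (f^[i] x)
        have hK0 : (0 : ℝ) ≤ K := by positivity
        nlinarith
      have := Nat.floor_le_of_le h1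
      omega
  have hnear : ∀ c x y, P c x → P c y → Near f u n ε x y := by
    intro c x y hx hy i hi
    rcases c with _ | ⟨i₀, k⟩
    · rw [hu0 _ (hx i hi), hu0 _ (hy i hi)]; simpa using hε
    · obtain ⟨hx1, hx2⟩ := hx
      obtain ⟨hy1, hy2⟩ := hy
      by_cases hii : i = i₀
      · subst hii
        have hK0 : (0 : ℝ) < K := lt_trans (by positivity) hK
        have e1 := Nat.floor_le (mul_nonneg (hu1 (f^[i₀] x)) hK0.le)
        have e2 := Nat.lt_floor_add_one (u (f^[i₀] x) * K)
        have e3 := Nat.floor_le (mul_nonneg (hu1 (f^[i₀] y)) hK0.le)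
        have e4 := Nat.lt_floor_add_one (u (f^[i₀] y) * K)
        rw [hx2] at e1 e2
        rw [hy2] at e3 e4
        have h5 : 1 < K * ε := by
          rw [div_lt_iff₀ hε] at hK
          exact hK
        rw [abs_lt]
        constructor
        · by_contra hcon
          push Not at hcon
          nlinarith
        · by_contra hcon
          push Not at hcon
          nlinarith
      · have hz : ∀ z, f^[(i₀ : ℕ)] z ∈ O → f^[i] z ∉ O := by
          intro z hz hz'
          rcases lt_or_gt_of_ne hii with hlt | hgt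
          · apply hO _ hz' (i₀ - i) (by omega)
            rw [← Function.iterate_add_apply, Nat.sub_add_cancel hlt.le]
            exact hz
          · apply hO _ hz (i - i₀) (by omega)
            rw [← Function.iterate_add_apply, Nat.sub_add_cancel hgt.le]
            exact hz'
        rw [hu0 _ (hz x hx1), hu0 _ (hz y hy1)]
        simpa using hε
  choose c hc using hcl
  by_cases hne : Nonempty X
  swap
  · exact ⟨∅, by simpa using (Real.exp_pos _).le, fun x => (hne ⟨x⟩).elim⟩
  obtain ⟨x₀⟩ := hne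
  let rep : Option (Fin n × Fin (K + 1)) → X := fun c =>
    if h : ∃ x, P c x then h.choose else x₀
  refine ⟨Finset.univ.image rep, ?_, ?_⟩
  · have h1 : (Finset.univ.image rep).card ≤ n * (K + 1) + 1 := by
      refine Finset.card_image_le.trans ?_
      simp [Finset.card_univ, Fintype.card_option, Fintype.card_prod]
    have h2 : ((Finset.univ.image rep).card : ℝ) ≤ n * (K + 1) + 1 := by exact_mod_cast h1
    refine h2.trans (le_trans (le_of_eq ?_) hn)
    ring
  · intro x
    refine ⟨rep (c x), Finset.mem_image_of_mem _ (Finset.mem_univ _), ?_⟩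
    have hex : ∃ z, P (c x) z := ⟨x, hc x⟩
    apply hnear (c x) _ _ (hc x)
    simp only [rep, dif_pos hex]
    exact hex.choose_spec

end

section
variable {X : Type} [MetricSpace X] [CompactSpace X]

/-- Observables invariant under a power have zero entropy. -/
theorem ze_of_invariant {f : X → X} (hf : Continuous f) {u : X → ℝ} (hu : Continuous u)
    {N : ℕ} (hN : 0 < N) (hinv : ∀ x, u (f^[N] x) = u x) : ZE f u := by
  apply ze_of_equi
  intro ε hε
  have hinv' : ∀ (k : ℕ) x, u (f^[N * k] x) = u x := by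
    intro k
    induction k with
    | zero => intro x; simp
    | succ k ih =>
      intro x
      rw [Nat.mul_succ, Function.iterate_add_apply, ih, hinv]
  have hmod : ∀ (i : ℕ) x, u (f^[i] x) = u (f^[i % N] x) := by
    intro i x
    conv_lhs => rw [← Nat.div_add_mod i N, Function.iterate_add_apply, hinv']
  let Φ : X → (Fin N → ℝ) := fun x j => u (f^[j] x)
  have hΦ : Continuous Φ := continuous_pi fun j => hu.comp (hf.iterate j)
  obtain ⟨t, -, ht⟩ := isCompact_univ.elim_nhds_subcover
    (fun x => Φ ⁻¹' Metric.ball (Φ x) ε)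
    (fun x _ => hΦ.continuousAt.preimage_mem_nhds (Metric.ball_mem_nhds _ hε))
  refine ⟨t, fun x => ?_⟩
  have := ht (mem_univ x)
  simp only [mem_iUnion, mem_preimage] at this
  obtain ⟨y, hy, hxy⟩ := this
  refine ⟨y, hy, fun i => ?_⟩
  rw [hmod i x, hmod i y]
  have h1 := (dist_pi_lt_iff hε).1 (Metric.mem_ball.1 hxy) ⟨i % N, Nat.mod_lt _ hN⟩
  simpa [Φ, Real.dist_eq] using h1

theorem cpe_not_invariant {f : X → X} (hf : Continuous f) (hcpe : IsCPE f) {u : X → ℝ}
    (hu : Continuous u) {N : ℕ} (hN : 0 < N) (hinv : ∀ x, u (f^[N] x) = u x) (x y : X) :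
    u x = u y := by
  by_contra hne
  exact (isCPE_iff hf).1 hcpe u hu ⟨x, y, hne⟩ (ze_of_invariant hf hu hN hinv)

/-- Maps with completely positive entropy have no wandering points. -/
theorem cpe_nonwandering {f : X → X} (hf : Continuous f) (hcpe : IsCPE f) {O : Set X}
    (hO : IsOpen O) (hne : O.Nonempty) : ∃ x ∈ O, ∃ n, 0 < n ∧ f^[n] x ∈ O := by
  by_contra hcon
  push Not at hcon
  obtain ⟨x₀, hx₀⟩ := hne
  have hc : (Oᶜ).Nonempty := ⟨f^[1] x₀, hcon x₀ hx₀ 1 one_pos⟩
  refine (isCPE_iff hf).1 hcpe (fun x => min 1 (Metric.infDist x Oᶜ))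
    (continuous_const.min (Metric.continuous_infDist_pt _)) ?_ (ze_of_wandering (O := O) ?_ ?_ ?_ ?_)
  · obtain ⟨z, hz⟩ := hc
    refine ⟨x₀, z, ?_⟩
    have h1 : Metric.infDist z Oᶜ = 0 := Metric.infDist_zero_of_mem hz
    have h2 : 0 < Metric.infDist x₀ Oᶜ := by
      rw [← hO.isClosed_compl.notMem_iff_infDist_pos ⟨z, hz⟩]
      simpa using hx₀
    simp only [h1]
    have : 0 < min 1 (Metric.infDist x₀ Oᶜ) := lt_min one_pos h2
    intro heq
    rw [heq] at this
    simp at this
  · intro x hx n hn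
    exact hcon x hx n hn
  · intro x hx
    have : Metric.infDist x Oᶜ = 0 := Metric.infDist_zero_of_mem hx
    simp [this]
  · intro x
    exact le_min zero_le_one Metric.infDist_nonneg
  · intro x
    exact min_le_left _ _

end

end Pool.Agent.Lib.MP_1073f4_an.OneDim
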