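import Mathlib

set_option autoImplicit false
open Filter Topology Set Function

namespace Pool.Agent.Lib.MP_1073f4_an.OneDim

theorem exists_nat_mul_add_int {ρ : ℝ} (hρ : Irrational ρ) {a b : ℝ} (hab : a < b) :
    ∃ (n : ℕ) (k : ℤ), a < n * ρ + k ∧ n * ρ + k < b := by
  have : Fact ((0 : ℝ) < 1) := ⟨one_pos⟩
  have h1 : DenseRange (fun n : ℤ => n • (ρ : AddCircle (1 : ℝ))) :=
    AddCircle.denseRange_zsmul_coe_iff.2 (by simpa using hρ)
  have h2 : DenseRange (fun n : ℕ => n • (ρ : AddCircle (1 : ℝ))) :=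
    denseRange_zsmul_iff_nsmul.1 h1
  have hopen : IsOpen ((fun x : ℝ => (x : AddCircle (1 : ℝ))) '' Ioo a b) :=
    QuotientAddGroup.isOpenMap_coe _ isOpen_Ioo
  obtain ⟨n, t, ht, htn⟩ := h2.exists_mem_open hopen ((nonempty_Ioo.2 hab).image _)
  have h3 : (t : AddCircle (1 : ℝ)) = ((n * ρ : ℝ) : AddCircle (1 : ℝ)) := by
    rw [show ((t : ℝ) : AddCircle (1 : ℝ)) = n • (ρ : AddCircle (1 : ℝ)) from htn]
    rw [← AddCircle.coe_nsmul]
    simp
  have h4 : ((t - n * ρ : ℝ) : AddCircle (1 : ℝ)) = 0 := by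
    rw [AddCircle.coe_sub, h3, sub_self]
  obtain ⟨k, hk⟩ := (AddCircle.coe_eq_zero_iff 1).1 h4
  simp only [zsmul_eq_mul, mul_one] at hk
  have h5 : n * ρ + k = t := by rw [hk]; ring
  exact ⟨n, k, by rw [h5]; exact ht.1, by rw [h5]; exact ht.2⟩

section
variable {F : ℝ → ℝ}

theorem map_add_int' {D : ℤ} (h1 : ∀ x, F (x + 1) = F x + D) (x : ℝ) (k : ℤ) :
    F (x + k) = F x + k * D := by
  induction k using Int.induction_on with
  | zero => simp
  | succ k ih =>
    push_cast at ih ⊢
    rw [← add_assoc, h1, ih]; ring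
  | pred k ih =>
    push_cast at ih ⊢
    have := h1 (x + (-k - 1))
    rw [show x + (-(k : ℝ) - 1) + 1 = x + -k by ring, ih] at this
    linarith

theorem map_add_int_one (h1 : ∀ x, F (x + 1) = F x + 1) (x : ℝ) (k : ℤ) :
    F (x + k) = F x + k := by
  have := map_add_int' (D := 1) (by simpa using h1) x k
  simpa using this

/-- The largest nondecreasing minorant. -/
noncomputable def low (F : ℝ → ℝ) (x : ℝ) : ℝ := sInf (F '' Icc x (x + 1))

theorem low_mem (hF : Continuous F) (x : ℝ) : ∃ s ∈ Icc x (x + 1), F s = low F x := by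
  have h := (isCompact_Icc.image hF).sInf_mem ((nonempty_Icc.2 (by linarith : x ≤ x + 1)).image F)
  exact h

theorem low_le (hF : Continuous F) (h1 : ∀ x, F (x + 1) = F x + 1) {x y : ℝ} (hxy : x ≤ y) :
    low F x ≤ F y := by
  have hbdd : BddBelow (F '' Icc x (x + 1)) := (isCompact_Icc.image hF).bddBelow
  have h2 := Int.floor_le (y - x)
  have h3 := Int.lt_floor_add_one (y - x)
  have h4 : (0 : ℝ) ≤ ⌊y - x⌋ := by
    exact_mod_cast Int.floor_nonneg.2 (sub_nonneg.2 hxy)
  have h5 : low F x ≤ F (y - ⌊y - x⌋) :=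
    csInf_le hbdd ⟨_, ⟨by linarith, by linarith⟩, rfl⟩
  have h6 : F y = F (y - ⌊y - x⌋) + ⌊y - x⌋ := by
    rw [← map_add_int_one h1, sub_add_cancel]
  linarith

theorem low_monotone (hF : Continuous F) (h1 : ∀ x, F (x + 1) = F x + 1) : Monotone (low F) := by
  intro x y hxy
  obtain ⟨s, hs, hsy⟩ := low_mem hF y
  rw [← hsy]
  exact low_le hF h1 (hxy.trans hs.1)

theorem low_add_one (hF : Continuous F) (h1 : ∀ x, F (x + 1) = F x + 1) (x : ℝ) :
    low F (x + 1) = low F x + 1 := by
  apply le_antisymm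
  · obtain ⟨s, hs, hsx⟩ := low_mem hF x
    rw [← hsx, ← h1]
    exact low_le hF h1 (by linarith [hs.1])
  · obtain ⟨s, hs, hsx⟩ := low_mem hF (x + 1)
    rw [← hsx]
    have h2 := h1 (s - 1)
    rw [sub_add_cancel] at h2
    have h3 := low_le hF h1 (x := x) (y := s - 1) (by linarith [hs.1])
    linarith

/-- The minorant as a degree one monotone map. -/
noncomputable def lowLift (hF : Continuous F) (h1 : ∀ x, F (x + 1) = F x + 1) : CircleDeg1Lift :=
  ⟨⟨low F, low_monotone hF h1⟩, low_add_one hF h1⟩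

theorem dist_bound (hF : Continuous F) (h1 : ∀ x, F (x + 1) = F x + 1) :
    ∃ C, ∀ x, |F x - x| ≤ C := by
  obtain ⟨C, hC⟩ := (isCompact_Icc (a := (0 : ℝ)) (b := 1)).exists_bound_of_continuousOn
    (f := fun x => F x - x) (hF.sub continuous_id).continuousOn
  refine ⟨C, fun x => ?_⟩
  have h2 := hC (Int.fract x) ⟨Int.fract_nonneg x, (Int.fract_lt_one x).le⟩
  have h3 : F x = F (Int.fract x) + ⌊x⌋ := by
    rw [← map_add_int_one h1, Int.fract_add_floor]
  rw [Real.norm_eq_abs] at h2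
  have h4 : F x - x = F (Int.fract x) - Int.fract x := by
    rw [h3]; have := Int.fract_add_floor x; linarith
  rw [h4]; exact h2

theorem low_surjective (hF : Continuous F) (h1 : ∀ x, F (x + 1) = F x + 1) :
    Function.Surjective (low F) := by
  intro y
  obtain ⟨C, hC⟩ := dist_bound hF h1
  set S : Set ℝ := {t | F t ≤ y} with hS
  have hSc : IsClosed S := isClosed_le hF continuous_const
  have hne : S.Nonempty := ⟨y - C, by
    have := abs_le.1 (hC (y - C))
    simp only [hS, mem_ofPred_eq]; linarith [this.2]⟩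
  have hbdd : BddAbove S := ⟨y + C, fun t ht => by
    have := abs_le.1 (hC t)
    simp only [hS, mem_ofPred_eq] at ht; linarith [this.1]⟩
  have hmem : sSup S ∈ S := hSc.csSup_mem hne hbdd
  have hgt : ∀ t, sSup S < t → y < F t := by
    intro t ht
    by_contra hle
    exact absurd (le_csSup hbdd (show t ∈ S from not_lt.1 hle)) (not_le.2 ht)
  have hge : ∀ t, sSup S ≤ t → y ≤ F t := by
    intro t ht
    have h2 : closure (Ioi (sSup S)) ⊆ F ⁻¹' Ici y :=
      closure_minimal (fun t ht => (hgt t ht).le) (isClosed_Ici.preimage hF)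
    rw [closure_Ioi] at h2
    exact h2 ht
  refine ⟨sSup S, le_antisymm ((low_le hF h1 le_rfl).trans hmem) ?_⟩
  obtain ⟨s, hs, hsx⟩ := low_mem hF (sSup S)
  rw [← hsx]
  exact hge s hs.1

theorem low_continuous (hF : Continuous F) (h1 : ∀ x, F (x + 1) = F x + 1) :
    Continuous (low F) :=
  (low_monotone hF h1).continuous_of_surjective (low_surjective hF h1)

theorem iterate_add_one (h1 : ∀ x, F (x + 1) = F x + 1) (n : ℕ) (x : ℝ) :
    F^[n] (x + 1) = F^[n] x + 1 := by
  induction n generalizing x with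
  | zero => rfl
  | succ n ih => rw [Function.iterate_succ_apply, h1, ih, ← Function.iterate_succ_apply]

theorem low_iterate (hF : Continuous F) (h1 : ∀ x, F (x + 1) = F x + 1) (n : ℕ) (x : ℝ) :
    ∃ s, x ≤ s ∧ (low F)^[n] x = F^[n] s := by
  induction n with
  | zero => exact ⟨x, le_rfl, rfl⟩
  | succ n ih =>
    obtain ⟨s, hs, hsx⟩ := ih
    rw [Function.iterate_succ_apply', hsx]
    obtain ⟨w, hw, hww⟩ := low_mem hF (F^[n] s)
    have h2 := intermediate_value_Icc (a := s) (b := s + 1) (by linarith)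
      (hF.iterate n).continuousOn
    rw [iterate_add_one h1] at h2
    obtain ⟨s', hs', hs'w⟩ := h2 hw
    refine ⟨s', hs.trans hs'.1, ?_⟩
    rw [← hww, Function.iterate_succ_apply', hs'w]

theorem low_iterate_le (hF : Continuous F) (h1 : ∀ x, F (x + 1) = F x + 1) (n : ℕ) (x : ℝ) :
    (low F)^[n] x ≤ F^[n] x := by
  induction n with
  | zero => exact le_rfl
  | succ n ih =>
    rw [Function.iterate_succ_apply', Function.iterate_succ_apply']
    exact (low_monotone hF h1 ih).trans (low_le hF h1 le_rfl)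

theorem sign_const {g : ℝ → ℝ} (hg : Continuous g) {c : ℝ} (hne : ∀ x, g x ≠ x + c) :
    (∀ x, g x < x + c) ∨ (∀ x, x + c < g x) := by
  by_contra hcon
  push Not at hcon
  obtain ⟨⟨x, hx⟩, y, hy⟩ := hcon
  have h2 : (0 : ℝ) ∈ Icc (g y - (y + c)) (g x - (x + c)) := ⟨by linarith, by linarith⟩
  obtain ⟨z, hz⟩ := mem_range_of_exists_le_of_exists_ge
    (f := fun x => g x - (x + c)) (hg.sub (continuous_id.add continuous_const))
    ⟨y, h2.1⟩ ⟨x, h2.2⟩
  exact hne z (by linarith [hz])

/-- A degree one circle map without periodic points factors onto an irrational rotation. -/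
theorem rot_factor (hF : Continuous F) (h1 : ∀ x, F (x + 1) = F x + 1)
    (hno : ∀ n, 0 < n → ∀ (k : ℤ) (x : ℝ), F^[n] x ≠ x + k) :
    ∃ (φ : ℝ → ℝ) (ρ : ℝ), Continuous φ ∧ (∀ x, φ (x + 1) = φ x + 1) ∧
      ∀ x, φ (F x) = φ x + ρ := by
  set A := lowLift hF h1 with hA
  have hAc : Continuous A := low_continuous hF h1
  have hAcoe : ∀ x, A x = low F x := fun _ => rfl
  have hAit : ∀ n : ℕ, (A : ℝ → ℝ)^[n] = (low F)^[n] := fun _ => rfl
  set ρ := CircleDeg1Lift.translationNumber A with hρ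
  -- powers of `A` have no fixed points modulo integers
  have hsgnF : ∀ n, 0 < n → ∀ k : ℤ, (∀ x, F^[n] x < x + k) ∨ (∀ x, x + k < F^[n] x) :=
    fun n hn k => sign_const (hF.iterate n) (hno n hn k)
  have hAlt : ∀ (n : ℕ) (k : ℤ), (∀ x, F^[n] x < x + k) → ∀ x, (low F)^[n] x < x + k :=
    fun n k h x => (low_iterate_le hF h1 n x).trans_lt (h x)
  have hAgt : ∀ (n : ℕ) (k : ℤ), (∀ x, x + k < F^[n] x) → ∀ x, x + k < (low F)^[n] x := by
    intro n k h x
    obtain ⟨s, hs, hsx⟩ := low_iterate hF h1 n x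
    rw [hsx]
    linarith [h s]
  have hAne : ∀ n, 0 < n → ∀ (k : ℤ) (x : ℝ), (low F)^[n] x ≠ x + k := by
    intro n hn k x
    rcases hsgnF n hn k with h | h
    · exact (hAlt n k h x).ne
    · exact (hAgt n k h x).ne'
  have hnk : ∀ n : ℕ, 0 < n → ∀ k : ℤ, (n : ℝ) * ρ ≠ k := by
    intro n hn k heq
    have hn' : (n : ℝ) ≠ 0 := by positivity
    have h2 : ρ = k / n := by field_simp; linarith
    obtain ⟨x, hx⟩ := (A.translationNumber_eq_rat_iff hAc hn).1 h2
    rw [CircleDeg1Lift.coe_pow] at hx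
    exact hAne n hn k x hx
  have hirr : Irrational ρ := by
    rintro ⟨r, hr⟩
    apply hnk r.den r.den_pos r.num
    rw [← hr]
    have := r.den_pos
    have h2 : (r : ℝ) = r.num / r.den := by exact_mod_cast (Rat.num_div_den r).symm
    rw [h2]
    field_simp
  -- comparison of orbits
  have hτ : ∀ r : ℕ, CircleDeg1Lift.translationNumber (A ^ r) = r * ρ :=
    fun r => A.translationNumber_pow r
  have hcmp1 : ∀ (r : ℕ) (k : ℤ) (y : ℝ), (r : ℝ) * ρ < k → (low F)^[r] y < y + k := by
    intro r k y h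
    have := (A ^ r).map_lt_of_translationNumber_lt_int (n := k) (by rw [hτ]; exact h) y
    rwa [CircleDeg1Lift.coe_pow] at this
  have hcmp2 : ∀ (r : ℕ) (k : ℤ) (y : ℝ), (k : ℝ) < r * ρ → y + k < (low F)^[r] y := by
    intro r k y h
    have := (A ^ r).lt_map_of_int_lt_translationNumber (n := k) (by rw [hτ]; exact h) y
    rwa [CircleDeg1Lift.coe_pow] at this
  have hord : ∀ (n m : ℕ) (k j : ℤ), (n : ℝ) * ρ + k < m * ρ + j →
      (low F)^[n] 0 + k < (low F)^[m] 0 + j := by
    intro n m k j h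
    rcases le_total n m with hnm | hnm
    · obtain ⟨r, rfl⟩ := Nat.exists_eq_add_of_le' hnm
      rw [Function.iterate_add_apply]
      have := hcmp2 r (k - j) ((low F)^[n] 0) (by push_cast at h ⊢; nlinarith)
      push_cast at this
      linarith
    · obtain ⟨r, rfl⟩ := Nat.exists_eq_add_of_le' hnm
      rw [Function.iterate_add_apply]
      have := hcmp1 r (j - k) ((low F)^[m] 0) (by push_cast at h ⊢; nlinarith)
      push_cast at this
      linarith
  have hord' : ∀ (n m : ℕ) (k j : ℤ), (low F)^[n] 0 + k ≤ (low F)^[m] 0 + j →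
      (n : ℝ) * ρ + k ≤ m * ρ + j := by
    intro n m k j h
    by_contra hlt
    exact absurd h (not_le.2 (hord m n j k (not_le.1 hlt)))
  -- the semiconjugacy
  let S : ℝ → Set ℝ := fun x => {v | ∃ (n : ℕ) (k : ℤ), v = n * ρ + k ∧ (low F)^[n] 0 + k ≤ x}
  have hSne : ∀ x, (S x).Nonempty := fun x => ⟨_, 0, ⌊x⌋, rfl, by
    simpa using Int.floor_le x⟩
  have hSb : ∀ x, BddAbove (S x) := by
    intro x
    refine ⟨(⌊x⌋ + 1 : ℤ), ?_⟩
    rintro v ⟨n, k, rfl, hv⟩
    have := hord' n 0 k (⌊x⌋ + 1) (by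
      have h2 := Int.lt_floor_add_one x
      push_cast
      simp only [Function.iterate_zero, id_eq, zero_add]
      linarith)
    simpa using this
  let φ : ℝ → ℝ := fun x => sSup (S x)
  have hφmono : Monotone φ := by
    intro x y hxy
    apply csSup_le_csSup (hSb y) (hSne x)
    rintro v ⟨n, k, rfl, hv⟩
    exact ⟨n, k, rfl, hv.trans hxy⟩
  have hφorb : ∀ (n : ℕ) (k : ℤ), φ ((low F)^[n] 0 + k) = n * ρ + k := by
    intro n k
    apply le_antisymm
    · apply csSup_le (hSne _)
      rintro v ⟨m, j, rfl, hv⟩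
      exact hord' m n j k hv
    · exact le_csSup (hSb _) ⟨n, k, rfl, le_rfl⟩
  have hφ1 : ∀ x, φ (x + 1) = φ x + 1 := by
    intro x
    apply le_antisymm
    · apply csSup_le (hSne _)
      rintro v ⟨n, k, rfl, hv⟩
      have : (n : ℝ) * ρ + ((k - 1 : ℤ) : ℝ) ≤ φ x :=
        le_csSup (hSb _) ⟨n, k - 1, rfl, by push_cast; linarith⟩
      push_cast at this
      linarith
    · rw [← le_sub_iff_add_le]
      apply csSup_le (hSne _)
      rintro v ⟨n, k, rfl, hv⟩
      have : (n : ℝ) * ρ + ((k + 1 : ℤ) : ℝ) ≤ φ (x + 1) :=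
        le_csSup (hSb _) ⟨n, k + 1, rfl, by push_cast; linarith⟩
      push_cast at this
      linarith
  have hlowint : ∀ x (k : ℤ), low F (x + k) = low F x + k :=
    fun x k => map_add_int_one (low_add_one hF h1) x k
  have hφA : ∀ x, φ (low F x) = φ x + ρ := by
    intro x
    apply le_antisymm
    · apply le_of_forall_pos_lt_add
      intro ε hε
      obtain ⟨n, k, hn1, hn2⟩ := exists_nat_mul_add_int hirr
        (show φ x < φ x + ε by linarith)
      have h2 := hφorb n k
      have h3 : x < (low F)^[n] 0 + k := by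
        by_contra hle
        have := hφmono (not_lt.1 hle)
        linarith
      have h4 := hφmono (low_monotone hF h1 h3.le)
      rw [hlowint, ← Function.iterate_succ_apply' (low F), hφorb] at h4
      push_cast at h4
      nlinarith
    · rw [← le_sub_iff_add_le]
      apply csSup_le (hSne _)
      rintro v ⟨n, k, rfl, hv⟩
      have h2 := low_monotone hF h1 hv
      rw [hlowint, ← Function.iterate_succ_apply' (low F)] at h2
      have h3 : ((n + 1 : ℕ) : ℝ) * ρ + k ≤ φ (low F x) := le_csSup (hSb _) ⟨n + 1, k, rfl, h2⟩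
      push_cast at h3
      linarith
  have hφc : Continuous φ := by
    apply hφmono.continuous_of_denseRange
    rw [DenseRange, dense_iff_exists_between]
    intro a b hab
    obtain ⟨n, k, hn1, hn2⟩ := exists_nat_mul_add_int hirr hab
    exact ⟨_, ⟨_, hφorb n k⟩, hn1, hn2⟩
  refine ⟨φ, ρ, hφc, hφ1, fun t => ?_⟩
  have hge : ∀ t, φ t + ρ ≤ φ (F t) := fun t => by
    rw [← hφA]; exact hφmono (low_le hF h1 le_rfl)
  by_contra hne
  have hgt : φ t + ρ < φ (F t) := lt_of_le_of_ne (hge t) (Ne.symm hne)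
  set δ := φ (F t) - (φ t + ρ) with hδ
  have hδ0 : 0 < δ := sub_pos.2 hgt
  obtain ⟨n, k, hn1, hn2⟩ := exists_nat_mul_add_int hirr
    (show - min δ 1 < 0 by have := lt_min hδ0 one_pos; linarith)
  have hn0 : 0 < n := by
    rcases Nat.eq_zero_or_pos n with rfl | h
    · exfalso
      have h2 := min_le_right δ 1
      have h3 : (-1 : ℝ) < k := by push_cast at hn1; linarith
      have h4 : (k : ℝ) < 0 := by push_cast at hn2; linarith
      have h5 : (-1 : ℤ) < k := by exact_mod_cast h3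
      have h6 : k < (0 : ℤ) := by exact_mod_cast h4
      omega
    · exact h
  have hiter : ∀ j : ℕ, φ (F t) + j * ρ ≤ φ (F^[j + 1] t) := by
    intro j
    induction j with
    | zero => simp
    | succ j ih =>
      rw [Function.iterate_succ_apply']
      have := hge (F^[j + 1] t)
      push_cast
      linarith
  obtain ⟨m, rfl⟩ : ∃ m, n = m + 1 := ⟨n - 1, by omega⟩
  have h2 := hiter m
  have h3 : φ (t + (-k : ℤ)) = φ t + (-k : ℤ) := map_add_int_one hφ1 t (-k)
  have h4 : t + (-k : ℤ) < F^[m + 1] t := by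
    by_contra hle
    have h5 := hφmono (not_lt.1 hle)
    rw [h3] at h5
    have h6 := min_le_left δ 1
    push_cast at h5 hn1
    linarith
  rcases hsgnF (m + 1) hn0 (-k) with h | h
  · exact absurd (h t) (not_lt.2 h4.le)
  · have h5 := hAgt (m + 1) (-k) h 0
    have h6 := hcmp1 (m + 1) (-k) 0 (by push_cast at hn2 ⊢; linarith)
    linarith

end

end Pool.Agent.Lib.MP_1073f4_an.OneDim
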