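import Mathlib

set_option autoImplicit false
open Filter Topology Set Function

namespace Pool.Agent.Lib.MP_1073f4_an.OneDim

section
variable {X : Type} [TopologicalSpace X]

/-- Every nonempty open subset of `G` returns to itself. -/
def NW (f : X → X) (G : Set X) : Prop :=
  ∀ O : Set X, O ⊆ G → IsOpen O → O.Nonempty → ∃ x ∈ O, ∃ n, 0 < n ∧ f^[n] x ∈ O

theorem NW.mono {f : X → X} {G G' : Set X} (h : NW f G) (hG : G' ⊆ G) : NW f G' :=
  fun O hO => h O (hO.trans hG)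

theorem NW.pow {f : X → X} (hf : Continuous f) {G : Set X} (h : NW f G) {N : ℕ} (hN : 0 < N) :
    NW (f^[N]) G := by
  classical
  intro O hOG hO hne
  have key : ∀ m : ℕ, ∃ O' : Set X, O' ⊆ O ∧ IsOpen O' ∧ O'.Nonempty ∧
      ∃ T : Finset ℕ, T.card = m + 1 ∧ ∀ x ∈ O', ∀ t ∈ T, f^[t] x ∈ O := by
    intro m
    induction m with
    | zero => exact ⟨O, Subset.rfl, hO, hne, {0}, by simp, by simp⟩
    | succ m ih =>
      obtain ⟨O', hO'O, hO', hne', T, hT, hTx⟩ := ih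
      obtain ⟨x, hx, n, hn, hxn⟩ := h O' (hO'O.trans hOG) hO' hne'
      refine ⟨O' ∩ f^[n] ⁻¹' O', inter_subset_left.trans hO'O,
        hO'.inter (hO'.preimage (hf.iterate n)), ⟨x, hx, hxn⟩,
        insert 0 (T.image (· + n)), ?_, ?_⟩
      · rw [Finset.card_insert_of_notMem, Finset.card_image_of_injective _
          (add_left_injective n), hT]
        simp only [Finset.mem_image, not_exists, not_and]
        intro t _
        omega
      · rintro y ⟨hy1, hy2⟩ t ht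
        rcases Finset.mem_insert.1 ht with rfl | ht
        · exact hO'O hy1
        · obtain ⟨s, hs, rfl⟩ := Finset.mem_image.1 ht
          rw [Function.iterate_add_apply]
          exact hTx _ hy2 s hs
  obtain ⟨O', -, -, ⟨x, hx⟩, T, hT, hTx⟩ := key N
  obtain ⟨s, hs, t, ht, hst, hmod⟩ := Finset.exists_ne_map_eq_of_card_lt_of_maps_to
    (s := T) (t := Finset.range N) (f := fun t => t % N) (by simp [hT])
    (fun t _ => by simpa using Nat.mod_lt t hN)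
  have aux : ∀ s ∈ T, ∀ t ∈ T, s < t → s % N = t % N →
      ∃ x ∈ O, ∃ n, 0 < n ∧ (f^[N])^[n] x ∈ O := by
    intro s hs t ht hlt hmod
    have hdvd : N ∣ t - s := (Nat.modEq_iff_dvd' hlt.le).1 hmod
    obtain ⟨k, hk⟩ := hdvd
    refine ⟨f^[s] x, hTx x hx s hs, k, ?_, ?_⟩
    · rcases Nat.eq_zero_or_pos k with rfl | hk'
      · simp at hk; omega
      · exact hk'
    · rw [← Function.iterate_mul, ← hk, ← Function.iterate_add_apply, Nat.sub_add_cancel hlt.le]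
      exact hTx x hx t ht
  rcases lt_or_gt_of_ne hst with hlt | hlt
  · exact aux s hs t ht hlt hmod
  · exact aux t ht s hs hlt hmod.symm

theorem NW.absorb {f : X → X} {G : Set X} (h : NW f G) {O A : Set X} (hOG : O ⊆ G)
    (hO : IsOpen O) (hne : O.Nonempty) (hA : MapsTo f A A) (hOA : MapsTo f O A) :
    (O ∩ A).Nonempty := by
  obtain ⟨x, hx, n, hn, hxn⟩ := h O hOG hO hne
  refine ⟨f^[n] x, hxn, ?_⟩
  obtain ⟨m, rfl⟩ : ∃ m, n = m + 1 := ⟨n - 1, by omega⟩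
  rw [Function.iterate_succ_apply]
  exact hA.iterate m (hOA hx)

end

/-! ### Interval maps -/

section
variable {h : ℝ → ℝ} {α β : ℝ}

theorem mapsTo_Icc_left (hc : Continuous h) (hK : MapsTo h (Icc α β) (Icc α β))
    (hnw : NW h (Ioo α β)) {c : ℝ} (hc1 : α < c) (hc2 : c ≤ β)
    (hR : MapsTo h (Icc c β) (Icc c β)) : MapsTo h (Icc α c) (Icc α c) := by
  have h1 : ∀ x ∈ Ioo α c, h x ≤ c := by
    intro x hx
    by_contra hcon
    push Not at hcon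
    have hO : IsOpen (Ioo α c ∩ h ⁻¹' Ioi c) := isOpen_Ioo.inter (isOpen_Ioi.preimage hc)
    obtain ⟨y, hy1, hy2⟩ := hnw.absorb (O := Ioo α c ∩ h ⁻¹' Ioi c) (A := Icc c β)
      (fun y hy => ⟨hy.1.1, hy.1.2.trans_le hc2⟩) hO ⟨x, hx, hcon⟩ hR
      (fun y hy => ⟨le_of_lt hy.2, (hK ⟨hy.1.1.le, hy.1.2.le.trans hc2⟩).2⟩)
    exact absurd hy2.1 (not_le.2 hy1.1.2)
  intro x hx
  refine ⟨(hK ⟨hx.1, hx.2.trans hc2⟩).1, ?_⟩
  have h2 : closure (Ioo α c) ⊆ h ⁻¹' Iic c :=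
    closure_minimal h1 (isClosed_Iic.preimage hc)
  rw [closure_Ioo hc1.ne] at h2
  exact h2 hx

theorem mapsTo_Icc_right (hc : Continuous h) (hK : MapsTo h (Icc α β) (Icc α β))
    (hnw : NW h (Ioo α β)) {c : ℝ} (hc1 : α ≤ c) (hc2 : c < β)
    (hL : MapsTo h (Icc α c) (Icc α c)) : MapsTo h (Icc c β) (Icc c β) := by
  have h1 : ∀ x ∈ Ioo c β, c ≤ h x := by
    intro x hx
    by_contra hcon
    push Not at hcon
    have hO : IsOpen (Ioo c β ∩ h ⁻¹' Iio c) := isOpen_Ioo.inter (isOpen_Iio.preimage hc)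
    obtain ⟨y, hy1, hy2⟩ := hnw.absorb (O := Ioo c β ∩ h ⁻¹' Iio c) (A := Icc α c)
      (fun y hy => ⟨hc1.trans_lt hy.1.1, hy.1.2⟩) hO ⟨x, hx, hcon⟩ hL
      (fun y hy => ⟨(hK ⟨hc1.trans hy.1.1.le, hy.1.2.le⟩).1, le_of_lt hy.2⟩)
    exact absurd hy2.2 (not_le.2 hy1.1.1)
  intro x hx
  refine ⟨?_, (hK ⟨hc1.trans hx.1, hx.2⟩).2⟩
  have h2 : closure (Ioo c β) ⊆ h ⁻¹' Ici c :=
    closure_minimal h1 (isClosed_Ici.preimage hc)
  rw [closure_Ioo hc2.ne] at h2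
  exact h2 hx

theorem mapsTo_Icc_union {g : ℝ → ℝ} {a b c : ℝ} (hab : a ≤ b) (hbc : b ≤ c)
    (h1 : MapsTo g (Icc a b) (Icc a b)) (h2 : MapsTo g (Icc b c) (Icc b c)) :
    MapsTo g (Icc a c) (Icc a c) := by
  intro x hx
  rcases le_total x b with hxb | hxb
  · exact ⟨(h1 ⟨hx.1, hxb⟩).1, (h1 ⟨hx.1, hxb⟩).2.trans hbc⟩
  · exact ⟨hab.trans (h2 ⟨hxb, hx.2⟩).1, (h2 ⟨hxb, hx.2⟩).2⟩

theorem mapsTo_Icc_inter {g : ℝ → ℝ} {a b c d : ℝ}
    (h1 : MapsTo g (Icc a c) (Icc a c)) (h2 : MapsTo g (Icc b d) (Icc b d)) (hab : a ≤ b)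
    (hcd : c ≤ d) : MapsTo g (Icc b c) (Icc b c) := by
  intro x hx
  exact ⟨(h2 ⟨hx.1, hx.2.trans hcd⟩).1, (h1 ⟨hab.trans hx.1, hx.2⟩).2⟩

/-- `c` cuts `[α, β]` into two parts, both invariant under some power of `h`. -/
def Cut (h : ℝ → ℝ) (α β c : ℝ) : Prop :=
  c ∈ Ioo α β ∧ ∃ n, 0 < n ∧ MapsTo h^[n] (Icc α c) (Icc α c) ∧ MapsTo h^[n] (Icc c β) (Icc c β)

theorem cut_of_left (hc : Continuous h) (hK : MapsTo h (Icc α β) (Icc α β))
    (hnw : NW h (Ioo α β)) {c : ℝ} (hcm : c ∈ Ioo α β) {n : ℕ} (hn : 0 < n)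
    (hL : MapsTo h^[n] (Icc α c) (Icc α c)) : Cut h α β c :=
  ⟨hcm, n, hn, hL, mapsTo_Icc_right (hc.iterate n) (hK.iterate n) (hnw.pow hc hn) hcm.1.le hcm.2 hL⟩

theorem cut_of_right (hc : Continuous h) (hK : MapsTo h (Icc α β) (Icc α β))
    (hnw : NW h (Ioo α β)) {c : ℝ} (hcm : c ∈ Ioo α β) {n : ℕ} (hn : 0 < n)
    (hR : MapsTo h^[n] (Icc c β) (Icc c β)) : Cut h α β c :=
  ⟨hcm, n, hn, mapsTo_Icc_left (hc.iterate n) (hK.iterate n) (hnw.pow hc hn) hcm.1 hcm.2.le hR, hR⟩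

theorem cut_of_middle (hc : Continuous h) (hK : MapsTo h (Icc α β) (Icc α β))
    (hnw : NW h (Ioo α β)) {c d : ℝ} (hαc : α < c) (hcd : c < d) (hdβ : d < β) {n : ℕ}
    (hn : 0 < n) (hI : MapsTo h^[n] (Icc c d) (Icc c d)) : Cut h α β c ∧ Cut h α β d := by
  set g := h^[n] with hg
  have hgc : Continuous g := hc.iterate n
  have hgK : MapsTo g (Icc α β) (Icc α β) := hK.iterate n
  have hgn : NW g (Ioo α β) := hnw.pow hc hn
  have hcm : c ∈ Ioo α β := ⟨hαc, hcd.trans hdβ⟩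
  have hdm : d ∈ Ioo α β := ⟨hαc.trans hcd, hdβ⟩
  -- generic: an open interval disjoint from `I` cannot enter the interior of `I`
  have hout : ∀ a b, Ioo a b ⊆ Ioo α β → (∀ x ∈ Ioo a b, x ∉ Icc c d) →
      ∀ x ∈ Ioo a b, g x ∉ Ioo c d := by
    intro a b hab hdis x hx hgx
    obtain ⟨y, hy1, hy2⟩ := hgn.absorb (O := Ioo a b ∩ g ⁻¹' Ioo c d) (A := Icc c d)
      (fun y hy => hab hy.1) (isOpen_Ioo.inter (isOpen_Ioo.preimage hgc)) ⟨x, hx, hgx⟩ hI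
      (fun y hy => Ioo_subset_Icc_self hy.2)
    exact hdis y hy1.1 hy2
  have hsplit : ∀ a b, Ioo a b ⊆ Ioo α β → (∀ x ∈ Ioo a b, x ∉ Icc c d) →
      (∀ x ∈ Ioo a b, g x ≤ c) ∨ (∀ x ∈ Ioo a b, d ≤ g x) := by
    intro a b hab hdis
    by_contra hcon
    push Not at hcon
    obtain ⟨⟨x, hx, hgx⟩, y, hy, hgy⟩ := hcon
    have hpre : IsPreconnected (g '' Ioo a b) := isPreconnected_Ioo.image g hgc.continuousOn
    have h1 := hout a b hab hdis
    have hx' : d ≤ g x := by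
      by_contra hlt
      exact h1 x hx ⟨hgx, not_le.1 hlt⟩
    have hy' : g y ≤ c := by
      by_contra hlt
      exact h1 y hy ⟨not_le.1 hlt, hgy⟩
    have := hpre.Icc_subset ⟨y, hy, rfl⟩ ⟨x, hx, rfl⟩
    obtain ⟨z, hz, hgz⟩ := this (show (c + d) / 2 ∈ Icc (g y) (g x) from
      ⟨by linarith, by linarith⟩)
    exact h1 z hz (by rw [hgz]; constructor <;> linarith)
  have hcl : ∀ a b : ℝ, a < b → ∀ S : Set ℝ, IsClosed S → (∀ x ∈ Ioo a b, g x ∈ S) →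
      ∀ x ∈ Icc a b, g x ∈ S := by
    intro a b hab S hS hx
    have h2 : closure (Ioo a b) ⊆ g ⁻¹' S := closure_minimal hx (hS.preimage hgc)
    rw [closure_Ioo hab.ne] at h2
    exact fun x hx => h2 hx
  rcases hsplit α c (Ioo_subset_Ioo_right (hcd.trans hdβ).le)
      (fun x hx hx' => absurd hx.2 (not_lt.2 hx'.1)) with hL | hL
  · have hLm : MapsTo g (Icc α c) (Icc α c) := fun x hx =>
      ⟨(hgK ⟨hx.1, hx.2.trans hcm.2.le⟩).1, hcl α c hαc (Iic c) isClosed_Iic hL x hx⟩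
    exact ⟨cut_of_left hc hK hnw hcm hn hLm, cut_of_left hc hK hnw hdm hn
      (mapsTo_Icc_union hαc.le hcd.le hLm hI)⟩
  · have hLd : ∀ x ∈ Icc α c, d ≤ g x := hcl α c hαc (Ici d) isClosed_Ici hL
    rcases hsplit d β (Ioo_subset_Ioo_left (hαc.trans hcd).le)
        (fun x hx hx' => absurd hx.1 (not_lt.2 hx'.2)) with hR | hR
    · have hRc : ∀ x ∈ Icc d β, g x ≤ c := hcl d β hdβ (Iic c) isClosed_Iic hR
      have hI2 : MapsTo h^[n + n] (Icc c d) (Icc c d) := by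
        rw [Function.iterate_add]; exact hI.comp hI
      have hL2 : MapsTo h^[n + n] (Icc α c) (Icc α c) := by
        rw [Function.iterate_add]
        intro x hx
        have h1 : g x ∈ Icc d β := ⟨hLd x hx, (hgK ⟨hx.1, hx.2.trans hcm.2.le⟩).2⟩
        exact ⟨(hgK ⟨(hαc.trans hcd).le.trans h1.1, h1.2⟩).1, hRc _ h1⟩
      exact ⟨cut_of_left hc hK hnw hcm (by omega) hL2, cut_of_left hc hK hnw hdm (by omega)
        (mapsTo_Icc_union hαc.le hcd.le hL2 hI2)⟩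
    · exfalso
      have hRm : MapsTo g (Icc d β) (Icc d β) := fun x hx =>
        ⟨hcl d β hdβ (Ici d) isClosed_Ici hR x hx,
          (hgK ⟨(hαc.trans hcd).le.trans hx.1, hx.2⟩).2⟩
      obtain ⟨y, hy1, hy2⟩ := hgn.absorb (O := Ioo α c) (A := Icc d β)
        (Ioo_subset_Ioo_right (hcd.trans hdβ).le) isOpen_Ioo (nonempty_Ioo.2 hαc) hRm
        (fun x hx => ⟨hL x hx, (hgK ⟨hx.1.le, hx.2.le.trans hcm.2.le⟩).2⟩)
      have := hy1.2
      have := hy2.1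
      linarith

/-- Uniform period of the cuts. -/
theorem cut_uniform (hc : Continuous h) (hK : MapsTo h (Icc α β) (Icc α β))
    (hnw : NW h (Ioo α β)) {c₁ : ℝ} (hcm : c₁ ∈ Ioo α β) {N : ℕ} (hN : 0 < N)
    (hL₁ : MapsTo h^[N] (Icc α c₁) (Icc α c₁)) (hR₁ : MapsTo h^[N] (Icc c₁ β) (Icc c₁ β))
    {c : ℝ} (hcut : Cut h α β c) :
    MapsTo h^[N] (Icc α c) (Icc α c) ∧ MapsTo h^[N] (Icc c β) (Icc c β) := by
  obtain ⟨hcm', n, hn, hL, hR⟩ := hcut
  set H := h^[N] with hH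
  have hHc : Continuous H := hc.iterate N
  have hHK : MapsTo H (Icc α β) (Icc α β) := hK.iterate N
  have hHn : NW H (Ioo α β) := hnw.pow hc hN
  have hfix : H c₁ = c₁ := le_antisymm (hL₁ ⟨hcm.1.le, le_rfl⟩).2 (hR₁ ⟨le_rfl, hcm.2.le⟩).1
  have hpowL : MapsTo (H^[n]) (Icc α c) (Icc α c) := by
    rw [hH, ← Function.iterate_mul, mul_comm, Function.iterate_mul]; exact hL.iterate N
  have hpowR : MapsTo (H^[n]) (Icc c β) (Icc c β) := by
    rw [hH, ← Function.iterate_mul, mul_comm, Function.iterate_mul]; exact hR.iterate N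
  -- no strict growth
  have hgrow : ∀ A : Set ℝ, A ⊆ H '' A → MapsTo (H^[n]) A A → MapsTo H A A := by
    intro A hA hAn
    have h1 : ∀ k, H '' A ⊆ H^[k + 1] '' A := by
      intro k
      induction k with
      | zero => simp
      | succ k ih =>
        calc H '' A ⊆ H^[k + 1] '' A := ih
          _ ⊆ H^[k + 1] '' (H '' A) := image_mono hA
          _ = H^[k + 1 + 1] '' A := by rw [← image_comp, ← Function.iterate_succ]
    intro x hx
    obtain ⟨y, hy, hxy⟩ := h1 (n - 1) ⟨x, hx, rfl⟩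
    rw [← hxy, Nat.sub_add_cancel hn]
    exact hAn hy
  rcases lt_trichotomy c c₁ with hlt | heq | hlt
  · have hA : MapsTo (H^[n]) (Icc c c₁) (Icc c c₁) :=
      mapsTo_Icc_inter (hL₁.iterate n) hpowR hcm'.1.le hcm.2.le
    have hHA : MapsTo H (Icc c c₁) (Icc c c₁) := by
      by_contra hcon
      have hex : ∃ x ∈ Icc c c₁, H x < c := by
        by_contra hno
        push Not at hno
        exact hcon fun x hx => ⟨hno x hx, (hL₁ ⟨hcm'.1.le.trans hx.1, hx.2⟩).2⟩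
      obtain ⟨x, hx, hxc⟩ := hex
      have hpre : IsPreconnected (H '' Icc c c₁) := isPreconnected_Icc.image H hHc.continuousOn
      have hsub := hpre.Icc_subset ⟨x, hx, rfl⟩ ⟨c₁, ⟨hlt.le, le_rfl⟩, hfix⟩
      exact hcon (hgrow _ ((Icc_subset_Icc_left hxc.le).trans hsub) hA)
    have hR2 : MapsTo H (Icc c β) (Icc c β) := mapsTo_Icc_union hlt.le hcm.2.le hHA hR₁
    exact ⟨mapsTo_Icc_left hHc hHK hHn hcm'.1 hcm'.2.le hR2, hR2⟩
  · subst heq; exact ⟨hL₁, hR₁⟩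
  · have hA : MapsTo (H^[n]) (Icc c₁ c) (Icc c₁ c) :=
      mapsTo_Icc_inter hpowL (hR₁.iterate n) hcm.1.le hcm'.2.le
    have hHA : MapsTo H (Icc c₁ c) (Icc c₁ c) := by
      by_contra hcon
      have hex : ∃ x ∈ Icc c₁ c, c < H x := by
        by_contra hno
        push Not at hno
        exact hcon fun x hx => ⟨(hR₁ ⟨hx.1, hx.2.trans hcm'.2.le⟩).1, hno x hx⟩
      obtain ⟨x, hx, hxc⟩ := hex
      have hpre : IsPreconnected (H '' Icc c₁ c) := isPreconnected_Icc.image H hHc.continuousOn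
      have hsub := hpre.Icc_subset ⟨c₁, ⟨le_rfl, hlt.le⟩, hfix⟩ ⟨x, hx, rfl⟩
      exact hcon (hgrow _ ((Icc_subset_Icc_right hxc.le).trans hsub) hA)
    have hL2 : MapsTo H (Icc α c) (Icc α c) := mapsTo_Icc_union hcm.1.le hlt.le hL₁ hHA
    exact ⟨hL2, mapsTo_Icc_right hHc hHK hHn hcm'.1.le hcm'.2 hL2⟩

end

end Pool.Agent.Lib.MP_1073f4_an.OneDim
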