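import Mathlib
import Pool.Agent.Lib.MP_1073f4_an.OneDim.NW

set_option autoImplicit false
open Filter Topology Set Function

namespace Pool.Agent.Lib.MP_1073f4_an.OneDim

section
variable {H : ℝ → ℝ} {p q : ℝ}

/-- Irreducibility: no proper closed subinterval is invariant under a power. -/
def Irred (H : ℝ → ℝ) (p q : ℝ) : Prop :=
  ∀ c d, c < d → Icc c d ⊆ Icc p q → ∀ n, 0 < n → MapsTo H^[n] (Icc c d) (Icc c d) →
    c = p ∧ d = q

theorem iterate_mul_comm' (H : ℝ → ℝ) (r j : ℕ) : H^[r * j] = (H^[r])^[j] := Function.iterate_mul H r j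

theorem expand (hc : Continuous H) (hK : MapsTo H (Icc p q) (Icc p q))
    (hirr : Irred H p q) {a b : ℝ} (hab : a < b) (hsub : Icc a b ⊆ Icc p q) {r : ℕ} (hr : 0 < r)
    (hret : ∃ x ∈ Icc a b, H^[r] x ∈ Icc a b) {y : ℝ} (hy : y ∈ Ioo p q) :
    ∃ j, y ∈ (H^[r])^[j] '' Icc a b := by
  set g := H^[r] with hg
  have hgc : Continuous g := hc.iterate r
  have hgK : MapsTo g (Icc p q) (Icc p q) := hK.iterate r
  set W : Set ℝ := ⋃ j : ℕ, g^[j] '' Icc a b with hW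
  have hWpre : IsPreconnected W := by
    apply IsPreconnected.iUnion_of_chain
    · intro j
      exact isPreconnected_Icc.image _ (hgc.iterate j).continuousOn
    · intro j
      obtain ⟨x, hx, hgx⟩ := hret
      refine ⟨g^[j] (g x), ⟨g x, hgx, rfl⟩, ⟨x, hx, ?_⟩⟩
      exact Function.iterate_succ_apply g j x
  have hWK : W ⊆ Icc p q := by
    rintro z hz
    obtain ⟨j, x, hx, rfl⟩ := mem_iUnion.1 hz
    exact hgK.iterate j (hsub hx)
  have hWne : W.Nonempty := ⟨a, mem_iUnion.2 ⟨0, a, ⟨le_rfl, hab.le⟩, rfl⟩⟩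
  have hWinv : MapsTo g W W := by
    rintro z hz
    obtain ⟨j, x, hx, rfl⟩ := mem_iUnion.1 hz
    exact mem_iUnion.2 ⟨j + 1, x, hx, Function.iterate_succ_apply' g j x⟩
  have hbb : BddBelow W := ⟨p, fun z hz => (hWK hz).1⟩
  have hba : BddAbove W := ⟨q, fun z hz => (hWK hz).2⟩
  have haW : a ∈ W := mem_iUnion.2 ⟨0, a, ⟨le_rfl, hab.le⟩, rfl⟩
  have hbW : b ∈ W := mem_iUnion.2 ⟨0, b, ⟨hab.le, le_rfl⟩, rfl⟩
  set c := sInf W with hcdef
  set d := sSup W with hddef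
  have hcd : c < d := lt_of_le_of_lt (csInf_le hbb haW) (hab.trans_le (le_csSup hba hbW))
  have hIoo : Ioo c d ⊆ W := (IsConnected.Ioo_csInf_csSup_subset ⟨hWne, hWpre⟩ hbb hba)
  have hWsub : W ⊆ Icc c d := fun z hz => ⟨csInf_le hbb hz, le_csSup hba hz⟩
  have hcp : p ≤ c := le_csInf hWne fun z hz => (hWK hz).1
  have hdq : d ≤ q := csSup_le hWne fun z hz => (hWK hz).2
  have hinv : MapsTo g (Icc c d) (Icc c d) := by
    have h1 : closure (Ioo c d) ⊆ g ⁻¹' Icc c d :=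
      closure_minimal (fun z hz => hWsub (hWinv (hIoo hz))) (isClosed_Icc.preimage hgc)
    rw [closure_Ioo hcd.ne] at h1
    exact h1
  obtain ⟨h1, h2⟩ := hirr c d hcd (Icc_subset_Icc hcp hdq) r hr hinv
  have : y ∈ W := hIoo (by rw [h1, h2]; exact hy)
  exact mem_iUnion.1 this

theorem exists_fixed_of_sign {g : ℝ → ℝ} (hg : Continuous g) {x z : ℝ} (h1 : x ≤ g x)
    (h2 : g z ≤ z) : ∃ w ∈ uIcc x z, g w = w := by
  have h3 : (0 : ℝ) ∈ uIcc (g x - x) (g z - z) := by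
    rw [mem_uIcc]; right; constructor <;> linarith
  obtain ⟨w, hw, hw0⟩ := intermediate_value_uIcc (a := x) (b := z) (f := fun w => g w - w)
    (hg.sub continuous_id).continuousOn h3
  exact ⟨w, hw, by simpa [sub_eq_zero] using hw0⟩

theorem periodic_dense (hc : Continuous H) (hK : MapsTo H (Icc p q) (Icc p q))
    (hnw : NW H (Ioo p q)) (hirr : Irred H p q) {a b : ℝ} (hab : a < b)
    (hsub : Icc a b ⊆ Icc p q) : ∃ x ∈ Icc a b, ∃ m, 0 < m ∧ H^[m] x = x := by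
  by_contra hcon
  push Not at hcon
  have hpa : p ≤ a := (hsub ⟨le_rfl, hab.le⟩).1
  have hbq : b ≤ q := (hsub ⟨hab.le, le_rfl⟩).2
  obtain ⟨x, hx, m, hm, hgx⟩ := hnw (Ioo a b) (Ioo_subset_Ioo hpa hbq) isOpen_Ioo
    (nonempty_Ioo.2 hab)
  set g := H^[m] with hg
  have hgc : Continuous g := hc.iterate m
  have hnoper : ∀ j, 0 < j → ∀ y ∈ Icc a b, g^[j] y ≠ y := by
    intro j hj y hy
    rw [hg, ← Function.iterate_mul]
    exact hcon y hy _ (Nat.mul_pos hm hj)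
  rcases lt_trichotomy x (g x) with hlt | heq | hlt
  · -- moves right
    have hsubI : Icc x (g x) ⊆ Icc a b := Icc_subset_Icc hx.1.le hgx.2.le
    have hright : ∀ j, x < g^[j + 1] x := by
      intro j
      induction j with
      | zero => simpa using hlt
      | succ j ih =>
        by_contra hle
        push Not at hle
        have h1 : g^[j + 1] (g x) ≤ g x := by
          rw [← Function.iterate_succ_apply]
          exact hle.trans hlt.le
        obtain ⟨w, hw, hw'⟩ := exists_fixed_of_sign (hgc.iterate (j + 1)) ih.le h1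
        rw [uIcc_of_le hlt.le] at hw
        exact hnoper (j + 1) (by omega) w (hsubI hw) hw'
    obtain ⟨j, z, hz, hjz⟩ := expand hc hK hirr hlt (hsubI.trans hsub) hm
      ⟨x, ⟨le_rfl, hlt.le⟩, ⟨hlt.le, le_rfl⟩⟩ (y := (a + x) / 2)
      ⟨by linarith [hx.1], by linarith [hx.2, hx.1]⟩
    have hjz' : g^[j] z = (a + x) / 2 := hjz
    rcases j with _ | j
    · simp only [Function.iterate_zero, id_eq] at hjz'
      have := hz.1
      linarith [hx.1]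
    · obtain ⟨w, hw, hw'⟩ := exists_fixed_of_sign (hgc.iterate (j + 1)) (hright j).le
        (z := z) (by rw [hjz']; linarith [hx.1, hz.1])
      rw [uIcc_of_le hz.1] at hw
      exact hnoper (j + 1) (by omega) w (hsubI ⟨hw.1, hw.2.trans hz.2⟩) hw'
  · exact hnoper 1 one_pos x (Ioo_subset_Icc_self hx) heq.symm
  · -- moves left
    have hsubI : Icc (g x) x ⊆ Icc a b := Icc_subset_Icc hgx.1.le hx.2.le
    have hleft : ∀ j, g^[j + 1] x < x := by
      intro j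
      induction j with
      | zero => simpa using hlt
      | succ j ih =>
        by_contra hle
        push Not at hle
        have h1 : g x ≤ g^[j + 1] (g x) := by
          rw [← Function.iterate_succ_apply]
          exact hlt.le.trans hle
        obtain ⟨w, hw, hw'⟩ := exists_fixed_of_sign (hgc.iterate (j + 1)) h1 ih.le
        rw [uIcc_of_le hlt.le] at hw
        exact hnoper (j + 1) (by omega) w (hsubI hw) hw'
    obtain ⟨j, z, hz, hjz⟩ := expand hc hK hirr hlt (hsubI.trans hsub) hm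
      ⟨x, ⟨hlt.le, le_rfl⟩, ⟨le_rfl, hlt.le⟩⟩ (y := (x + b) / 2)
      ⟨by linarith [hx.1, hx.2], by linarith [hx.2]⟩
    have hjz' : g^[j] z = (x + b) / 2 := hjz
    rcases j with _ | j
    · simp only [Function.iterate_zero, id_eq] at hjz'
      have := hz.2
      linarith [hx.2]
    · obtain ⟨w, hw, hw'⟩ := exists_fixed_of_sign (hgc.iterate (j + 1)) (x := z)
        (by rw [hjz']; linarith [hx.2, hz.2]) (hleft j).le
      rw [uIcc_of_le hz.2] at hw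
      exact hnoper (j + 1) (by omega) w (hsubI ⟨hz.1.trans hw.1, hw.2⟩) hw'

theorem horseshoe_of_irred (hc : Continuous H) (hK : MapsTo H (Icc p q) (Icc p q))
    (hnw : NW H (Ioo p q)) (hirr : Irred H p q) {a b : ℝ} (hpa : p < a) (hbq : b < q)
    {a₁ b₁ a₂ b₂ : ℝ} (h1 : a₁ < b₁) (h2 : a₂ < b₂) (hs1 : Icc a₁ b₁ ⊆ Icc a b)
    (hs2 : Icc a₂ b₂ ⊆ Icc a b) :
    ∃ m, 0 < m ∧ Icc a b ⊆ H^[m] '' Icc a₁ b₁ ∧ Icc a b ⊆ H^[m] '' Icc a₂ b₂ := by
  have hab : a < b := by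
    have e1 := (hs1 ⟨le_rfl, h1.le⟩).1
    have e2 := (hs1 ⟨h1.le, le_rfl⟩).2
    linarith
  have hKs1 : Icc a₁ b₁ ⊆ Icc p q := hs1.trans (Icc_subset_Icc hpa.le hbq.le)
  have hKs2 : Icc a₂ b₂ ⊆ Icc p q := hs2.trans (Icc_subset_Icc hpa.le hbq.le)
  obtain ⟨x₁, hx₁, m₁, hm₁, hf₁⟩ := periodic_dense hc hK hnw hirr (a := (p + a) / 2) (b := a)
    (by linarith) (Icc_subset_Icc (by linarith) (by linarith))
  obtain ⟨x₂, hx₂, m₂, hm₂, hf₂⟩ := periodic_dense hc hK hnw hirr (a := b) (b := (b + q) / 2)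
    (by linarith) (Icc_subset_Icc (by linarith) (by linarith))
  obtain ⟨y₁, hy₁, k₁, hk₁, hg₁⟩ := periodic_dense hc hK hnw hirr h1 hKs1
  obtain ⟨y₂, hy₂, k₂, hk₂, hg₂⟩ := periodic_dense hc hK hnw hirr h2 hKs2
  have hper : ∀ (x : ℝ) (m k : ℕ), H^[m] x = x → H^[m * k] x = x := by
    intro x m k hx
    rw [Function.iterate_mul]
    exact Function.iterate_fixed hx k
  set R := m₁ * m₂ * k₁ * k₂ with hR
  have hR0 : 0 < R := by positivity
  set T := H^[R] with hT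
  have hTc : Continuous T := hc.iterate R
  have hTx₁ : T x₁ = x₁ := by
    rw [hT, hR, mul_assoc, mul_assoc]; exact hper _ _ _ hf₁
  have hTx₂ : T x₂ = x₂ := by
    rw [hT, hR, show m₁ * m₂ * k₁ * k₂ = m₂ * (m₁ * k₁ * k₂) by ring]; exact hper _ _ _ hf₂
  have hTy₁ : T y₁ = y₁ := by
    rw [hT, hR, show m₁ * m₂ * k₁ * k₂ = k₁ * (m₁ * m₂ * k₂) by ring]; exact hper _ _ _ hg₁
  have hTy₂ : T y₂ = y₂ := by
    rw [hT, hR, show m₁ * m₂ * k₁ * k₂ = k₂ * (m₁ * m₂ * k₁) by ring]; exact hper _ _ _ hg₂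
  have hstay : ∀ (A : Set ℝ) (x : ℝ) (j j' : ℕ), T x = x → j ≤ j' → x ∈ T^[j] '' A →
      x ∈ T^[j'] '' A := by
    rintro A x j j' hx hjj ⟨z, hz, hzx⟩
    refine ⟨z, hz, ?_⟩
    obtain ⟨k, rfl⟩ := Nat.exists_eq_add_of_le' hjj
    rw [Function.iterate_add_apply, hzx]
    exact Function.iterate_fixed hx k
  have hx₁m : x₁ ∈ Ioo p q := ⟨by linarith [hx₁.1], by linarith [hx₁.2]⟩
  have hx₂m : x₂ ∈ Ioo p q := ⟨by linarith [hx₂.1], by linarith [hx₂.2]⟩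
  obtain ⟨j₁, hj₁⟩ := expand hc hK hirr h1 hKs1 hR0 ⟨y₁, hy₁, by rw [← hT, hTy₁]; exact hy₁⟩ hx₁m
  obtain ⟨j₂, hj₂⟩ := expand hc hK hirr h1 hKs1 hR0 ⟨y₁, hy₁, by rw [← hT, hTy₁]; exact hy₁⟩ hx₂m
  obtain ⟨j₃, hj₃⟩ := expand hc hK hirr h2 hKs2 hR0 ⟨y₂, hy₂, by rw [← hT, hTy₂]; exact hy₂⟩ hx₁m
  obtain ⟨j₄, hj₄⟩ := expand hc hK hirr h2 hKs2 hR0 ⟨y₂, hy₂, by rw [← hT, hTy₂]; exact hy₂⟩ hx₂m
  rw [← hT] at hj₁ hj₂ hj₃ hj₄
  obtain ⟨J, hJ1, hJ2, hJ3, hJ4, hJ0⟩ : ∃ J, j₁ ≤ J ∧ j₂ ≤ J ∧ j₃ ≤ J ∧ j₄ ≤ J ∧ 0 < J :=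
    ⟨j₁ + j₂ + j₃ + j₄ + 1, by omega, by omega, by omega, by omega, by omega⟩
  have hcov : ∀ A : Set ℝ, IsPreconnected A → x₁ ∈ T^[J] '' A → x₂ ∈ T^[J] '' A →
      Icc a b ⊆ T^[J] '' A := by
    intro A hA hA1 hA2
    have hpre : IsPreconnected (T^[J] '' A) := hA.image _ (hTc.iterate J).continuousOn
    exact (Icc_subset_Icc (by linarith [hx₁.2]) (by linarith [hx₂.1])).trans
      (hpre.Icc_subset hA1 hA2)
  refine ⟨R * J, Nat.mul_pos hR0 hJ0, ?_, ?_⟩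
  · rw [Function.iterate_mul, ← hT]
    exact hcov _ isPreconnected_Icc (hstay _ _ _ _ hTx₁ hJ1 hj₁) (hstay _ _ _ _ hTx₂ hJ2 hj₂)
  · rw [Function.iterate_mul, ← hT]
    exact hcov _ isPreconnected_Icc (hstay _ _ _ _ hTx₁ hJ3 hj₃) (hstay _ _ _ _ hTx₂ hJ4 hj₄)

end

end Pool.Agent.Lib.MP_1073f4_an.OneDim
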