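import Mathlib
import Pool.Agent.Lib.MP_1073f4_an.OneDim.Trans

set_option autoImplicit false
open Filter Topology Set Function

namespace Pool.Agent.Lib.MP_1073f4_an.OneDim

section
variable {h : ℝ → ℝ} {α β : ℝ}

theorem cut_endpoints (hc : Continuous h) (hK : MapsTo h (Icc α β) (Icc α β))
    (hnw : NW h (Ioo α β)) {c d : ℝ} (hαc : α ≤ c) (hcd : c < d) (hdβ : d ≤ β) {n : ℕ}
    (hn : 0 < n) (hI : MapsTo h^[n] (Icc c d) (Icc c d)) :
    (α < c → Cut h α β c) ∧ (d < β → Cut h α β d) := by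
  rcases hαc.lt_or_eq with h1 | h1 <;> rcases hdβ.lt_or_eq with h2 | h2
  · obtain ⟨e1, e2⟩ := cut_of_middle hc hK hnw h1 hcd h2 hn hI
    exact ⟨fun _ => e1, fun _ => e2⟩
  · subst h2
    exact ⟨fun _ => cut_of_right hc hK hnw ⟨h1, hcd⟩ hn hI, fun h => absurd h (lt_irrefl _)⟩
  · subst h1
    exact ⟨fun h => absurd h (lt_irrefl _), fun _ => cut_of_left hc hK hnw ⟨hcd, h2⟩ hn hI⟩
  · subst h1; subst h2
    exact ⟨fun h => absurd h (lt_irrefl _), fun h => absurd h (lt_irrefl _)⟩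

theorem exists_uniform (hc : Continuous h) (hK : MapsTo h (Icc α β) (Icc α β))
    (hnw : NW h (Ioo α β)) : ∃ N, 0 < N ∧ ∀ c, Cut h α β c →
      MapsTo h^[N] (Icc α c) (Icc α c) ∧ MapsTo h^[N] (Icc c β) (Icc c β) := by
  by_cases hne : ∃ c₁, Cut h α β c₁
  · obtain ⟨c₁, hcm, N, hN, hL, hR⟩ := hne
    exact ⟨N, hN, fun c hcut => cut_uniform hc hK hnw hcm hN hL hR hcut⟩
  · exact ⟨1, one_pos, fun c hcut => (hne ⟨c, hcut⟩).elim⟩

theorem contDiff_iterate (hd : ContDiff ℝ 1 h) (n : ℕ) : ContDiff ℝ 1 (h^[n]) := by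
  induction n with
  | zero => exact contDiff_id
  | succ n ih => rw [Function.iterate_succ]; exact ih.comp hd

theorem exists_identity (hd : ContDiff ℝ 1 h) (hK : MapsTo h (Icc α β) (Icc α β))
    (hnw : NW h (Ioo α β)) (hinf : {c | Cut h α β c}.Infinite) :
    ∃ e e' : ℝ, ∃ N, α < e ∧ e < e' ∧ e' < β ∧ 0 < N ∧ (∀ x ∈ Icc e e', h^[N] x = x) ∧
      MapsTo h^[N] (Icc α e) (Icc α e) ∧ MapsTo h^[N] (Icc e' β) (Icc e' β) := by
  have hc : Continuous h := hd.continuous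
  obtain ⟨N, hN, huni⟩ := exists_uniform hc hK hnw
  set H := h^[N] with hH
  have hHd : ContDiff ℝ 1 H := contDiff_iterate hd N
  have hHc : Continuous H := hHd.continuous
  have hfix : ∀ c, Cut h α β c → H c = c := fun c hcut =>
    le_antisymm ((huni c hcut).1 ⟨hcut.1.1.le, le_rfl⟩).2 ((huni c hcut).2 ⟨le_rfl, hcut.1.2.le⟩).1
  obtain ⟨p, hpK, hacc⟩ := hinf.exists_accPt_of_subset_isCompact (K := Icc α β) isCompact_Icc
    (fun c hcut => Ioo_subset_Icc_self hcut.1)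
  have hne : (𝓝[≠] p ⊓ 𝓟 {c | Cut h α β c}).NeBot := hacc
  -- `p` is fixed
  have hpfix : H p = p := by
    have h1 : Tendsto H (𝓝[≠] p ⊓ 𝓟 {c | Cut h α β c}) (𝓝 (H p)) :=
      (hHc.tendsto p).mono_left (inf_le_left.trans nhdsWithin_le_nhds)
    have h2 : Tendsto (fun x : ℝ => x) (𝓝[≠] p ⊓ 𝓟 {c | Cut h α β c}) (𝓝 p) :=
      tendsto_id.mono_left (inf_le_left.trans nhdsWithin_le_nhds)
    have h3 : H =ᶠ[𝓝[≠] p ⊓ 𝓟 {c | Cut h α β c}] (fun x => x) := by
      apply mem_inf_of_right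
      intro c hcut
      exact hfix c hcut
    exact tendsto_nhds_unique (h1.congr' h3) h2
  have hderiv : deriv H p = 1 := by
    have h1 := ((hHd.differentiable one_ne_zero) p).hasDerivAt.tendsto_slope
    have h2 : Tendsto (slope H p) (𝓝[≠] p ⊓ 𝓟 {c | Cut h α β c}) (𝓝 (deriv H p)) :=
      h1.mono_left inf_le_left
    have h3 : slope H p =ᶠ[𝓝[≠] p ⊓ 𝓟 {c | Cut h α β c}] (fun _ => 1) := by
      have e1 : ∀ᶠ c in 𝓝[≠] p ⊓ 𝓟 {c | Cut h α β c}, c ≠ p :=
        mem_inf_of_left self_mem_nhdsWithin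
      have e2 : ∀ᶠ c in 𝓝[≠] p ⊓ 𝓟 {c | Cut h α β c}, Cut h α β c :=
        mem_inf_of_right (mem_principal_self _)
      filter_upwards [e1, e2] with c hcp hcut
      rw [slope_def_field, hfix c hcut, hpfix, div_self (sub_ne_zero.2 hcp)]
    exact tendsto_nhds_unique (h2.congr' h3) tendsto_const_nhds |>.symm ▸ rfl
  have hdc : Continuous (deriv H) := hHd.continuous_deriv le_rfl
  have hpos : ∀ᶠ x in 𝓝 p, 0 < deriv H x := by
    apply hdc.continuousAt.eventually_mem (Ioi_mem_nhds _)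
    rw [hderiv]; exact one_pos
  obtain ⟨η, hη, hball⟩ := Metric.eventually_nhds_iff.1 hpos
  -- two cuts near `p`
  have hex : ∀ ρ > 0, ∃ c, Cut h α β c ∧ c ≠ p ∧ |c - p| < ρ := by
    intro ρ hρ
    have e0 : ∀ᶠ c in 𝓝[≠] p ⊓ 𝓟 {c | Cut h α β c}, |c - p| < ρ := by
      apply mem_inf_of_left
      apply mem_nhdsWithin_of_mem_nhds
      filter_upwards [Metric.ball_mem_nhds p hρ] with x hx
      simpa [Real.dist_eq] using hx
    have e1 : ∀ᶠ c in 𝓝[≠] p ⊓ 𝓟 {c | Cut h α β c}, c ≠ p :=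
      mem_inf_of_left self_mem_nhdsWithin
    have e2 : ∀ᶠ c in 𝓝[≠] p ⊓ 𝓟 {c | Cut h α β c}, Cut h α β c :=
      mem_inf_of_right (mem_principal_self _)
    obtain ⟨c, hc1, hc2, hc3⟩ := (e0.and (e1.and e2)).exists
    exact ⟨c, hc3, hc2, hc1⟩
  obtain ⟨c, hcut, hcp, hcη⟩ := hex η hη
  obtain ⟨c', hcut', hcp', hcη'⟩ := hex |c - p| (abs_pos.2 (sub_ne_zero.2 hcp))
  obtain ⟨e, e', he, he', hee, hηe, hηe'⟩ : ∃ e e', Cut h α β e ∧ Cut h α β e' ∧ e < e' ∧
      |e - p| < η ∧ |e' - p| < η := by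
    rcases lt_trichotomy c c' with hlt | heq | hlt
    · exact ⟨c, c', hcut, hcut', hlt, hcη, hcη'.trans hcη⟩
    · rw [heq] at hcη'; exact absurd hcη' (lt_irrefl _)
    · exact ⟨c', c, hcut', hcut, hlt, hcη'.trans hcη, hcη⟩
  have hmono : StrictMonoOn H (Icc e e') := by
    apply strictMonoOn_of_deriv_pos (convex_Icc e e') hHc.continuousOn
    intro x hx
    rw [interior_Icc] at hx
    apply hball
    rw [Real.dist_eq, abs_lt]
    rw [abs_lt] at hηe hηe'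
    constructor <;> linarith [hx.1, hx.2, hηe.1, hηe'.2]
  have hfe := hfix e he
  have hfe' := hfix e' he'
  have hHn : NW H (Ioo α β) := hnw.pow hc hN
  have hsub : Ioo e e' ⊆ Ioo α β := Ioo_subset_Ioo he.1.1.le he'.1.2.le
  have hHI : MapsTo H (Icc e e') (Icc e e') := fun x hx =>
    ⟨by rw [← hfe]; exact hmono.monotoneOn ⟨le_rfl, hee.le⟩ hx hx.1,
      by rw [← hfe']; exact hmono.monotoneOn hx ⟨hee.le, le_rfl⟩ hx.2⟩
  refine ⟨e, e', N, he.1.1, hee, he'.1.2, hN, ?_, (huni e he).1, (huni e' he').2⟩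
  intro x hx
  by_contra hne'
  rcases lt_or_gt_of_ne hne' with hlt | hlt
  · -- H x < x
    have hHx := hHI hx
    obtain ⟨y, hy1, hy2⟩ := hHn.absorb (O := Ioo (H x) x) (A := Icc e (H x))
      ((Ioo_subset_Ioo hHx.1 hx.2).trans hsub) isOpen_Ioo (nonempty_Ioo.2 hlt)
      (fun z hz => ⟨(hHI ⟨hz.1, hz.2.trans hHx.2⟩).1, by
        have := hmono.monotoneOn (a := z) (b := x) ⟨hz.1, hz.2.trans hHx.2⟩ hx
          (hz.2.trans hlt.le)
        exact this⟩)
      (fun z hz => ⟨(hHI ⟨hHx.1.trans hz.1.le, hz.2.le.trans hx.2⟩).1, by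
        have := hmono.monotoneOn (a := z) (b := x) ⟨hHx.1.trans hz.1.le, hz.2.le.trans hx.2⟩ hx
          hz.2.le
        exact this⟩)
    have := hy1.1
    have := hy2.2
    linarith
  · have hHx := hHI hx
    have hlt' : x < H x := hlt
    obtain ⟨y, hy1, hy2⟩ := hHn.absorb (O := Ioo x (H x)) (A := Icc (H x) e')
      ((Ioo_subset_Ioo hx.1 hHx.2).trans hsub) isOpen_Ioo (nonempty_Ioo.2 hlt')
      (fun z hz => ⟨by
        have := hmono.monotoneOn (a := x) (b := z) hx ⟨hHx.1.trans hz.1, hz.2⟩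
          (hlt'.le.trans hz.1)
        exact this, (hHI ⟨hHx.1.trans hz.1, hz.2⟩).2⟩)
      (fun z hz => ⟨by
        have := hmono.monotoneOn (a := x) (b := z) hx ⟨hx.1.trans hz.1.le, hz.2.le.trans hHx.2⟩
          hz.1.le
        exact this, (hHI ⟨hx.1.trans hz.1.le, hz.2.le.trans hHx.2⟩).2⟩)
    have := hy1.2
    have := hy2.1
    linarith

theorem horseshoe_of_finite_cut (hc : Continuous h) (hK : MapsTo h (Icc α β) (Icc α β))
    (hαβ : α < β) (hnw : NW h (Ioo α β)) (hfin : {c | Cut h α β c}.Finite) {a b : ℝ}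
    (hαa : α < a) (hbβ : b < β) (hno : ∀ c ∈ Icc a b, ¬ Cut h α β c)
    {a₁ b₁ a₂ b₂ : ℝ} (h1 : a₁ < b₁) (h2 : a₂ < b₂) (hs1 : Icc a₁ b₁ ⊆ Icc a b)
    (hs2 : Icc a₂ b₂ ⊆ Icc a b) :
    ∃ m, 0 < m ∧ Icc a b ⊆ h^[m] '' Icc a₁ b₁ ∧ Icc a b ⊆ h^[m] '' Icc a₂ b₂ := by
  classical
  have hab : a < b := by
    have e1 := (hs1 ⟨le_rfl, h1.le⟩).1
    have e2 := (hs1 ⟨h1.le, le_rfl⟩).2
    linarith
  obtain ⟨N, hN, huni⟩ := exists_uniform hc hK hnw
  set P : Finset ℝ := insert α (insert β hfin.toFinset) with hP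
  have hPmem : ∀ c, c ∈ P ↔ c = α ∨ c = β ∨ Cut h α β c := by
    intro c; simp [hP]
  have hP1 : (P.filter (· < a)).Nonempty := ⟨α, by simp [hPmem, hαa]⟩
  have hP2 : (P.filter (b < ·)).Nonempty := ⟨β, by simp [hPmem, hbβ]⟩
  set p := (P.filter (· < a)).max' hP1 with hp
  set q := (P.filter (b < ·)).min' hP2 with hq
  have hpm := Finset.max'_mem _ hP1
  have hqm := Finset.min'_mem _ hP2
  rw [← hp, Finset.mem_filter] at hpm
  rw [← hq, Finset.mem_filter] at hqm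
  have hpα : α ≤ p := Finset.le_max' _ _ (by simp [hPmem, hαa])
  have hqβ : q ≤ β := Finset.min'_le _ _ (by simp [hPmem, hbβ])
  have hpq : ∀ c ∈ P, c ∉ Ioo p q := by
    intro c hcP hcI
    by_cases hca : c < a
    · have := Finset.le_max' (P.filter (· < a)) c (by simp [hcP, hca])
      exact absurd hcI.1 (not_lt.2 this)
    · by_cases hcb : b < c
      · have := Finset.min'_le (P.filter (b < ·)) c (by simp [hcP, hcb])
        exact absurd hcI.2 (not_lt.2 this)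
      · push Not at hca hcb
        rcases (hPmem c).1 hcP with rfl | rfl | hcut
        · linarith
        · linarith
        · exact hno c ⟨hca, hcb⟩ hcut
  have hMR : MapsTo h^[N] (Icc p β) (Icc p β) := by
    rcases (hPmem p).1 hpm.1 with e | e | e
    · rw [e]; exact hK.iterate N
    · exfalso; have := hpm.2; linarith
    · exact (huni p e).2
  have hML : MapsTo h^[N] (Icc α q) (Icc α q) := by
    rcases (hPmem q).1 hqm.1 with e | e | e
    · exfalso; have := hqm.2; linarith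
    · rw [e]; exact hK.iterate N
    · exact (huni q e).1
  have hMC : MapsTo h^[N] (Icc p q) (Icc p q) := mapsTo_Icc_inter hML hMR hpα hqβ
  have hirr : Irred h^[N] p q := by
    intro c d hcd hsub n hn hinv
    rw [← Function.iterate_mul] at hinv
    have hpc : p ≤ c := (hsub ⟨le_rfl, hcd.le⟩).1
    have hdq : d ≤ q := (hsub ⟨hcd.le, le_rfl⟩).2
    obtain ⟨e1, e2⟩ := cut_endpoints hc hK hnw (hpα.trans hpc) hcd (hdq.trans hqβ)
      (Nat.mul_pos hN hn) hinv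
    constructor
    · by_contra hne
      have hlt : p < c := lt_of_le_of_ne hpc (Ne.symm hne)
      exact hpq c ((hPmem c).2 (Or.inr (Or.inr (e1 (hpα.trans_lt hlt))))) ⟨hlt, hcd.trans_le hdq⟩
    · by_contra hne
      have hlt : d < q := lt_of_le_of_ne hdq hne
      exact hpq d ((hPmem d).2 (Or.inr (Or.inr (e2 (hlt.trans_le hqβ))))) ⟨hpc.trans_lt hcd, hlt⟩
  obtain ⟨m, hm, hm1, hm2⟩ := horseshoe_of_irred (hc.iterate N) hMC
    ((hnw.pow hc hN).mono (Ioo_subset_Ioo hpα hqβ)) hirr hpm.2 hqm.2 h1 h2 hs1 hs2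
  exact ⟨N * m, Nat.mul_pos hN hm, by rw [Function.iterate_mul]; exact hm1,
    by rw [Function.iterate_mul]; exact hm2⟩

end

end Pool.Agent.Lib.MP_1073f4_an.OneDim
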