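import Mathlib
import Pool.Agent.Lib.MP_1073f4_an.OneDim.Struct
import Pool.Agent.Lib.MP_1073f4_an.OneDim.Rot
import Pool.Agent.Lib.MP_1073f4_an.OneDim.Crit

set_option autoImplicit false
open Filter Topology Set Function

namespace Pool.Agent.Lib.MP_1073f4_an.OneDim

local instance : Fact ((0 : ℝ) < 1) := ⟨one_pos⟩

/-- The circle. -/
abbrev Cir : Type := AddCircle (1 : ℝ)

/-- The projection of the line onto the circle. -/
def q (x : ℝ) : Cir := (x : AddCircle (1 : ℝ))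

theorem q_eq_iff {x y : ℝ} : q x = q y ↔ ∃ k : ℤ, x = y + k := by
  unfold q
  constructor
  · intro h
    have h1 : ((x - y : ℝ) : AddCircle (1 : ℝ)) = 0 := by rw [AddCircle.coe_sub, h, sub_self]
    obtain ⟨k, hk⟩ := (AddCircle.coe_eq_zero_iff 1).1 h1
    simp only [zsmul_eq_mul, mul_one] at hk
    exact ⟨k, by linarith⟩
  · rintro ⟨k, rfl⟩
    rw [AddCircle.coe_add]
    have : ((k : ℝ) : AddCircle (1 : ℝ)) = 0 :=
      (AddCircle.coe_eq_zero_iff 1).2 ⟨k, by simp⟩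
    rw [this, add_zero]

theorem q_add_int (x : ℝ) (k : ℤ) : q (x + k) = q x := q_eq_iff.2 ⟨k, rfl⟩

theorem q_sub_int (x : ℝ) (k : ℤ) : q (x - k) = q x := q_eq_iff.2 ⟨-k, by push_cast; ring⟩

theorem q_continuous : Continuous q := AddCircle.continuous_mk' (1 : ℝ)

theorem q_open {O : Set ℝ} (hO : IsOpen O) : IsOpen (q '' O) :=
  QuotientAddGroup.isOpenMap_coe _ hO

theorem q_surj (a : ℝ) (s : Cir) : ∃ x ∈ Ico a (a + 1), q x = s := by
  obtain ⟨y, rfl⟩ := QuotientAddGroup.mk_surjective s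
  refine ⟨y - ⌊y - a⌋, ⟨?_, ?_⟩, q_sub_int y _⟩
  · have := Int.floor_le (y - a); linarith
  · have := Int.lt_floor_add_one (y - a); linarith

theorem q_image_shift (a b : ℝ) (k : ℤ) : q '' Icc (a + k) (b + k) = q '' Icc a b := by
  ext s
  constructor
  · rintro ⟨x, hx, rfl⟩
    exact ⟨x - k, ⟨by linarith [hx.1], by linarith [hx.2]⟩, q_sub_int x k⟩
  · rintro ⟨x, hx, rfl⟩
    exact ⟨x + k, ⟨by linarith [hx.1], by linarith [hx.2]⟩, q_add_int x k⟩

/-- disjointness of arcs -/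
theorem q_ne_of_lt {a b x y : ℝ} (hab : b ≤ a + 1) (hx : x ∈ Icc a b) (hy : y ∈ Ioo a b)
    (hxy : x ≠ y) : q x ≠ q y := by
  intro h
  obtain ⟨k, hk⟩ := q_eq_iff.1 h
  have h1 : (k : ℝ) < 1 := by linarith [hx.2, hy.1]
  have h2 : (-1 : ℝ) < k := by linarith [hx.1, hy.2]
  have h3 : k < 1 := by exact_mod_cast h1
  have h4 : -1 < k := by exact_mod_cast h2
  have h5 : k = 0 := by omega
  subst h5
  exact hxy (by simpa using hk)

/-- `F` lifts `f`. -/
def IsLift (f : Cir → Cir) (F : ℝ → ℝ) : Prop := ∀ x, q (F x) = f (q x)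

theorem IsLift.iterate {f : Cir → Cir} {F : ℝ → ℝ} (h : IsLift f F) (n : ℕ) :
    IsLift (f^[n]) (F^[n]) := by
  induction n with
  | zero => intro x; rfl
  | succ n ih =>
    intro x
    rw [Function.iterate_succ_apply', Function.iterate_succ_apply', h, ih]

theorem IsLift.sub_int {f : Cir → Cir} {F : ℝ → ℝ} (h : IsLift f F) (k : ℤ) :
    IsLift f (fun x => F x - k) := fun x => by
  show q (F x - k) = f (q x)
  rw [q_sub_int, h]

theorem IsLift.add_one {f : Cir → Cir} {F : ℝ → ℝ} (h : IsLift f F) (hF : Continuous F) :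
    ∃ D : ℤ, ∀ x, F (x + 1) = F x + D := by
  have h1 : ∀ x, ∃ k : ℤ, F (x + 1) = F x + k := by
    intro x
    apply q_eq_iff.1
    rw [h, h]
    have : q (x + 1) = q x := by simpa using q_add_int x 1
    rw [this]
  obtain ⟨D, hD⟩ := h1 0
  refine ⟨D, fun x => ?_⟩
  by_contra hne
  obtain ⟨k, hk⟩ := h1 x
  have hkD : k ≠ D := fun h => hne (by rw [hk, h])
  have hG : Continuous (fun x => F (x + 1) - F x) :=
    (hF.comp (continuous_id.add continuous_const)).sub hF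
  have e0 : F (0 + 1) - F 0 = D := by rw [hD]; ring
  have ex : F (x + 1) - F x = k := by rw [hk]; ring
  have key : ∀ v : ℝ, v ∈ uIcc (D : ℝ) k → ∃ m : ℤ, v = m := by
    intro v hv
    have h2 : uIcc (D : ℝ) k ⊆ (fun x => F (x + 1) - F x) '' uIcc 0 x := by
      have := intermediate_value_uIcc (a := (0 : ℝ)) (b := x)
        (f := fun x => F (x + 1) - F x) hG.continuousOn
      simpa only [e0, ex] using this
    obtain ⟨y, -, hy⟩ := h2 hv
    obtain ⟨m, hm⟩ := h1 y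
    exact ⟨m, by rw [← hy]; simp only; rw [hm]; ring⟩
  rcases lt_or_gt_of_ne hkD with hlt | hlt
  · obtain ⟨m, hm⟩ := key (k + 1 / 2) (by
      have : (k : ℝ) + 1 ≤ D := by exact_mod_cast hlt
      rw [mem_uIcc]; right; constructor <;> linarith)
    have h3 : ((2 * k + 1 : ℤ) : ℝ) = ((2 * m : ℤ) : ℝ) := by push_cast; linarith
    have h4 : 2 * k + 1 = 2 * m := by exact_mod_cast h3
    omega
  · obtain ⟨m, hm⟩ := key (D + 1 / 2) (by
      have : (D : ℝ) + 1 ≤ k := by exact_mod_cast hlt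
      rw [mem_uIcc]; left; constructor <;> linarith)
    have h3 : ((2 * D + 1 : ℤ) : ℝ) = ((2 * m : ℤ) : ℝ) := by push_cast; linarith
    have h4 : 2 * D + 1 = 2 * m := by exact_mod_cast h3
    omega

theorem q_image_Icc_one (a b : ℝ) (hab : a + 1 ≤ b) : q '' Icc a b = univ := by
  rw [eq_univ_iff_forall]
  intro s
  obtain ⟨x, hx, rfl⟩ := q_surj a s
  exact ⟨x, ⟨hx.1, hx.2.le.trans hab⟩, rfl⟩

theorem diam_lt {f : Cir → Cir} {F : ℝ → ℝ} (h : IsLift f F) (hF : Continuous F) {a b : ℝ}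
    (hne : f '' (q '' Icc a b) ≠ univ) {x y : ℝ} (hx : x ∈ Icc a b) (hy : y ∈ Icc a b) :
    F y - F x < 1 := by
  by_contra hcon
  push Not at hcon
  apply hne
  rw [eq_univ_iff_forall]
  intro s
  obtain ⟨t, ht, rfl⟩ := q_surj (F x) s
  have hpre : IsPreconnected (F '' Icc a b) := isPreconnected_Icc.image F hF.continuousOn
  obtain ⟨z, hz, hzt⟩ := hpre.Icc_subset ⟨x, hx, rfl⟩ ⟨y, hy, rfl⟩
    (show t ∈ Icc (F x) (F y) from ⟨ht.1, by linarith [ht.2]⟩)
  exact ⟨q z, ⟨z, hz, rfl⟩, by rw [← h, hzt]⟩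

/-- A connected image inside one translate. -/
theorem lift_interval {a b : ℝ} (hab : a ≤ b) (hb : b < a + 1) {h : ℝ → ℝ} (hc : Continuous h)
    (hm : ∀ x ∈ Icc a b, q (h x) ∈ q '' Icc a b) :
    ∃ k : ℤ, MapsTo (fun x => h x - k) (Icc a b) (Icc a b) := by
  obtain ⟨t, ht, hta⟩ := hm a ⟨le_rfl, hab⟩
  obtain ⟨k, hk⟩ := q_eq_iff.1 hta.symm
  refine ⟨k, fun x hx => ?_⟩
  have hka : h a - k = t := by linarith
  by_contra hcon
  have hpre : IsPreconnected ((fun x => h x - k) '' Icc a b) :=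
    isPreconnected_Icc.image _ (hc.sub continuous_const).continuousOn
  have hmem : ∀ v, v ∈ (fun x => h x - k) '' Icc a b → q v ∈ q '' Icc a b := by
    rintro v ⟨y, hy, rfl⟩
    show q (h y - k) ∈ _
    rw [q_sub_int]
    exact hm y hy
  have hgap : ∀ v, b < v → v < a + 1 → q v ∉ q '' Icc a b := by
    rintro v hv1 hv2 ⟨w, hw, hwv⟩
    obtain ⟨j, hj⟩ := q_eq_iff.1 hwv
    have h1 : (-1 : ℝ) < j := by linarith [hw.1]
    have h2 : (j : ℝ) < 0 := by linarith [hw.2]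
    have h3 : -1 < j := by exact_mod_cast h1
    have h4 : j < 0 := by exact_mod_cast h2
    omega
  by_cases hxb : b < h x - k
  · have hs := hpre.Icc_subset ⟨a, ⟨le_rfl, hab⟩, rfl⟩ ⟨x, hx, rfl⟩
    simp only [hka] at hs
    obtain ⟨v, hv1, hv2⟩ := exists_between (lt_min hxb hb)
    have hv := hs (show v ∈ Icc t (h x - k) from
      ⟨ht.2.trans hv1.le, (hv2.trans_le (min_le_left _ _)).le⟩)
    exact hgap v hv1 (hv2.trans_le (min_le_right _ _)) (hmem v hv)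
  · have hxa : h x - k < a := by
      by_contra hxa
      exact hcon ⟨not_lt.1 hxa, not_lt.1 hxb⟩
    have hs := hpre.Icc_subset ⟨x, hx, rfl⟩ ⟨a, ⟨le_rfl, hab⟩, rfl⟩
    simp only [hka] at hs
    obtain ⟨v, hv1, hv2⟩ := exists_between (max_lt hxa (show b - 1 < a by linarith))
    have hv := hs (show v ∈ Icc (h x - k) t from
      ⟨((le_max_left _ _).trans_lt hv1).le, hv2.le.trans ht.1⟩)
    have h1 := hmem v hv
    have h2 : q (v + 1) = q v := by simpa using q_add_int v 1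
    rw [← h2] at h1
    have h3 := (le_max_right (h x - k) (b - 1)).trans_lt hv1
    exact hgap (v + 1) (by linarith) (by linarith) h1

/-- Nonwandering passes from the circle to short invariant intervals of lifts. -/
theorem nw_of_circle {f : Cir → Cir} (hnw : NW f univ) {h : ℝ → ℝ}
    (hl : IsLift f h) {α β : ℝ} (hβ : β ≤ α + 1) (hK : MapsTo h (Icc α β) (Icc α β)) :
    NW h (Ioo α β) := by
  intro O hOs hO hne
  obtain ⟨x, ⟨t, ht, rfl⟩, n, hn, t', ht', htt⟩ := hnw (q '' O) (subset_univ _) (q_open hO)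
    (hne.image q)
  refine ⟨t, ht, n, hn, ?_⟩
  rw [← hl.iterate n] at htt
  have h1 : h^[n] t ∈ Icc α β := hK.iterate n (Ioo_subset_Icc_self (hOs ht))
  by_contra hcon
  exact q_ne_of_lt hβ h1 (hOs ht') (fun h => hcon (h ▸ ht')) htt.symm

/-- A piece: an interval invariant under a smooth lift of a power, nonwandering. -/
def Piece (f : Cir → Cir) (m : ℕ) (h : ℝ → ℝ) (α β : ℝ) : Prop :=
  0 < m ∧ ContDiff ℝ 1 h ∧ IsLift (f^[m]) h ∧ MapsTo h (Icc α β) (Icc α β) ∧ NW h (Ioo α β)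

theorem Piece.horseshoe {f : Cir → Cir} {m : ℕ} {h : ℝ → ℝ} {α β : ℝ} (hp : Piece f m h α β)
    (hαβ : α < β) (hfin : {c | Cut h α β c}.Finite) {a b : ℝ}
    (hαa : α < a) (hbβ : b < β) (hno : ∀ c ∈ Icc a b, ¬ Cut h α β c)
    {a₁ b₁ a₂ b₂ : ℝ} (h1 : a₁ < b₁) (h2 : a₂ < b₂) (hs1 : Icc a₁ b₁ ⊆ Icc a b)
    (hs2 : Icc a₂ b₂ ⊆ Icc a b) :
    ∃ n, 0 < n ∧ q '' Icc a b ⊆ f^[n] '' (q '' Icc a₁ b₁) ∧
      q '' Icc a b ⊆ f^[n] '' (q '' Icc a₂ b₂) := by
  obtain ⟨hm, hd, hl, hK, hnw⟩ := hp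
  obtain ⟨n, hn, hn1, hn2⟩ := horseshoe_of_finite_cut hd.continuous hK hαβ hnw hfin hαa hbβ hno
    h1 h2 hs1 hs2
  have key : ∀ A : Set ℝ, Icc a b ⊆ h^[n] '' A → q '' Icc a b ⊆ f^[m * n] '' (q '' A) := by
    rintro A hA _ ⟨x, hx, rfl⟩
    obtain ⟨y, hy, hyx⟩ := hA hx
    refine ⟨q y, ⟨y, hy, rfl⟩, ?_⟩
    rw [Function.iterate_mul, ← hl.iterate n, hyx]
  exact ⟨m * n, Nat.mul_pos hm hn, key _ hn1, key _ hn2⟩

/-- No identity arcs for maps with completely positive entropy. -/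
theorem not_cpe_of_identity {f : Cir → Cir} (hf : Continuous f) {M : ℕ} (hM : 0 < M) {e e' : ℝ}
    (hee : e < e') (he1 : e' ≤ e + 1) (hid : ∀ x ∈ Ioo e e', f^[M] (q x) = q x)
    (hcomp : ∀ s : Cir, s ∉ q '' Ioo e e' → f^[M] s ∉ q '' Ioo e e') : ¬ IsCPE f := by
  intro hcpe
  set A : Set Cir := (q '' Ioo e e')ᶜ with hA
  have hAc : IsClosed A := (q_open isOpen_Ioo).isClosed_compl
  have hne : q e ∈ A := by
    rintro ⟨x, hx, hxe⟩
    exact q_ne_of_lt he1 (x := e) (y := x) ⟨le_rfl, hee.le⟩ hx hx.1.ne hxe.symm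
  set u : Cir → ℝ := fun s => Metric.infDist s A with hu
  have huc : Continuous u := Metric.continuous_infDist_pt A
  have hinv : ∀ s, u (f^[M] s) = u s := by
    intro s
    by_cases hs : s ∈ q '' Ioo e e'
    · obtain ⟨x, hx, rfl⟩ := hs
      rw [hid x hx]
    · have h1 : u s = 0 := Metric.infDist_zero_of_mem hs
      have h2 : u (f^[M] s) = 0 := Metric.infDist_zero_of_mem (hcomp s hs)
      rw [h1, h2]
  have h1 := cpe_not_invariant hf hcpe huc hM hinv (q ((e + e') / 2)) (q e)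
  have h2 : u (q e) = 0 := Metric.infDist_zero_of_mem hne
  have h3 : 0 < u (q ((e + e') / 2)) := by
    rw [hu]
    rw [← hAc.notMem_iff_infDist_pos ⟨_, hne⟩]
    exact fun hn => hn ⟨_, ⟨by linarith, by linarith⟩, rfl⟩
  linarith

theorem Piece.finite_cut {f : Cir → Cir} (hf : Continuous f) (hcpe : IsCPE f) {m : ℕ}
    {h : ℝ → ℝ} {α β : ℝ} (hp : Piece f m h α β) (hβ : β ≤ α + 1)
    (hC : ∀ M, m ∣ M → ∀ s : Cir, s ∉ q '' Icc α β → f^[M] s ∉ q '' Ioo α β) :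
    {c | Cut h α β c}.Finite := by
  by_contra hinf
  obtain ⟨hm, hd, hl, hK, hnw⟩ := hp
  obtain ⟨e, e', N, hαe, hee, heβ, hN, hid, hL, hR⟩ := exists_identity hd hK hnw hinf
  have hlN : IsLift (f^[m * N]) (h^[N]) := by
    rw [Function.iterate_mul]; exact hl.iterate N
  refine not_cpe_of_identity hf (Nat.mul_pos hm hN) hee (by linarith) ?_ ?_ hcpe
  · intro x hx
    rw [← hlN, hid x (Ioo_subset_Icc_self hx)]
  · intro s hs
    by_cases hsK : s ∈ q '' Icc α β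
    · obtain ⟨x, hx, rfl⟩ := hsK
      rw [← hlN]
      have hx' : h^[N] x ∈ Icc α β ∧ h^[N] x ∉ Ioo e e' := by
        rcases le_or_gt x e with hxe | hxe
        · have := hL ⟨hx.1, hxe⟩
          exact ⟨⟨this.1, this.2.trans (by linarith)⟩, fun h => absurd h.1 (not_lt.2 this.2)⟩
        · rcases lt_or_ge x e' with hxe' | hxe'
          · exact absurd ⟨x, ⟨hxe, hxe'⟩, rfl⟩ hs
          · have := hR ⟨hxe', hx.2⟩
            exact ⟨⟨by linarith [this.1], this.2⟩, fun h => absurd h.2 (not_lt.2 this.1)⟩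
      rintro ⟨y, hy, hyx⟩
      exact q_ne_of_lt hβ hx'.1 (y := y) ⟨by linarith [hy.1], by linarith [hy.2]⟩
        (fun h => hx'.2 (h ▸ hy)) hyx.symm
    · rintro ⟨y, hy, hyx⟩
      exact hC _ ⟨N, rfl⟩ s hsK ⟨y, ⟨by linarith [hy.1], by linarith [hy.2]⟩, hyx⟩

end Pool.Agent.Lib.MP_1073f4_an.OneDim
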