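import Mathlib
import Pool.Agent.Lib.MP_1073f4_an.OneDim.Circ1

set_option autoImplicit false
open Filter Topology Set Function

namespace Pool.Agent.Lib.MP_1073f4_an.OneDim

local instance : Fact ((0 : ℝ) < 1) := ⟨one_pos⟩

/-- The horseshoe property off a finite set. -/
def QQ (f : Cir → Cir) : Prop :=
  ∃ P : Set Cir, P.Finite ∧ ∀ a b : ℝ, a < b → (∀ x ∈ Icc a b, q x ∉ P) →
    ∀ a₁ b₁ a₂ b₂ : ℝ, a₁ < b₁ → a₂ < b₂ → Icc a₁ b₁ ⊆ Icc a b → Icc a₂ b₂ ⊆ Icc a b →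
      ∃ n, 0 < n ∧ q '' Icc a b ⊆ f^[n] '' (q '' Icc a₁ b₁) ∧
        q '' Icc a b ⊆ f^[n] '' (q '' Icc a₂ b₂)

theorem QQ_of_window {f : Cir → Cir} {P : Set Cir} (hP : P.Finite) {α : ℝ} (hα : q α ∈ P)
    (h : ∀ a b : ℝ, α < a → a < b → b < α + 1 → (∀ x ∈ Icc a b, q x ∉ P) →
      ∀ a₁ b₁ a₂ b₂ : ℝ, a₁ < b₁ → a₂ < b₂ → Icc a₁ b₁ ⊆ Icc a b → Icc a₂ b₂ ⊆ Icc a b →
        ∃ n, 0 < n ∧ q '' Icc a b ⊆ f^[n] '' (q '' Icc a₁ b₁) ∧
          q '' Icc a b ⊆ f^[n] '' (q '' Icc a₂ b₂)) : QQ f := by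
  refine ⟨P, hP, fun a b hab hno a₁ b₁ a₂ b₂ h1 h2 hs1 hs2 => ?_⟩
  set k : ℤ := ⌊a - α⌋ with hk
  have hk1 : (k : ℝ) ≤ a - α := Int.floor_le _
  have hk2 : a - α < k + 1 := Int.lt_floor_add_one _
  have hak : α < a - k := by
    rcases (show α ≤ a - k by linarith).lt_or_eq with h | h
    · exact h
    · exfalso
      apply hno a ⟨le_rfl, hab.le⟩
      rw [← q_sub_int a k, ← h]
      exact hα
  have hbk : b - k < α + 1 := by
    by_contra hcon
    push Not at hcon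
    apply hno (α + 1 + k) ⟨by linarith, by linarith⟩
    rw [q_add_int]
    have : q (α + 1) = q α := by simpa using q_add_int α 1
    rw [this]
    exact hα
  have hsub : ∀ c d : ℝ, Icc c d ⊆ Icc a b → Icc (c - k) (d - k) ⊆ Icc (a - k) (b - k) := by
    intro c d hcd x hx
    have := hcd (show x + k ∈ Icc c d from ⟨by linarith [hx.1], by linarith [hx.2]⟩)
    exact ⟨by linarith [this.1], by linarith [this.2]⟩
  have hsh : ∀ c d : ℝ, q '' Icc (c - k) (d - k) = q '' Icc c d := by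
    intro c d
    have := q_image_shift (c - k) (d - k) k
    rw [← this]
    simp
  obtain ⟨n, hn, hn1, hn2⟩ := h (a - k) (b - k) hak (by linarith) hbk (by
    intro x hx
    have := hno (x + k) ⟨by linarith [hx.1], by linarith [hx.2]⟩
    rwa [q_add_int] at this) (a₁ - k) (b₁ - k) (a₂ - k) (b₂ - k) (by linarith) (by linarith)
    (hsub _ _ hs1) (hsub _ _ hs2)
  rw [hsh, hsh] at hn1
  rw [hsh, hsh] at hn2
  exact ⟨n, hn, hn1, hn2⟩

theorem Piece.not_cut_of {α β : ℝ} {h : ℝ → ℝ} {P : Set Cir}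
    (hP : q '' {c | Cut h α β c} ⊆ P) {a b : ℝ} (hno : ∀ x ∈ Icc a b, q x ∉ P) :
    ∀ c ∈ Icc a b, ¬ Cut h α β c :=
  fun c hc hcut => hno c hc (hP ⟨c, hcut, rfl⟩)

theorem caseA {f : Cir → Cir} (hf : Continuous f) (hcpe : IsCPE f) {F : ℝ → ℝ}
    (hF : ContDiff ℝ 1 F) (hl : IsLift f F) {a₀ b₀ : ℝ} (hab : a₀ < b₀) (hb : b₀ < a₀ + 1) {m : ℕ}
    (hm : 0 < m) (hinv : MapsTo f^[m] (q '' Icc a₀ b₀) (q '' Icc a₀ b₀)) : QQ f := by
  have hnw : NW f univ := fun O _ hO hne => cpe_nonwandering hf hcpe hO hne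
  have hgc : Continuous f^[m] := hf.iterate m
  have hgn : NW f^[m] univ := hnw.pow hf hm
  have hdis : ∀ s, s ∈ q '' Icc b₀ (a₀ + 1) → s ∉ q '' Ioo a₀ b₀ := by
    rintro s ⟨x, hx, rfl⟩ ⟨y, hy, hyx⟩
    exact q_ne_of_lt (le_refl (a₀ + 1)) (x := x) (y := y) ⟨by linarith [hx.1], hx.2⟩
      ⟨hy.1, by linarith [hy.2]⟩ (by intro h; rw [h] at hx; linarith [hx.1, hy.2]) hyx.symm
  have hdis2 : ∀ s, s ∈ q '' Icc a₀ b₀ → s ∉ q '' Ioo b₀ (a₀ + 1) := by
    rintro s ⟨x, hx, rfl⟩ ⟨y, hy, hyx⟩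
    exact q_ne_of_lt (le_refl (a₀ + 1)) (x := x) (y := y) ⟨hx.1, by linarith [hx.2]⟩
      ⟨by linarith [hy.1], hy.2⟩ (by intro h; rw [h] at hx; linarith [hx.2, hy.1]) hyx.symm
  have hcov : ∀ s, s ∉ q '' Ioo a₀ b₀ → s ∈ q '' Icc b₀ (a₀ + 1) := by
    intro s hs
    obtain ⟨t, ht, rfl⟩ := q_surj a₀ s
    by_cases htb : b₀ ≤ t
    · exact ⟨t, ⟨htb, ht.2.le⟩, rfl⟩
    · have hta : t = a₀ := by
        by_contra hne
        exact hs ⟨t, ⟨lt_of_le_of_ne ht.1 (Ne.symm hne), not_le.1 htb⟩, rfl⟩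
      refine ⟨a₀ + 1, ⟨hb.le, le_rfl⟩, ?_⟩
      rw [hta]
      simpa using q_add_int a₀ 1
  have hinv2 : MapsTo f^[m] (q '' Icc b₀ (a₀ + 1)) (q '' Icc b₀ (a₀ + 1)) := by
    have h1 : ∀ x ∈ Ioo b₀ (a₀ + 1), f^[m] (q x) ∉ q '' Ioo a₀ b₀ := by
      intro x hx hgx
      obtain ⟨y, hy1, hy2⟩ := hgn.absorb
        (O := q '' Ioo b₀ (a₀ + 1) ∩ f^[m] ⁻¹' (q '' Ioo a₀ b₀)) (A := q '' Icc a₀ b₀)
        (subset_univ _) ((q_open isOpen_Ioo).inter ((q_open isOpen_Ioo).preimage hgc))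
        ⟨q x, ⟨x, hx, rfl⟩, hgx⟩ hinv
        (fun y hy => image_mono Ioo_subset_Icc_self hy.2)
      exact hdis2 y hy2 hy1.1
    have h2 : closure (Ioo b₀ (a₀ + 1)) ⊆ (fun x => f^[m] (q x)) ⁻¹' (q '' Ioo a₀ b₀)ᶜ :=
      closure_minimal h1 ((q_open isOpen_Ioo).isClosed_compl.preimage (hgc.comp q_continuous))
    rw [closure_Ioo (by linarith : b₀ ≠ a₀ + 1)] at h2
    rintro s ⟨x, hx, rfl⟩
    exact hcov _ (h2 hx)
  have hlm := hl.iterate m
  have hFm : ContDiff ℝ 1 F^[m] := contDiff_iterate hF m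
  obtain ⟨k₁, hk₁⟩ := lift_interval hab.le hb hFm.continuous (fun x hx => by
    rw [hlm]; exact hinv ⟨x, hx, rfl⟩)
  obtain ⟨k₂, hk₂⟩ := lift_interval (a := b₀) (b := a₀ + 1) hb.le (by linarith) hFm.continuous
    (fun x hx => by rw [hlm]; exact hinv2 ⟨x, hx, rfl⟩)
  have hp1 : Piece f m (fun x => F^[m] x - k₁) a₀ b₀ :=
    ⟨hm, hFm.sub contDiff_const, hlm.sub_int k₁, hk₁,
      nw_of_circle (hnw.pow hf hm) (hlm.sub_int k₁) (by linarith) hk₁⟩
  have hp2 : Piece f m (fun x => F^[m] x - k₂) b₀ (a₀ + 1) :=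
    ⟨hm, hFm.sub contDiff_const, hlm.sub_int k₂, hk₂,
      nw_of_circle (hnw.pow hf hm) (hlm.sub_int k₂) (by linarith) hk₂⟩
  have hf1 := hp1.finite_cut hf hcpe (by linarith) (by
    rintro M ⟨j, rfl⟩ s hs
    have h1 : s ∈ q '' Icc b₀ (a₀ + 1) :=
      hcov s fun h => hs (image_mono Ioo_subset_Icc_self h)
    rw [Function.iterate_mul]
    exact hdis _ (hinv2.iterate j h1))
  have hf2 := hp2.finite_cut hf hcpe (by linarith) (by
    rintro M ⟨j, rfl⟩ s hs
    have h1 : s ∈ q '' Icc a₀ b₀ := by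
      by_contra h
      exact hs (hcov s fun h' => h (image_mono Ioo_subset_Icc_self h'))
    rw [Function.iterate_mul]
    exact hdis2 _ (hinv.iterate j h1))
  refine QQ_of_window (P := q '' ({c | Cut (fun x => F^[m] x - k₁) a₀ b₀ c} ∪
    {c | Cut (fun x => F^[m] x - k₂) b₀ (a₀ + 1) c} ∪ {a₀, b₀}))
    (((hf1.union hf2).union (toFinite _)).image q) (α := a₀) ⟨a₀, by simp, rfl⟩ ?_
  intro a b haa hab' hba hno a₁ b₁ a₂ b₂ h1 h2 hs1 hs2
  by_cases hbb : b < b₀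
  · exact hp1.horseshoe hab hf1 haa hbb (Piece.not_cut_of (by
      rintro _ ⟨c, hc, rfl⟩; exact ⟨c, Or.inl (Or.inl hc), rfl⟩) hno) h1 h2 hs1 hs2
  · have hab0 : b₀ < a := by
      by_contra hcon
      exact hno b₀ ⟨not_lt.1 hcon, not_lt.1 hbb⟩ ⟨b₀, by simp, rfl⟩
    exact hp2.horseshoe hb hf2 hab0 hba (Piece.not_cut_of (by
      rintro _ ⟨c, hc, rfl⟩; exact ⟨c, Or.inl (Or.inr hc), rfl⟩) hno) h1 h2 hs1 hs2

theorem caseB {f : Cir → Cir} (hf : Continuous f) (hcpe : IsCPE f) {m : ℕ} {h : ℝ → ℝ} {α : ℝ}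
    (hp : Piece f m h α (α + 1)) : QQ f := by
  have hfin := hp.finite_cut hf hcpe le_rfl (by
    intro M _ s hs
    rw [q_image_Icc_one α (α + 1) le_rfl] at hs
    exact absurd (mem_univ s) hs)
  refine QQ_of_window (P := q '' ({c | Cut h α (α + 1) c} ∪ {α})) ((hfin.union (toFinite _)).image q)
    (α := α) ⟨α, by simp, rfl⟩ ?_
  intro a b haa hab' hba hno a₁ b₁ a₂ b₂ h1 h2 hs1 hs2
  exact hp.horseshoe (by linarith) hfin haa hba (Piece.not_cut_of (by
      rintro _ ⟨c, hc, rfl⟩; exact ⟨c, Or.inl hc, rfl⟩) hno) h1 h2 hs1 hs2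

theorem surj_of_nw {f : Cir → Cir} (hf : Continuous f) (hnw : NW f univ) : Surjective f := by
  rw [← range_eq_univ]
  by_contra hne
  have hcl : IsClosed (range f) := (isCompact_range hf).isClosed
  have hne' : (range f)ᶜ.Nonempty := by rwa [nonempty_compl]
  obtain ⟨x, hx, n, hn, hxn⟩ := hnw _ (subset_univ _) hcl.isOpen_compl hne'
  apply hxn
  obtain ⟨m, rfl⟩ : ∃ m, n = m + 1 := ⟨n - 1, by omega⟩
  exact ⟨f^[m] x, (Function.iterate_succ_apply' f m x).symm⟩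

theorem case0 {f : Cir → Cir} (hf : Continuous f) (hcpe : IsCPE f) {F : ℝ → ℝ}
    (hF : ContDiff ℝ 1 F) (hl : IsLift f F) (h0 : ∀ x, F (x + 1) = F x) : QQ f := by
  have hnw : NW f univ := fun O _ hO hne => cpe_nonwandering hf hcpe hO hne
  have hFc := hF.continuous
  have hsurj := surj_of_nw hf hnw
  -- the factored map
  have hper : Function.Periodic F 1 := h0
  set Fh : Cir → ℝ := hper.lift with hFh
  have hFhq : ∀ x, Fh (q x) = F x := fun x => hper.lift_coe x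
  have hFhc : Continuous Fh := by
    rw [continuous_def]
    intro O hO
    have : Fh ⁻¹' O = q '' (F ⁻¹' O) := by
      ext s
      constructor
      · intro hs
        obtain ⟨x, -, rfl⟩ := q_surj 0 s
        exact ⟨x, by rw [mem_preimage, ← hFhq]; exact hs, rfl⟩
      · rintro ⟨x, hx, rfl⟩
        rw [mem_preimage, hFhq]; exact hx
    rw [this]
    exact q_open (hO.preimage hFc)
  have hsemi : Function.Semiconj Fh f F := by
    intro s
    obtain ⟨x, -, rfl⟩ := q_surj 0 s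
    rw [← hl, hFhq, hFhq]
  -- the range
  have hcomp : IsCompact (range F) := by
    have : range F = F '' Icc 0 1 := by
      ext y
      constructor
      · rintro ⟨x, rfl⟩
        obtain ⟨t, ht, htx⟩ := q_surj 0 (q x)
        refine ⟨t, ⟨ht.1, by linarith [ht.2]⟩, ?_⟩
        rw [← hFhq, ← hFhq, htx]
      · rintro ⟨x, -, rfl⟩; exact ⟨x, rfl⟩
    rw [this]
    exact isCompact_Icc.image hFc
  have hconn : IsConnected (range F) := isConnected_range hFc
  set α := sInf (range F) with hα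
  set β := sSup (range F) with hβ
  have hrange : range F = Icc α β := by
    exact eq_Icc_of_connected_compact hconn hcomp
  have hK : MapsTo F (Icc α β) (Icc α β) := fun x _ => by rw [← hrange]; exact ⟨x, rfl⟩
  have hmemF : ∀ s, Fh s ∈ Icc α β := by
    intro s
    obtain ⟨x, -, rfl⟩ := q_surj 0 s
    rw [hFhq, ← hrange]; exact ⟨x, rfl⟩
  have hontoF : ∀ t ∈ Icc α β, ∃ s, Fh s = t := by
    intro t ht
    rw [← hrange] at ht
    obtain ⟨x, rfl⟩ := ht
    exact ⟨q x, hFhq x⟩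
  have hαβ : α ≤ β := by
    have := hmemF (q 0)
    exact this.1.trans this.2
  have hlen : α + 1 ≤ β := by
    by_contra hcon
    push Not at hcon
    obtain ⟨s, hs⟩ := hsurj (q ((β + (α + 1)) / 2))
    obtain ⟨x, -, rfl⟩ := q_surj 0 s
    rw [← hl] at hs
    have hFx : F x ∈ Icc α β := by rw [← hrange]; exact ⟨x, rfl⟩
    exact q_ne_of_lt (le_refl (α + 1)) (x := F x) (y := (β + (α + 1)) / 2)
      ⟨hFx.1, by linarith [hFx.2]⟩ ⟨by linarith, by linarith⟩
      (by intro h; have := hFx.2; linarith) hs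
  have hNWF : NW F (Ioo α β) := by
    intro O hOs hO hne
    have hne' : (Fh ⁻¹' O).Nonempty := by
      obtain ⟨t, ht⟩ := hne
      obtain ⟨s, hs⟩ := hontoF t (Ioo_subset_Icc_self (hOs ht))
      exact ⟨s, by rw [mem_preimage, hs]; exact ht⟩
    obtain ⟨s, hs, n, hn, hsn⟩ := hnw (Fh ⁻¹' O) (subset_univ _) (hO.preimage hFhc) hne'
    refine ⟨Fh s, hs, n, hn, ?_⟩
    rw [← (hsemi.iterate_right n) s]
    exact hsn
  have hp : Piece f 1 F α β := ⟨one_pos, hF, hl, hK, hNWF⟩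
  have hfin : {c | Cut F α β c}.Finite := by
    by_contra hinf
    obtain ⟨e, e', N, hαe, hee, heβ, hN, hid, hL, hR⟩ := exists_identity hF hK hNWF hinf
    set A : Set ℝ := (Ioo e e')ᶜ with hA
    have hAc : IsClosed A := isOpen_Ioo.isClosed_compl
    set u : Cir → ℝ := fun s => Metric.infDist (Fh s) A with hu
    have huc : Continuous u := (Metric.continuous_infDist_pt A).comp hFhc
    have hinv : ∀ s, u (f^[N] s) = u s := by
      intro s
      have e1 : u (f^[N] s) = Metric.infDist (F^[N] (Fh s)) A := by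
        rw [hu]; simp only; rw [(hsemi.iterate_right N) s]
      rw [e1]
      by_cases hs : Fh s ∈ Ioo e e'
      · rw [hid _ (Ioo_subset_Icc_self hs)]
      · have h1 : u s = 0 := Metric.infDist_zero_of_mem hs
        rw [h1]
        apply Metric.infDist_zero_of_mem
        have hsK := hmemF s
        rcases le_or_gt (Fh s) e with hxe | hxe
        · have := hL ⟨hsK.1, hxe⟩
          exact fun h => absurd h.1 (not_lt.2 this.2)
        · rcases lt_or_ge (Fh s) e' with hxe' | hxe'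
          · exact absurd ⟨hxe, hxe'⟩ hs
          · have := hR ⟨hxe', hsK.2⟩
            exact fun h => absurd h.2 (not_lt.2 this.1)
    obtain ⟨s₁, hs₁⟩ := hontoF ((e + e') / 2) ⟨by linarith, by linarith⟩
    obtain ⟨s₂, hs₂⟩ := hontoF e ⟨hαe.le, by linarith⟩
    have h1 := cpe_not_invariant hf hcpe huc hN hinv s₁ s₂
    have heA : e ∈ A := fun h => lt_irrefl _ h.1
    have h2 : u s₂ = 0 := by
      rw [hu]; simp only; rw [hs₂]
      exact Metric.infDist_zero_of_mem heA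
    have h3 : 0 < u s₁ := by
      rw [hu]; simp only; rw [hs₁, ← hAc.notMem_iff_infDist_pos ⟨e, heA⟩]
      exact fun h => h ⟨by linarith, by linarith⟩
    linarith
  refine QQ_of_window (P := q '' ({c | Cut F α β c} ∪ {α})) ((hfin.union (toFinite _)).image q)
    (α := α) ⟨α, by simp, rfl⟩ ?_
  intro a b haa hab' hba hno a₁ b₁ a₂ b₂ h1 h2 hs1 hs2
  exact hp.horseshoe (by linarith) hfin haa (hba.trans_le hlen) (Piece.not_cut_of (by
      rintro _ ⟨c, hc, rfl⟩; exact ⟨c, Or.inl hc, rfl⟩) hno) h1 h2 hs1 hs2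

/-- Powers of a nonwandering map are not constant on open sets. -/
theorem nonconst_of_nw {f : Cir → Cir} (hf : Continuous f) (hnw : NW f univ) {a b : ℝ}
    (hab : a < b) {n : ℕ} (hn : 0 < n) (z : Cir) : ∃ x ∈ Ioo a b, f^[n] (q x) ≠ z := by
  by_contra hcon
  push Not at hcon
  set g := f^[n] with hg
  have hgc : Continuous g := hf.iterate n
  have hgn : NW g univ := hnw.pow hf hn
  have hgz : ∀ s ∈ q '' Ioo a b, g s = z := by
    rintro s ⟨x, hx, rfl⟩; exact hcon x hx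
  obtain ⟨s, hs, k, hk, hsk⟩ := hgn (q '' Ioo a b) (subset_univ _) (q_open isOpen_Ioo)
    ((nonempty_Ioo.2 hab).image q)
  obtain ⟨j, rfl⟩ : ∃ j, k = j + 1 := ⟨k - 1, by omega⟩
  rw [Function.iterate_succ_apply, hgz s hs] at hsk
  have hper : g^[j + 1] z = z := by
    rw [Function.iterate_succ_apply', hgz _ hsk]
  set T : Set Cir := (fun i : ℕ => g^[i] z) '' Set.Iio (j + 1) with hT
  have hTfin : T.Finite := (Set.finite_Iio _).image _
  have hTall : ∀ i : ℕ, g^[i] z ∈ T := by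
    intro i
    refine ⟨i % (j + 1), Nat.mod_lt _ (by omega), ?_⟩
    have h1 : g^[i] z = g^[i % (j + 1)] (g^[(j + 1) * (i / (j + 1))] z) := by
      rw [← Function.iterate_add_apply, Nat.mod_add_div]
    rw [h1, Function.iterate_mul, Function.iterate_fixed hper]
  have hne2 : (q '' Ioo a b ∩ Tᶜ).Nonempty := by
    by_contra hemp
    have hsub : q '' Ioo a b ⊆ T := by
      intro s hs
      by_contra hsT
      exact hemp ⟨s, hs, hsT⟩
    have h1 : (q '' Ioo a (min b (a + 1))).Finite :=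
      hTfin.subset ((image_mono (Ioo_subset_Ioo_right (min_le_left _ _))).trans hsub)
    have hinj : InjOn q (Ioo a (min b (a + 1))) := by
      intro x hx y hy hxy
      by_contra hne
      exact q_ne_of_lt (le_refl (a + 1)) (x := x) (y := y)
        ⟨hx.1.le, (hx.2.trans_le (min_le_right _ _)).le⟩
        ⟨hy.1, hy.2.trans_le (min_le_right _ _)⟩ hne hxy
    have h2 := h1.of_finite_image hinj
    exact (Ioo_infinite (lt_min hab (by linarith))) h2
  obtain ⟨s₂, hs₂, k₂, hk₂, hsk₂⟩ := hgn (q '' Ioo a b ∩ Tᶜ) (subset_univ _)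
    ((q_open isOpen_Ioo).inter hTfin.isClosed.isOpen_compl) hne2
  obtain ⟨j₂, rfl⟩ : ∃ j, k₂ = j + 1 := ⟨k₂ - 1, by omega⟩
  rw [Function.iterate_succ_apply, hgz s₂ hs₂.1] at hsk₂
  exact hsk₂.2 (hTall j₂)

end Pool.Agent.Lib.MP_1073f4_an.OneDim
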