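import Mathlib
import Pool.Agent.Lib.MP_1073f4_an.OneDim.Circ2

set_option autoImplicit false
open Filter Topology Set Function

namespace Pool.Agent.Lib.MP_1073f4_an.OneDim

local instance : Fact ((0 : ℝ) < 1) := ⟨one_pos⟩

theorem hull_invariant {g : ℝ → ℝ} (hg : Continuous g) {W : Set ℝ} (hpre : IsPreconnected W)
    (hbb : BddBelow W) (hba : BddAbove W) (hinv : MapsTo g W W) {x y : ℝ} (hx : x ∈ W)
    (hy : y ∈ W) (hxy : x < y) :
    sInf W < sSup W ∧ MapsTo g (Icc (sInf W) (sSup W)) (Icc (sInf W) (sSup W)) ∧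
      W ⊆ Icc (sInf W) (sSup W) := by
  have hcd : sInf W < sSup W := lt_of_le_of_lt (csInf_le hbb hx) (hxy.trans_le (le_csSup hba hy))
  have hIoo : Ioo (sInf W) (sSup W) ⊆ W :=
    IsConnected.Ioo_csInf_csSup_subset ⟨⟨x, hx⟩, hpre⟩ hbb hba
  have hWsub : W ⊆ Icc (sInf W) (sSup W) := fun z hz => ⟨csInf_le hbb hz, le_csSup hba hz⟩
  refine ⟨hcd, ?_, hWsub⟩
  have h1 : closure (Ioo (sInf W) (sSup W)) ⊆ g ⁻¹' Icc (sInf W) (sSup W) :=
    closure_minimal (fun z hz => hWsub (hinv (hIoo hz))) (isClosed_Icc.preimage hg)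
  rw [closure_Ioo hcd.ne] at h1
  exact h1

theorem iterate_degree {F : ℝ → ℝ} {D : ℤ} (h1 : ∀ x, F (x + 1) = F x + D) (n : ℕ) (x : ℝ) :
    F^[n] (x + 1) = F^[n] x + (D ^ n : ℤ) := by
  induction n generalizing x with
  | zero => simp
  | succ n ih =>
    rw [Function.iterate_succ_apply, h1, map_add_int' ih, ← Function.iterate_succ_apply]
    push_cast
    ring

/-- Existence of an invariant fundamental interval. -/
theorem exists_piece {f : Cir → Cir} (hf : Continuous f) (hnw : NW f univ) {F : ℝ → ℝ}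
    (hF : ContDiff ℝ 1 F) (hl : IsLift f F) {D : ℤ} (hD : ∀ x, F (x + 1) = F x + D)
    (hD0 : D ≠ 0)
    (hJ : ∀ (a b : ℝ) (m : ℕ), a < b → b < a + 1 → 0 < m →
      ¬ MapsTo f^[m] (q '' Icc a b) (q '' Icc a b))
    {a₀ b₀ : ℝ} (hab : a₀ < b₀) (hne : ∀ n, f^[n] '' (q '' Icc a₀ b₀) ≠ univ)
    {p : ℝ} {s : ℕ} (hs : 0 < s) (hp : f^[s] (q p) = q p) :
    ∃ (m : ℕ) (h : ℝ → ℝ) (α : ℝ), Piece f m h α (α + 1) := by
  have hFc := hF.continuous
  -- no short invariant intervals
  have hlen : ∀ (m : ℕ) (h : ℝ → ℝ) (c d : ℝ), 0 < m → IsLift f^[m] h → c < d →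
      MapsTo h (Icc c d) (Icc c d) → c + 1 ≤ d := by
    intro m h c d hm hlh hcd hmap
    by_contra hcon
    push Not at hcon
    apply hJ c d m hcd hcon hm
    rintro _ ⟨x, hx, rfl⟩
    exact ⟨h x, hmap hx, hlh x⟩
  by_cases hhit : ∃ n, q p ∈ f^[n] '' (q '' Icc a₀ b₀)
  · obtain ⟨n, _, ⟨y, hy, rfl⟩, hyn⟩ := hhit
    rw [← hl.iterate n] at hyn
    obtain ⟨k', hk'⟩ := q_eq_iff.1 hyn
    -- the lift fixing `p`
    have hp2 : f^[2 * s] (q p) = q p := by
      rw [mul_comm, Function.iterate_mul]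
      show f^[s] (f^[s] (q p)) = q p
      rw [hp, hp]
    rw [← hl.iterate (2 * s)] at hp2
    obtain ⟨k, hk⟩ := q_eq_iff.1 hp2
    set G : ℝ → ℝ := fun x => F^[2 * s] x - k with hG
    have hGd : ContDiff ℝ 1 G := (contDiff_iterate hF _).sub contDiff_const
    have hGc : Continuous G := hGd.continuous
    have hGl : IsLift f^[2 * s] G := (hl.iterate (2 * s)).sub_int k
    have hGp : G p = p := by simp only [hG]; rw [hk]; ring
    have hGD : ∀ x, G (x + 1) = G x + (D ^ (2 * s) : ℤ) := by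
      intro x; simp only [hG]; rw [iterate_degree hD]; ring
    have hD1 : 1 ≤ D ^ (2 * s) := by
      rw [pow_mul]
      exact one_le_pow₀ (by nlinarith [sq_nonneg D, mul_self_pos.2 hD0, sq D] : (1 : ℤ) ≤ D ^ 2)
    set U : Set ℝ := (fun x => F^[n] x - k') '' Icc a₀ b₀ with hU
    have hFnc : Continuous (fun x => F^[n] x - (k' : ℝ)) := (hFc.iterate n).sub continuous_const
    have hpU : p ∈ U := ⟨y, hy, by simp only; rw [hk']; ring⟩
    have hdiam : ∀ (j : ℕ) (x x' : ℝ), x ∈ U → x' ∈ U → G^[j] x - G^[j] x' < 1 := by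
      rintro j _ _ ⟨t, ht, rfl⟩ ⟨t', ht', rfl⟩
      have hl2 : IsLift f^[2 * s * j + n] (fun t => G^[j] (F^[n] t - k')) := by
        intro t
        show q (G^[j] (F^[n] t - k')) = _
        rw [hGl.iterate j, (hl.iterate n).sub_int k' t, Function.iterate_add_apply,
          Function.iterate_mul f (2 * s) j]
      exact diam_lt hl2 ((hGc.iterate j).comp hFnc) (hne _) ht' ht
    set W : Set ℝ := ⋃ j : ℕ, G^[j] '' U with hW
    have hpj : ∀ j, p ∈ G^[j] '' U := fun j => ⟨p, hpU, Function.iterate_fixed hGp j⟩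
    have hUpre : IsPreconnected U := isPreconnected_Icc.image _ hFnc.continuousOn
    have hWpre : IsPreconnected W :=
      isPreconnected_iUnion ⟨p, mem_iInter.2 hpj⟩
        (fun j => hUpre.image _ (hGc.iterate j).continuousOn)
    have hW1 : ∀ w ∈ W, w < p + 1 ∧ p - 1 < w := by
      intro w hw
      obtain ⟨j, x, hx, rfl⟩ := mem_iUnion.1 hw
      have e1 := hdiam j x p hx hpU
      have e2 := hdiam j p x hpU hx
      rw [Function.iterate_fixed hGp j] at e1 e2
      constructor <;> linarith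
    have hbb : BddBelow W := ⟨p - 1, fun w hw => (hW1 w hw).2.le⟩
    have hba : BddAbove W := ⟨p + 1, fun w hw => (hW1 w hw).1.le⟩
    have hinv : MapsTo G W W := by
      intro w hw
      obtain ⟨j, x, hx, rfl⟩ := mem_iUnion.1 hw
      exact mem_iUnion.2 ⟨j + 1, x, hx, Function.iterate_succ_apply' G j x⟩
    have hUW : U ⊆ W := fun x hx => mem_iUnion.2 ⟨0, x, hx, rfl⟩
    obtain ⟨x₁, hx₁, hx₁p⟩ : ∃ x ∈ U, x ≠ p := by
      rcases Nat.eq_zero_or_pos n with rfl | hn
      · have ha : a₀ - k' ∈ U := ⟨a₀, ⟨le_rfl, hab.le⟩, rfl⟩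
        have hb : b₀ - k' ∈ U := ⟨b₀, ⟨hab.le, le_rfl⟩, rfl⟩
        by_cases hap : a₀ - k' = p
        · exact ⟨_, hb, fun h => by linarith⟩
        · exact ⟨_, ha, hap⟩
      · obtain ⟨x, hx, hxz⟩ := nonconst_of_nw hf hnw hab hn (q p)
        refine ⟨F^[n] x - k', ⟨x, Ioo_subset_Icc_self hx, rfl⟩, fun h => hxz ?_⟩
        rw [← hl.iterate n, ← q_sub_int _ k', h]
    obtain ⟨hcd, hmap, hsub⟩ : sInf W < sSup W ∧
        MapsTo G (Icc (sInf W) (sSup W)) (Icc (sInf W) (sSup W)) ∧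
        W ⊆ Icc (sInf W) (sSup W) := by
      rcases lt_or_gt_of_ne hx₁p with h | h
      · exact hull_invariant hGc hWpre hbb hba hinv (hUW hx₁) (hUW hpU) h
      · exact hull_invariant hGc hWpre hbb hba hinv (hUW hpU) (hUW hx₁) h
    set c := sInf W with hc
    set d := sSup W with hd
    have hcp : p - 1 ≤ c := le_csInf ⟨p, hUW hpU⟩ fun w hw => (hW1 w hw).2.le
    have hdp : d ≤ p + 1 := csSup_le ⟨p, hUW hpU⟩ fun w hw => (hW1 w hw).1.le
    have hpcd := hsub (hUW hpU)
    have h2s : 0 < 2 * s := by omega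
    have hcd1 := hlen (2 * s) G c d h2s hGl hcd hmap
    have hpiece : ∀ e : ℝ, MapsTo G (Icc e (e + 1)) (Icc e (e + 1)) →
        Piece f (2 * s) G e (e + 1) := fun e he =>
      ⟨h2s, hGd, hGl, he, nw_of_circle (hnw.pow hf h2s) hGl le_rfl he⟩
    rcases hcd1.eq_or_lt with heq | hlt
    · exact ⟨2 * s, G, c, hpiece c (by rw [heq]; exact hmap)⟩
    · -- degree one
      have hDD : D ^ (2 * s) = 1 := by
        by_contra hne1
        have h2 : 2 ≤ D ^ (2 * s) := by omega
        have h2' : (2 : ℝ) ≤ ((D ^ (2 * s) : ℤ) : ℝ) := by exact_mod_cast h2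
        have e1 := hGD c
        have e2 := hmap ⟨le_rfl, hcd.le⟩
        have e3 := hmap (show c + 1 ∈ Icc c d from ⟨by linarith, hcd1⟩)
        have e4 : c = p - 1 := by linarith [e2.1, e3.2]
        rw [e4, sub_add_cancel, hGp] at e1
        rw [e4] at e2
        linarith [e2.1]
      have hmap2 : MapsTo G (Icc (c + 1) d) (Icc (c + 1) d) := by
        intro x hx
        have e1 := hmap (show x ∈ Icc c d from ⟨by linarith [hx.1], hx.2⟩)
        have e2 := hmap (show x - 1 ∈ Icc c d from ⟨by linarith [hx.1], by linarith [hx.2]⟩)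
        have e3 := hGD (x - 1)
        rw [sub_add_cancel, hDD] at e3
        push_cast at e3
        exact ⟨by linarith [e2.1], e1.2⟩
      have hcd2 := hlen (2 * s) G (c + 1) d h2s hGl hlt hmap2
      have e5 : c = p - 1 := by linarith
      have e6 : d = p + 1 := by linarith
      refine ⟨2 * s, G, p, hpiece p ?_⟩
      rw [e5, e6, sub_add_cancel] at hmap2
      exact hmap2
  · -- the orbit of the arc avoids `p`
    push Not at hhit
    obtain ⟨_, ⟨x₀, hx₀, rfl⟩, r, hr, x₁, hx₁, hx₁r⟩ := hnw (q '' Ioo a₀ b₀) (subset_univ _)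
      (q_open isOpen_Ioo) ((nonempty_Ioo.2 hab).image q)
    rw [← hl.iterate r] at hx₁r
    obtain ⟨k, hk⟩ := q_eq_iff.1 hx₁r.symm
    set G : ℝ → ℝ := fun x => F^[r] x - k with hG
    have hGd : ContDiff ℝ 1 G := (contDiff_iterate hF _).sub contDiff_const
    have hGc : Continuous G := hGd.continuous
    have hGl : IsLift f^[r] G := (hl.iterate r).sub_int k
    have hGx : G x₀ = x₁ := by simp only [hG]; rw [hk]; ring
    set W : Set ℝ := ⋃ j : ℕ, G^[j] '' Icc a₀ b₀ with hW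
    have hWpre : IsPreconnected W := by
      apply IsPreconnected.iUnion_of_chain
      · intro j
        exact isPreconnected_Icc.image _ (hGc.iterate j).continuousOn
      · intro j
        refine ⟨G^[j] x₁, ⟨x₁, Ioo_subset_Icc_self hx₁, rfl⟩, ⟨x₀, Ioo_subset_Icc_self hx₀, ?_⟩⟩
        show G^[j + 1] x₀ = G^[j] x₁
        rw [Function.iterate_succ_apply, hGx]
    have hinv : MapsTo G W W := by
      intro w hw
      obtain ⟨j, x, hx, rfl⟩ := mem_iUnion.1 hw
      exact mem_iUnion.2 ⟨j + 1, x, hx, Function.iterate_succ_apply' G j x⟩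
    have hWp : ∀ w ∈ W, ∀ i : ℤ, w ≠ p + i := by
      intro w hw i hwi
      obtain ⟨j, x, hx, rfl⟩ := mem_iUnion.1 hw
      apply hhit (r * j)
      refine ⟨q x, ⟨x, hx, rfl⟩, ?_⟩
      rw [Function.iterate_mul, ← hGl.iterate j, hwi, q_add_int]
    set i : ℤ := ⌊a₀ - p⌋ with hi
    have hi1 : (i : ℝ) ≤ a₀ - p := Int.floor_le _
    have hi2 : a₀ - p < i + 1 := Int.lt_floor_add_one _
    have haW : a₀ ∈ W := mem_iUnion.2 ⟨0, a₀, ⟨le_rfl, hab.le⟩, rfl⟩
    have hbW : b₀ ∈ W := mem_iUnion.2 ⟨0, b₀, ⟨hab.le, le_rfl⟩, rfl⟩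
    have hWI : ∀ w ∈ W, p + i ≤ w ∧ w ≤ p + i + 1 := by
      intro w hw
      constructor
      · by_contra hlt
        push Not at hlt
        exact hWp _ (hWpre.Icc_subset hw haW ⟨hlt.le, by linarith⟩) i rfl
      · by_contra hlt
        push Not at hlt
        exact hWp _ (hWpre.Icc_subset haW hw (show p + (i + 1 : ℤ) ∈ Icc a₀ w from
          ⟨by push_cast; linarith, by push_cast; linarith⟩)) (i + 1) rfl
    have hbb : BddBelow W := ⟨p + i, fun w hw => (hWI w hw).1⟩
    have hba : BddAbove W := ⟨p + i + 1, fun w hw => (hWI w hw).2⟩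
    obtain ⟨hcd, hmap, hsub⟩ := hull_invariant hGc hWpre hbb hba hinv haW hbW hab
    have hcp : p + i ≤ sInf W := le_csInf ⟨a₀, haW⟩ fun w hw => (hWI w hw).1
    have hdp : sSup W ≤ p + i + 1 := csSup_le ⟨a₀, haW⟩ fun w hw => (hWI w hw).2
    have hcd1 := hlen r G _ _ hr hGl hcd hmap
    have e1 : sInf W = p + i := by linarith
    have e2 : sSup W = p + i + 1 := by linarith
    rw [e1, e2] at hmap
    exact ⟨r, G, p + i, hr, hGd, hGl, hmap, nw_of_circle (hnw.pow hf hr) hGl le_rfl hmap⟩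

/-- A circle map of degree one without periodic points does not have completely positive
entropy. -/
theorem not_cpe_of_no_periodic {f : Cir → Cir} (hf : Continuous f) {F : ℝ → ℝ}
    (hF : Continuous F) (hl : IsLift f F) (h1 : ∀ x, F (x + 1) = F x + 1)
    (hno : ∀ n, 0 < n → ∀ (k : ℤ) (x : ℝ), F^[n] x ≠ x + k) : ¬ IsCPE f := by
  obtain ⟨φ, ρ, hφ, hφ1, hφF⟩ := rot_factor hF h1 hno
  have hper : Function.Periodic (fun x => Real.cos (2 * Real.pi * φ x)) 1 := by
    intro x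
    simp only
    rw [hφ1, mul_add, mul_one, Real.cos_add_two_pi]
  set u : Cir → ℝ := hper.lift with hu
  have huq : ∀ x, u (q x) = Real.cos (2 * Real.pi * φ x) := fun x => hper.lift_coe x
  have huc : Continuous u := by
    rw [continuous_def]
    intro O hO
    have : u ⁻¹' O = q '' ((fun x => Real.cos (2 * Real.pi * φ x)) ⁻¹' O) := by
      ext s
      constructor
      · intro hs
        obtain ⟨x, -, rfl⟩ := q_surj 0 s
        exact ⟨x, by rw [mem_preimage, ← huq]; exact hs, rfl⟩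
      · rintro ⟨x, hx, rfl⟩
        rw [mem_preimage, huq]; exact hx
    rw [this]
    exact q_open (hO.preimage (by fun_prop))
  have hφit : ∀ (i : ℕ) (x : ℝ), φ (F^[i] x) = φ x + i * ρ := by
    intro i
    induction i with
    | zero => intro x; simp
    | succ i ih =>
      intro x
      rw [Function.iterate_succ_apply', hφF, ih]
      push_cast; ring
  intro hcpe
  refine (isCPE_iff hf).1 hcpe u huc ?_ (ze_of_equi ?_)
  · -- nonconstant
    have h2 : φ 0 + 1 = φ 1 := by have := hφ1 0; rw [zero_add] at this; exact this.symm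
    obtain ⟨k, hk1, hk2⟩ : ∃ k : ℤ, φ 0 ≤ k / 2 ∧ (k : ℝ) / 2 + 1 / 2 ≤ φ 1 := by
      refine ⟨⌈2 * φ 0⌉, ?_, ?_⟩
      · have := Int.le_ceil (2 * φ 0); linarith
      · have := Int.ceil_lt_add_one (2 * φ 0); linarith
    have hpre : IsPreconnected (φ '' Icc 0 1) := isPreconnected_Icc.image _ hφ.continuousOn
    have hs := hpre.Icc_subset ⟨0, ⟨le_rfl, zero_le_one⟩, rfl⟩ ⟨1, ⟨zero_le_one, le_rfl⟩, rfl⟩
    obtain ⟨x, -, hx⟩ := hs (show (k : ℝ) / 2 ∈ Icc (φ 0) (φ 1) from ⟨hk1, by linarith⟩)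
    obtain ⟨y, -, hy⟩ := hs (show (k : ℝ) / 2 + 1 / 2 ∈ Icc (φ 0) (φ 1) from ⟨by linarith, hk2⟩)
    refine ⟨q x, q y, ?_⟩
    rw [huq, huq, hx, hy]
    have e1 : 2 * Real.pi * ((k : ℝ) / 2 + 1 / 2) = 2 * Real.pi * ((k : ℝ) / 2) + Real.pi := by
      ring
    have e2 : 2 * Real.pi * ((k : ℝ) / 2) = k * Real.pi := by ring
    rw [e1, Real.cos_add_pi, e2]
    have h3 : |Real.cos (k * Real.pi)| = 1 := Real.abs_cos_int_mul_pi k
    intro h4
    have h5 : Real.cos (k * Real.pi) = 0 := by linarith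
    rw [h5] at h3
    simp at h3
  · intro ε hε
    obtain ⟨t, -, ht⟩ := (isCompact_Icc (a := (0 : ℝ)) (b := 1)).elim_nhds_subcover
      (fun x => φ ⁻¹' Metric.ball (φ x) (ε / (2 * Real.pi)))
      (fun x _ => hφ.continuousAt.preimage_mem_nhds (Metric.ball_mem_nhds _ (by positivity)))
    classical
    refine ⟨t.image q, fun s => ?_⟩
    obtain ⟨x, hx, rfl⟩ := q_surj 0 s
    have := ht (show x ∈ Icc (0 : ℝ) 1 from ⟨hx.1, by linarith [hx.2]⟩)
    simp only [mem_iUnion, mem_preimage] at this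
    obtain ⟨y, hy, hxy⟩ := this
    refine ⟨q y, Finset.mem_image_of_mem q hy, fun i => ?_⟩
    rw [← hl.iterate i, ← hl.iterate i, huq, huq, hφit, hφit]
    rw [Metric.mem_ball, Real.dist_eq] at hxy
    have h2 : |Real.cos (2 * Real.pi * (φ x + i * ρ)) - Real.cos (2 * Real.pi * (φ y + i * ρ))| ≤
        |2 * Real.pi * (φ x + i * ρ) - 2 * Real.pi * (φ y + i * ρ)| := by
      have := Real.lipschitzWith_cos.dist_le_mul (2 * Real.pi * (φ x + i * ρ))
        (2 * Real.pi * (φ y + i * ρ))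
      simpa [Real.dist_eq] using this
    refine h2.trans_lt ?_
    rw [show 2 * Real.pi * (φ x + i * ρ) - 2 * Real.pi * (φ y + i * ρ) =
      (2 * Real.pi) * (φ x - φ y) by ring, abs_mul, abs_of_pos (by positivity : 0 < 2 * Real.pi)]
    rwa [lt_div_iff₀ (by positivity), mul_comm] at hxy

/-- Smooth circle maps with completely positive entropy have the horseshoe property off a finite
set. -/
theorem QQ_of_cpe {f : Cir → Cir} (hf : Continuous f) (hcpe : IsCPE f) {F : ℝ → ℝ}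
    (hF : ContDiff ℝ 1 F) (hl : IsLift f F) : QQ f := by
  have hnw : NW f univ := fun O _ hO hne => cpe_nonwandering hf hcpe hO hne
  have hFc := hF.continuous
  obtain ⟨D, hD⟩ := hl.add_one hFc
  by_cases hD0 : D = 0
  · subst hD0
    exact case0 hf hcpe hF hl (by simpa using hD)
  by_cases hJ : ∃ (a b : ℝ) (m : ℕ), a < b ∧ b < a + 1 ∧ 0 < m ∧
      MapsTo f^[m] (q '' Icc a b) (q '' Icc a b)
  · obtain ⟨a, b, m, hab, hb, hm, hinv⟩ := hJ
    exact caseA hf hcpe hF hl hab hb hm hinv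
  push Not at hJ
  by_cases hB : ∀ a b : ℝ, a < b → ∃ n, f^[n] '' (q '' Icc a b) = univ
  · have hsurj := surj_of_nw hf hnw
    refine ⟨∅, finite_empty, fun a b _ _ a₁ b₁ a₂ b₂ h1 h2 _ _ => ?_⟩
    obtain ⟨n₁, hn₁⟩ := hB a₁ b₁ h1
    obtain ⟨n₂, hn₂⟩ := hB a₂ b₂ h2
    have hstay : ∀ (A : Set Cir) (n k : ℕ), f^[n] '' A = univ → f^[k + n] '' A = univ := by
      intro A n k h
      rw [Function.iterate_add, image_comp, h, image_univ]
      exact (hsurj.iterate k).range_eq
    refine ⟨n₁ + n₂ + 1, by omega, ?_, ?_⟩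
    · rw [show n₁ + n₂ + 1 = (n₂ + 1) + n₁ by ring, hstay _ _ _ hn₁]; exact subset_univ _
    · rw [show n₁ + n₂ + 1 = (n₁ + 1) + n₂ by ring, hstay _ _ _ hn₂]; exact subset_univ _
  push Not at hB
  obtain ⟨a₀, b₀, hab, hne⟩ := hB
  -- a periodic point
  obtain ⟨p, s, hs, hp⟩ : ∃ (p : ℝ) (s : ℕ), 0 < s ∧ f^[s] (q p) = q p := by
    by_cases hD1 : D = 1
    · by_contra hcon
      push Not at hcon
      refine not_cpe_of_no_periodic hf hFc hl (by simpa [hD1] using hD) ?_ hcpe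
      intro n hn k x hx
      apply hcon x n hn
      rw [← hl.iterate n, hx, q_add_int]
    · -- fixed point
      have hG : Continuous (fun x => F x - x) := hFc.sub continuous_id
      have e1 : F 1 - 1 = (F 0 - 0) + (D - 1) := by
        have := hD 0; rw [zero_add] at this; rw [this]; ring
      have hex : ∃ k : ℤ, (k : ℝ) ∈ uIcc (F 0 - 0) (F 1 - 1) := by
        rcases lt_or_gt_of_ne hD1 with h | h
        · have h2 : (D : ℝ) + 1 ≤ 1 := by exact_mod_cast h
          refine ⟨⌊F 0⌋, ?_⟩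
          have := Int.floor_le (F 0)
          have := Int.lt_floor_add_one (F 0)
          rw [mem_uIcc]; right; constructor <;> linarith
        · have h2 : (1 : ℝ) + 1 ≤ D := by exact_mod_cast h
          refine ⟨⌈F 0⌉, ?_⟩
          have := Int.le_ceil (F 0)
          have := Int.ceil_lt_add_one (F 0)
          rw [mem_uIcc]; left; constructor <;> linarith
      obtain ⟨k, hk⟩ := hex
      obtain ⟨x, -, hx⟩ := intermediate_value_uIcc (a := (0 : ℝ)) (b := 1)
        (f := fun x => F x - x) hG.continuousOn hk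
      refine ⟨x, 1, one_pos, ?_⟩
      show f (q x) = q x
      rw [← hl]
      exact q_eq_iff.2 ⟨k, by simp only at hx; linarith⟩
  obtain ⟨m, h, α, hpc⟩ := exists_piece hf hnw hF hl hD hD0 (by
    intro a b m h1 h2 h3 h4; exact hJ a b m h1 h2 h3 h4) hab hne hs hp
  exact caseB hf hcpe hpc

end Pool.Agent.Lib.MP_1073f4_an.OneDim
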