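import Mathlib
import Pool.Agent.Lib.MP_1073f4_an.OneDim.Circ3

set_option autoImplicit false
open Filter Topology Set Function MeasureTheory

namespace Pool.Agent.Lib.MP_1073f4_an.OneDim

theorem polish_of_metric (α : Type) [MetricSpace α] [CompleteSpace α]
    [SecondCountableTopology α] : PolishSpace α := inferInstance

section
variable {X : Type} [MetricSpace X] [CompactSpace X]

theorem continuous_iterate_eval (n : ℕ) :
    Continuous (fun p : C(X, X) × X => (p.1 : X → X)^[n] p.2) := by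
  induction n with
  | zero => exact continuous_snd
  | succ n ih =>
    have : (fun p : C(X, X) × X => (p.1 : X → X)^[n + 1] p.2) =
        (fun p : C(X, X) × X => p.1 p.2) ∘ fun p => (p.1, (p.1 : X → X)^[n] p.2) := by
      funext p
      exact Function.iterate_succ_apply' _ _ _
    rw [this]
    exact (continuous_eval (F := C(X, X))).comp (continuous_fst.prodMk ih)

theorem isOpen_forall_compact {A Z : Type} [TopologicalSpace A] [TopologicalSpace Z]
    [CompactSpace Z] {R : Set (A × Z)} (hR : IsOpen R) : IsOpen {a : A | ∀ z, (a, z) ∈ R} := by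
  have h1 : IsClosed (Prod.fst '' Rᶜ) := isClosedMap_fst_of_compactSpace _ hR.isClosed_compl
  have h2 : {a : A | ∀ z, (a, z) ∈ R} = (Prod.fst '' Rᶜ)ᶜ := by
    ext a
    simp only [mem_ofPred_eq, mem_compl_iff, mem_image, Prod.exists, exists_and_right,
      exists_eq_right, not_exists, not_not]
  rw [h2]
  exact h1.isOpen_compl

theorem isOpen_spans (n : ℕ) (ε : ℝ) (F : Finset X) :
    IsOpen {p : C(X, X) × C(X, ℝ) | Spans (p.1 : X → X) p.2 n ε F} := by
  have hR : IsOpen {z : (C(X, X) × C(X, ℝ)) × X | ∃ y ∈ F, Near (z.1.1 : X → X) z.1.2 n ε z.2 y} := by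
    have : {z : (C(X, X) × C(X, ℝ)) × X | ∃ y ∈ F, Near (z.1.1 : X → X) z.1.2 n ε z.2 y} =
        ⋃ y ∈ F, ⋂ i ∈ Finset.range n, {z : (C(X, X) × C(X, ℝ)) × X |
          |z.1.2 ((z.1.1 : X → X)^[i] z.2) - z.1.2 ((z.1.1 : X → X)^[i] y)| < ε} := by
      ext z
      simp [Near]
    rw [this]
    apply isOpen_biUnion
    intro y _
    apply isOpen_biInter_finset
    intro i _
    have e1 : Continuous (fun z : (C(X, X) × C(X, ℝ)) × X => (z.1.1 : X → X)^[i] z.2) :=
      (continuous_iterate_eval i).comp ((continuous_fst.comp continuous_fst).prodMk continuous_snd)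
    have e2 : Continuous (fun z : (C(X, X) × C(X, ℝ)) × X => (z.1.1 : X → X)^[i] y) :=
      (continuous_iterate_eval i).comp
        ((continuous_fst.comp continuous_fst).prodMk continuous_const)
    have e3 : ∀ w : (C(X, X) × C(X, ℝ)) × X → X, Continuous w →
        Continuous (fun z : (C(X, X) × C(X, ℝ)) × X => z.1.2 (w z)) := fun w hw =>
      (continuous_eval (F := C(X, ℝ))).comp ((continuous_snd.comp continuous_fst).prodMk hw)
    exact isOpen_lt ((e3 _ e1).sub (e3 _ e2)).abs continuous_const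
  exact isOpen_forall_compact hR

omit [MetricSpace X] [CompactSpace X] in
theorem ze_iff {f : X → X} {u : X → ℝ} : ZE f u ↔ ∀ k m : ℕ, ∃ N : ℕ, ∀ n : ℕ, N ≤ n →
    ∃ F : Finset X, (F.card : ℝ) ≤ Real.exp (1 / (m + 1) * n) ∧ Spans f u n (1 / (k + 1)) F := by
  constructor
  · intro h k m
    obtain ⟨N, hN⟩ := eventually_atTop.1 (h (1 / (k + 1)) (by positivity) (1 / (m + 1))
      (by positivity))
    exact ⟨N, hN⟩
  · intro h ε hε δ hδ
    obtain ⟨k, hk⟩ := exists_nat_one_div_lt hε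
    obtain ⟨m, hm⟩ := exists_nat_one_div_lt hδ
    obtain ⟨N, hN⟩ := h k m
    filter_upwards [eventually_ge_atTop N] with n hn
    obtain ⟨F, hF1, hF2⟩ := hN n hn
    refine ⟨F, hF1.trans (Real.exp_le_exp.2 (by gcongr)), fun x => ?_⟩
    obtain ⟨y, hy, hxy⟩ := hF2 x
    exact ⟨y, hy, fun i hi => (hxy i hi).trans hk⟩

/-- The maps without completely positive entropy form an analytic set. -/
theorem analytic_not_cpe : AnalyticSet {f : C(X, X) | ¬ IsCPE (f : X → X)} := by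
  let _ : MeasurableSpace (C(X, X) × C(X, ℝ)) := borel _
  have : BorelSpace (C(X, X) × C(X, ℝ)) := ⟨rfl⟩
  have : PolishSpace (C(X, X) × C(X, ℝ)) := polish_of_metric _
  have hopen : ∀ (n : ℕ) (ε c : ℝ), IsOpen {p : C(X, X) × C(X, ℝ) |
      ∃ F : Finset X, (F.card : ℝ) ≤ c ∧ Spans (p.1 : X → X) p.2 n ε F} := by
    intro n ε c
    have : {p : C(X, X) × C(X, ℝ) |
        ∃ F : Finset X, (F.card : ℝ) ≤ c ∧ Spans (p.1 : X → X) p.2 n ε F} =
        ⋃ F : {F : Finset X // (F.card : ℝ) ≤ c},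
          {p : C(X, X) × C(X, ℝ) | Spans (p.1 : X → X) p.2 n ε F} := by
      ext p
      simp
    rw [this]
    exact isOpen_iUnion fun F => isOpen_spans n ε F.1
  have hnc : IsOpen {p : C(X, X) × C(X, ℝ) | ∃ x y, p.2 x ≠ p.2 y} := by
    have : {p : C(X, X) × C(X, ℝ) | ∃ x y, p.2 x ≠ p.2 y} =
        ⋃ x : X, ⋃ y : X, {p : C(X, X) × C(X, ℝ) | p.2 x ≠ p.2 y} := by
      ext p; simp
    rw [this]
    refine isOpen_iUnion fun x => isOpen_iUnion fun y => ?_
    have e : ∀ x : X, Continuous (fun p : C(X, X) × C(X, ℝ) => p.2 x) := fun x =>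
      (continuous_eval_const x).comp continuous_snd
    exact isOpen_ne_fun (e x) (e y)
  have hmeas : MeasurableSet {p : C(X, X) × C(X, ℝ) | (∃ x y, p.2 x ≠ p.2 y) ∧
      ZE (p.1 : X → X) p.2} := by
    have : {p : C(X, X) × C(X, ℝ) | (∃ x y, p.2 x ≠ p.2 y) ∧ ZE (p.1 : X → X) p.2} =
        {p : C(X, X) × C(X, ℝ) | ∃ x y, p.2 x ≠ p.2 y} ∩
        ⋂ k : ℕ, ⋂ m : ℕ, ⋃ N : ℕ, ⋂ n : ℕ, ⋂ _ : N ≤ n, {p : C(X, X) × C(X, ℝ) |
          ∃ F : Finset X, (F.card : ℝ) ≤ Real.exp (1 / (m + 1) * n) ∧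
            Spans (p.1 : X → X) p.2 n (1 / (k + 1)) F} := by
      ext p
      simp only [mem_ofPred_eq, mem_inter_iff, mem_iInter, mem_iUnion, ze_iff]
    rw [this]
    exact hnc.measurableSet.inter (MeasurableSet.iInter fun k => MeasurableSet.iInter fun m =>
      MeasurableSet.iUnion fun N => MeasurableSet.iInter fun n => MeasurableSet.iInter fun _ =>
        (hopen n _ _).measurableSet)
  have himg := hmeas.analyticSet.image_of_continuous (f := Prod.fst) continuous_fst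
  convert! himg using 1
  ext f
  simp only [mem_ofPred_eq, mem_image, Prod.exists, exists_and_right, exists_eq_right]
  rw [isCPE_iff f.continuous]
  push Not
  constructor
  · rintro ⟨u, hu, hne, hze⟩
    exact ⟨⟨u, hu⟩, hne, hze⟩
  · rintro ⟨u, hne, hze⟩
    exact ⟨u, u.continuous, hne, hze⟩

end

/-! ### The circle -/

local instance : Fact ((0 : ℝ) < 1) := ⟨one_pos⟩

/-- Rational version of the horseshoe property off `P`. -/
def QR (f : Cir → Cir) (P : Set Cir) : Prop :=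
  ∀ a b a₁ b₁ a₂ b₂ : ℚ, a < b → (∀ x ∈ Icc (a : ℝ) b, q x ∉ P) → a₁ < b₁ → a₂ < b₂ →
    Icc (a₁ : ℝ) b₁ ⊆ Icc (a : ℝ) b → Icc (a₂ : ℝ) b₂ ⊆ Icc (a : ℝ) b →
      ∃ n, 0 < n ∧ q '' Icc (a : ℝ) b ⊆ f^[n] '' (q '' Icc (a₁ : ℝ) b₁) ∧
        q '' Icc (a : ℝ) b ⊆ f^[n] '' (q '' Icc (a₂ : ℝ) b₂)

theorem exists_rat_subinterval {a b x : ℝ} (hx : x ∈ Icc a b) (hab : a < b) {U : Set ℝ}
    (hU : IsOpen U) (hxU : x ∈ U) : ∃ c d : ℚ, c < d ∧ Icc (c : ℝ) d ⊆ Icc a b ∧
      Icc (c : ℝ) d ⊆ U := by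
  have hcl : x ∈ closure (Ioo a b) := by rw [closure_Ioo hab.ne]; exact hx
  obtain ⟨y, hyU, hy⟩ := mem_closure_iff.1 hcl U hU hxU
  have hV : IsOpen (U ∩ Ioo a b) := hU.inter isOpen_Ioo
  obtain ⟨l, r, hlr, hsub⟩ := mem_nhds_iff_exists_Ioo_subset.1 (hV.mem_nhds ⟨hyU, hy⟩)
  obtain ⟨c, hc1, hc2⟩ := exists_rat_btwn hlr.1
  obtain ⟨d, hd1, hd2⟩ := exists_rat_btwn hlr.2
  have hI : Icc (c : ℝ) d ⊆ U ∩ Ioo a b := fun z hz => hsub ⟨hc1.trans_le hz.1, hz.2.trans_lt hd2⟩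
  refine ⟨c, d, ?_, fun z hz => Ioo_subset_Icc_self (hI hz).2, fun z hz => (hI hz).1⟩
  exact_mod_cast hc2.trans hd1

theorem cpe_of_QR {f : Cir → Cir} (hf : Continuous f) {P : Set Cir} (hP : P.Finite)
    (h : QR f P) : IsCPE f := by
  rw [isCPE_iff hf]
  intro u hu hne
  set v : ℝ → ℝ := fun x => u (q x) with hv
  have hvc : Continuous v := hu.comp q_continuous
  -- find a rational interval on which `v` is not constant
  obtain ⟨a, b, hab, hno, x, hx, y, hy, hxy⟩ : ∃ a b : ℚ, a < b ∧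
      (∀ x ∈ Icc (a : ℝ) b, q x ∉ P) ∧ ∃ x ∈ Icc (a : ℝ) b, ∃ y ∈ Icc (a : ℝ) b, v x ≠ v y := by
    by_contra hcon
    push Not at hcon
    have hcount : (v '' univ).Countable := by
      have hsub : v '' univ ⊆ (u '' P) ∪ range (fun r : ℚ => v r) := by
        rintro _ ⟨x, -, rfl⟩
        by_cases hxP : q x ∈ P
        · exact Or.inl ⟨q x, hxP, rfl⟩
        · right
          have hopen : IsOpen (q ⁻¹' Pᶜ) := hP.isClosed.isOpen_compl.preimage q_continuous
          obtain ⟨l, r, hlr, hsub⟩ := mem_nhds_iff_exists_Ioo_subset.1 (hopen.mem_nhds hxP)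
          obtain ⟨c, hc1, hc2⟩ := exists_rat_btwn hlr.1
          obtain ⟨d, hd1, hd2⟩ := exists_rat_btwn hlr.2
          refine ⟨c, ?_⟩
          exact hcon c d (by exact_mod_cast hc2.trans hd1)
            (fun z hz => hsub ⟨hc1.trans_le hz.1, hz.2.trans_lt hd2⟩) c
            ⟨le_rfl, (hc2.trans hd1).le⟩ x ⟨hc2.le, hd1.le⟩
      exact ((hP.image u).countable.union (countable_range _)).mono hsub
    have hsing := hcount.isTotallyDisconnected _ Subset.rfl
      (isPreconnected_univ.image v hvc.continuousOn)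
    obtain ⟨s, t, hst⟩ := hne
    obtain ⟨x, -, rfl⟩ := q_surj 0 s
    obtain ⟨y, -, rfl⟩ := q_surj 0 t
    exact hst (hsing ⟨x, mem_univ _, rfl⟩ ⟨y, mem_univ _, rfl⟩)
  have hε : 0 < |v x - v y| / 3 := by
    have := abs_pos.2 (sub_ne_zero.2 hxy); positivity
  have hab' : (a : ℝ) < b := by exact_mod_cast hab
  obtain ⟨a₁, b₁, h1, hs1, hu1⟩ := exists_rat_subinterval hx hab'
    (Metric.isOpen_ball.preimage hvc) (Metric.mem_ball_self (x := v x) hε)
  obtain ⟨a₂, b₂, h2, hs2, hu2⟩ := exists_rat_subinterval hy hab'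
    (Metric.isOpen_ball.preimage hvc) (Metric.mem_ball_self (x := v y) hε)
  obtain ⟨n, hn, hn1, hn2⟩ := h a b a₁ b₁ a₂ b₂ hab hno h1 h2 hs1 hs2
  have h1' : (a₁ : ℝ) < b₁ := by exact_mod_cast h1
  refine not_ze_of_horseshoe (U := q '' Icc (a₁ : ℝ) b₁) (V := q '' Icc (a₂ : ℝ) b₂) hn hε
    ((nonempty_Icc.2 h1'.le).image q) ?_ ((image_mono hs1).trans hn1) ((image_mono hs2).trans hn1)
    ((image_mono hs1).trans hn2) ((image_mono hs2).trans hn2)
  rintro _ ⟨s, hs, rfl⟩ _ ⟨t, ht, rfl⟩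
  have e1 := hu1 hs
  have e2 := hu2 ht
  rw [mem_preimage, Metric.mem_ball, Real.dist_eq] at e1 e2
  have e3 : |v x - v y| ≤ |v s - v x| + |v s - v t| + |v t - v y| := by
    have : v x - v y = -(v s - v x) + (v s - v t) + (v t - v y) := by ring
    rw [this]
    refine (abs_add_three _ _ _).trans ?_
    rw [abs_neg]
  show |v x - v y| / 3 ≤ |v s - v t|
  linarith

theorem isClosed_cover (n : ℕ) {K : Set Cir} (hK : IsCompact K) (A : Set Cir) :
    IsClosed {f : C(Cir, Cir) | A ⊆ (f : Cir → Cir)^[n] '' K} := by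
  have h1 : {f : C(Cir, Cir) | A ⊆ (f : Cir → Cir)^[n] '' K} =
      ⋂ s ∈ A, {f : C(Cir, Cir) | ∃ y ∈ K, (f : Cir → Cir)^[n] y = s} := by
    ext f
    simp only [mem_ofPred_eq, mem_iInter]
    rfl
  rw [h1]
  refine isClosed_biInter fun s _ => ?_
  have h2 : {f : C(Cir, Cir) | ∃ y ∈ K, (f : Cir → Cir)^[n] y = s} =
      Prod.fst '' ({p : C(Cir, Cir) × Cir | (p.1 : Cir → Cir)^[n] p.2 = s} ∩
        Prod.snd ⁻¹' K) := by
    ext f
    simp only [mem_ofPred_eq, mem_image, mem_inter_iff, mem_preimage, Prod.exists]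
    constructor
    · rintro ⟨y, hy, hys⟩; exact ⟨f, y, ⟨hys, hy⟩, rfl⟩
    · rintro ⟨g, y, ⟨hys, hy⟩, rfl⟩; exact ⟨y, hy, hys⟩
  rw [h2]
  apply isClosedMap_fst_of_compactSpace
  exact (isClosed_eq (continuous_iterate_eval n) continuous_const).inter
    (hK.isClosed.preimage continuous_snd)

theorem analytic_QR : AnalyticSet {f : C(Cir, Cir) | ∃ P : Set Cir, P.Finite ∧
    QR (f : Cir → Cir) P} := by
  have h1 : {f : C(Cir, Cir) | ∃ P : Set Cir, P.Finite ∧ QR (f : Cir → Cir) P} =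
      ⋃ m : ℕ, Prod.fst '' {z : C(Cir, Cir) × (Fin m → Cir) | QR (z.1 : Cir → Cir) (range z.2)} := by
    ext f
    simp only [mem_ofPred_eq, mem_iUnion, mem_image, Prod.exists, exists_and_right,
      exists_eq_right]
    constructor
    · rintro ⟨P, hP, hQ⟩
      obtain ⟨n, p, hp⟩ := hP.fin_param
      refine ⟨n, p, ?_⟩
      rw [hp.2]
      exact hQ
    · rintro ⟨m, p, hQ⟩
      exact ⟨range p, finite_range p, hQ⟩
  rw [h1]
  refine AnalyticSet.iUnion fun m => ?_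
  let _ : MeasurableSpace (C(Cir, Cir) × (Fin m → Cir)) := borel _
  have : BorelSpace (C(Cir, Cir) × (Fin m → Cir)) := ⟨rfl⟩
  have : PolishSpace (C(Cir, Cir) × (Fin m → Cir)) := polish_of_metric _
  refine AnalyticSet.image_of_continuous (MeasurableSet.analyticSet ?_) continuous_fst
  have h2 : {z : C(Cir, Cir) × (Fin m → Cir) | QR (z.1 : Cir → Cir) (range z.2)} =
      ⋂ a : ℚ, ⋂ b : ℚ, ⋂ a₁ : ℚ, ⋂ b₁ : ℚ, ⋂ a₂ : ℚ, ⋂ b₂ : ℚ, ⋂ _ : a < b,
        ⋂ _ : a₁ < b₁, ⋂ _ : a₂ < b₂, ⋂ _ : Icc (a₁ : ℝ) b₁ ⊆ Icc (a : ℝ) b,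
        ⋂ _ : Icc (a₂ : ℝ) b₂ ⊆ Icc (a : ℝ) b,
        ({z : C(Cir, Cir) × (Fin m → Cir) | ∀ x ∈ Icc (a : ℝ) b, q x ∉ range z.2}ᶜ ∪
          ⋃ n : ℕ, ⋃ _ : 0 < n,
            (({z : C(Cir, Cir) × (Fin m → Cir) | q '' Icc (a : ℝ) b ⊆
              (z.1 : Cir → Cir)^[n] '' (q '' Icc (a₁ : ℝ) b₁)}) ∩
            ({z : C(Cir, Cir) × (Fin m → Cir) | q '' Icc (a : ℝ) b ⊆
              (z.1 : Cir → Cir)^[n] '' (q '' Icc (a₂ : ℝ) b₂)}))) := by
    ext z
    simp only [mem_iInter, mem_union, mem_compl_iff, mem_iUnion, mem_inter_iff, mem_ofPred_eq, QR]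
    constructor
    · intro h a b a₁ b₁ a₂ b₂ hab h1 h2 hs1 hs2
      by_cases hno : ∀ x ∈ Icc (a : ℝ) b, q x ∉ range z.2
      · right
        obtain ⟨n, hn, hn1, hn2⟩ := h a b a₁ b₁ a₂ b₂ hab hno h1 h2 hs1 hs2
        exact ⟨n, hn, hn1, hn2⟩
      · left; exact hno
    · intro h a b a₁ b₁ a₂ b₂ hab hno h1 h2 hs1 hs2
      rcases h a b a₁ b₁ a₂ b₂ hab h1 h2 hs1 hs2 with h | ⟨n, hn, hn1, hn2⟩
      · exact absurd hno h
      · exact ⟨n, hn, hn1, hn2⟩
  rw [h2]
  refine MeasurableSet.iInter fun a => MeasurableSet.iInter fun b => MeasurableSet.iInter fun a₁ =>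
    MeasurableSet.iInter fun b₁ => MeasurableSet.iInter fun a₂ => MeasurableSet.iInter fun b₂ =>
    MeasurableSet.iInter fun _ => MeasurableSet.iInter fun _ => MeasurableSet.iInter fun _ =>
    MeasurableSet.iInter fun _ => MeasurableSet.iInter fun _ => ?_
  refine MeasurableSet.union (MeasurableSet.compl ?_) (MeasurableSet.iUnion fun n =>
    MeasurableSet.iUnion fun _ => MeasurableSet.inter ?_ ?_)
  · have h3 : {z : C(Cir, Cir) × (Fin m → Cir) | ∀ x ∈ Icc (a : ℝ) b, q x ∉ range z.2} =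
        ⋂ i : Fin m, {z : C(Cir, Cir) × (Fin m → Cir) | z.2 i ∈ (q '' Icc (a : ℝ) b)ᶜ} := by
      ext z
      simp only [mem_ofPred_eq, mem_iInter, mem_compl_iff, mem_image, mem_range, not_exists,
        not_and]
      constructor
      · intro h i x hx hxi; exact h x hx i hxi.symm
      · intro h x hx i hi; exact h i x hx hi.symm
    rw [h3]
    apply IsOpen.measurableSet
    refine isOpen_iInter_of_finite fun i => ?_
    exact (isCompact_Icc.image q_continuous).isClosed.isOpen_compl.preimage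
      ((continuous_apply i).comp continuous_snd)
  · exact ((isClosed_cover n (isCompact_Icc.image q_continuous) _).preimage
      continuous_fst).measurableSet
  · exact ((isClosed_cover n (isCompact_Icc.image q_continuous) _).preimage
      continuous_fst).measurableSet

/-- There is a Borel set of circle maps which consists of maps with completely positive entropy
and contains all the smooth ones. -/
theorem exists_borel_circle : ∃ B : Set C(Cir, Cir), MeasurableSet[borel C(Cir, Cir)] B ∧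
    (∀ f ∈ B, IsCPE (f : Cir → Cir)) ∧
    ∀ f : C(Cir, Cir), IsCPE (f : Cir → Cir) → ∀ F : ℝ → ℝ, ContDiff ℝ 1 F →
      IsLift (f : Cir → Cir) F → f ∈ B := by
  let _ : MeasurableSpace C(Cir, Cir) := borel _
  have : BorelSpace C(Cir, Cir) := ⟨rfl⟩
  obtain ⟨B, hB1, hB2, hB3⟩ := analytic_QR.measurablySeparable
    (analytic_not_cpe (X := Cir)) (by
      rw [Set.disjoint_left]
      rintro f ⟨P, hP, hQ⟩ hn
      exact hn (cpe_of_QR f.continuous hP hQ))
  refine ⟨B, hB3, fun f hf => ?_, fun f hcpe F hF hl => ?_⟩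
  · by_contra hn
    exact Set.disjoint_left.1 hB2 hn hf
  · apply hB1
    obtain ⟨P, hP, hQ⟩ := QQ_of_cpe f.continuous hcpe hF hl
    refine ⟨P, hP, fun a b a₁ b₁ a₂ b₂ hab hno h1 h2 hs1 hs2 => ?_⟩
    exact hQ a b (by exact_mod_cast hab) hno a₁ b₁ a₂ b₂ (by exact_mod_cast h1)
      (by exact_mod_cast h2) hs1 hs2

end Pool.Agent.Lib.MP_1073f4_an.OneDim
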