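import Mathlib
import Pool.Agent.Lib.MP_1073f4_an.Defs
import Pool.Agent.Lib.MP_1073f4_an.OneDim.Ana

set_option autoImplicit false
open Filter Topology Set Function MeasureTheory

namespace Pool.Agent.Lib.MP_1073f4_an.OneDim

theorem hasCPE_iff {X : Type} [TopologicalSpace X] (f : X → X) : HasCPE f ↔ IsCPE f := by
  constructor
  · intro h Y _ _ _ g π hg hπ hs hfac
    exact h Y g π hg hπ hs (fun x => congrFun hfac x) inferInstance
  · intro h Y _ _ g π hg hπ hs hfac hnt
    exact h Y g π hg hπ hs (funext hfac)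

theorem isCPE_conj {X X' : Type} [TopologicalSpace X] [TopologicalSpace X'] (e : X ≃ₜ X')
    {f : X → X} (h : IsCPE f) : IsCPE (e ∘ f ∘ e.symm) := by
  intro Y _ _ _ g π hg hπ hs hfac
  refine h Y g (π ∘ e) hg (hπ.comp e.continuous) (hs.comp e.surjective) ?_
  funext x
  have := congrFun hfac (e x)
  simpa using this

theorem analytic_not_hasCPE {X : Type} [MetricSpace X] [CompactSpace X] :
    AnalyticSet {f : C(X, X) | ¬ HasCPE (f : X → X)} := by
  simp only [hasCPE_iff]
  exact analytic_not_cpe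

local instance : Fact ((0 : ℝ) < 1) := ⟨one_pos⟩

/-- The identification of the `1`-torus with the circle. -/
noncomputable def e1 : Torus 1 ≃ₜ Cir := Homeomorph.funUnique (Fin 1) UnitAddCircle

/-- Transport of maps of the `1`-torus to the circle. -/
noncomputable def toCir (f : C(Torus 1, Torus 1)) : C(Cir, Cir) :=
  (e1 : C(Torus 1, Cir)).comp (f.comp (e1.symm : C(Cir, Torus 1)))

theorem continuous_toCir : Continuous toCir :=
  (ContinuousMap.continuous_postcomp _).comp (ContinuousMap.continuous_precomp _)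

theorem toCir_coe (f : C(Torus 1, Torus 1)) : (toCir f : Cir → Cir) = e1 ∘ f ∘ e1.symm := rfl

theorem isCPE_toCir (f : C(Torus 1, Torus 1)) :
    IsCPE (toCir f : Cir → Cir) ↔ HasCPE (f : Torus 1 → Torus 1) := by
  rw [hasCPE_iff, toCir_coe]
  constructor
  · intro h
    have := isCPE_conj e1.symm h
    convert! this using 1
    funext x
    simp
  · exact fun h => isCPE_conj e1 h

/-- On the circle the maps of class `C ^ k`, `k ≥ 1`, with completely positive entropy form a
Borel set. -/
theorem borel_one (k : ℕ∞) (hk : 1 ≤ k) :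
    MeasurableSet[borel (CkMaps 1 k)] {f | HasCPE (f : Torus 1 → Torus 1)} := by
  obtain ⟨B, hB, hB1, hB2⟩ := exists_borel_circle
  have h1 : {f : CkMaps 1 k | HasCPE (f : Torus 1 → Torus 1)} =
      (fun f : CkMaps 1 k => toCir f.1) ⁻¹' B := by
    ext f
    simp only [mem_ofPred_eq, mem_preimage]
    rw [← isCPE_toCir]
    refine ⟨fun h => ?_, fun h => hB1 _ h⟩
    obtain ⟨F, hF, hFl⟩ := f.2
    have hk' : (1 : WithTop ℕ∞) ≤ (k : WithTop ℕ∞) := by exact_mod_cast hk
    refine hB2 _ h (fun x => F (fun _ => x) 0) ?_ ?_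
    · have e2 : ContDiff ℝ 1 (fun x : ℝ => F (fun _ => x)) :=
        (hF.of_le hk').comp (contDiff_pi.2 fun _ => contDiff_id)
      exact contDiff_pi.1 e2 0
    · intro x
      have h2 := congrFun (hFl (fun _ => x)) 0
      exact h2.symm
  rw [h1]
  let _ : MeasurableSpace (CkMaps 1 k) := borel _
  have : BorelSpace (CkMaps 1 k) := ⟨rfl⟩
  let _ : MeasurableSpace C(Cir, Cir) := borel _
  have : BorelSpace C(Cir, Cir) := ⟨rfl⟩
  exact (continuous_toCir.comp continuous_subtype_val).measurable hB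

/-- Extension of a reduction from the Baire space to all zero-dimensional second countable
spaces. -/
theorem reduction_general {Z : Type} [TopologicalSpace Z] {S : Z → Prop}
    (h : ∀ A : Set (ℕ → ℕ), AnalyticSet Aᶜ → ∃ Φ : (ℕ → ℕ) → Z, Continuous Φ ∧
      ∀ z, z ∈ A ↔ S (Φ z))
    (X : Type) [TopologicalSpace X] [SecondCountableTopology X] [T0Space X]
    (hz : TopologicalSpace.IsTopologicalBasis {s : Set X | IsClopen s}) (A : Set X)
    (hA : AnalyticSet Aᶜ) :
    ∃ Φ : X → Z, Continuous Φ ∧ ∀ x, x ∈ A ↔ S (Φ x) := by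
  classical
  obtain ⟨𝒰, h𝒰, hcount, hbas⟩ := hz.exists_countable
  obtain ⟨U, hU⟩ := (hcount.insert ∅).exists_eq_range ⟨∅, mem_insert _ _⟩
  have hcl : ∀ n, IsClopen (U n) := by
    intro n
    have : U n ∈ insert ∅ 𝒰 := by rw [hU]; exact ⟨n, rfl⟩
    rcases this with h | h
    · rw [h]; exact isClopen_empty
    · exact h𝒰 h
  let ι : X → (ℕ → ℕ) := fun x n => if x ∈ U n then 1 else 0
  have hιc : Continuous ι := by
    refine continuous_pi fun n => ?_
    have hlc : IsLocallyConstant (fun x : X => if x ∈ U n then (1 : ℕ) else 0) := by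
      rw [IsLocallyConstant.iff_eventually_eq]
      intro x
      by_cases hx : x ∈ U n
      · filter_upwards [(hcl n).isOpen.mem_nhds hx] with y hy
        rw [if_pos hx, if_pos hy]
      · filter_upwards [(hcl n).compl.isOpen.mem_nhds hx] with y hy
        rw [if_neg hx, if_neg hy]
    exact hlc.continuous
  have hιi : Function.Injective ι := by
    intro x y hxy
    by_contra hne
    obtain ⟨O, hO, hxor⟩ := exists_isOpen_xor_mem hne
    have key : ∀ x y : X, x ∈ O → y ∉ O → ι x ≠ ι y := by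
      intro x y hx hy heq
      obtain ⟨V, hV, hxV, hVO⟩ := hbas.exists_subset_of_mem_open hx hO
      obtain ⟨n, rfl⟩ : V ∈ range U := by rw [← hU]; exact Or.inr hV
      have := congrFun heq n
      simp only [ι, if_pos hxV, if_neg (fun h => hy (hVO h))] at this
      exact one_ne_zero this
    rcases hxor with ⟨h1, h2⟩ | ⟨h1, h2⟩
    · exact key x y h1 h2 hxy
    · exact key y x h1 h2 hxy.symm
  obtain ⟨Φ, hΦ, hΦA⟩ := h (ι '' Aᶜ)ᶜ (by
    rw [compl_compl]; exact hA.image_of_continuous hιc)
  refine ⟨Φ ∘ ι, hΦ.comp hιc, fun x => ?_⟩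
  rw [Function.comp_apply, ← hΦA]
  constructor
  · rintro hx ⟨y, hy, hyx⟩
    exact hy (hιi hyx ▸ hx)
  · intro hx
    by_contra hxA
    exact hx ⟨x, hxA, rfl⟩

end Pool.Agent.Lib.MP_1073f4_an.OneDim
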